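import Pool.Agent.HS37.CV.Stm

set_option autoImplicit false

namespace Pool.Agent.HS37.CV

open UpperHalfPlane

lemma arik_sq (m c k : ℤ) (hc : c ≠ 0) (h : m * c ^ 2 = k ^ 2) : ∃ j : ℤ, m = j ^ 2 := by
  have h1 : c ^ 2 ∣ k ^ 2 := ⟨m, by linarith⟩
  have h2 : c ∣ k := (Int.pow_dvd_pow_iff two_ne_zero).1 h1
  obtain ⟨j, rfl⟩ := h2
  refine ⟨j, ?_⟩
  have h0 : c ^ 2 ≠ 0 := pow_ne_zero 2 hc
  have h3 : m * c ^ 2 = j ^ 2 * c ^ 2 := by rw [h]; ring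
  exact mul_right_cancel₀ h0 h3

/-- the data of one matrix -/
lemma arik_one (x y : ℝ) (hy : 0 < y) (a b c d : ℤ) 
    (hE : (c : ℂ) * ((x : ℂ) + (y : ℂ) * Complex.I) ^ 2 + ((d : ℂ) - a) * ((x : ℂ) + (y : ℂ) * Complex.I) - b = 0) :
    2 * (c : ℝ) * x = a - d ∧ (b : ℝ) = - c * (x ^ 2 + y ^ 2) ∧
      4 * ((a * d - b * c : ℤ) : ℝ) - ((a + d : ℤ) : ℝ) ^ 2 = 4 * ((c : ℝ) ^ 2 * y ^ 2) := by
  have hre := congrArg Complex.re hE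
  have him := congrArg Complex.im hE
  simp [pow_two] at hre him
  have h1 : 2 * (c : ℝ) * x = a - d := by
    have : y * (2 * (c : ℝ) * x - (a - d)) = 0 := by linarith
    rcases mul_eq_zero.1 this with h | h
    · exact absurd h hy.ne'
    · linarith
  have h2 : (b : ℝ) = - c * (x ^ 2 + y ^ 2) := by
    have h3 : (d : ℝ) - a = - (2 * c * x) := by linarith
    rw [h3] at hre
    nlinarith
  refine ⟨h1, h2, ?_⟩
  push_cast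
  rw [h2]
  have : (a : ℝ) = d + 2 * c * x := by linarith
  rw [this]
  ring

lemma arik_dec1 : ∀ m₁ ∈ [19, 18, 15, 10, 3, 38, 37, 34, 29, 22, 13, 2],
    ∀ m₂ ∈ [31, 30, 27, 22, 15, 6, 62, 61, 58, 53, 46, 37, 26, 13],
    ∀ k ∈ List.range 100, (m₁ : ℕ) * m₂ = k ^ 2 → m₁ ∈ [15, 3, 22, 37, 13] := by
  decide +kernel

lemma arik_dec2 : ∀ m₁ ∈ [15, 3, 22, 37, 13],
    ∀ m₂ ∈ [41, 40, 37, 32, 25, 16, 5, 82, 81, 78, 73, 66, 57, 46, 33, 18, 1],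
    ∀ k ∈ List.range 100, (m₁ : ℕ) * m₂ = k ^ 2 → m₁ = 37 := by
  decide +kernel

lemma arik_abs (s : ℤ) (h : s ^ 2 < 100) : |s| < 10 := by
  apply abs_lt_of_sq_lt_sq (by linarith) (by norm_num)

lemma arik_l1 (s : ℤ) (m : ℕ) (hm : 0 < m) (h : (m : ℤ) = 19 - s ^ 2 ∨ (m : ℤ) = 38 - s ^ 2) :
    m ∈ [19, 18, 15, 10, 3, 38, 37, 34, 29, 22, 13, 2] := by
  have h1 : |s| < 10 := arik_abs s (by omega)
  obtain ⟨h2, h3⟩ := abs_lt.1 h1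
  simp only [List.mem_cons, List.not_mem_nil, or_false]
  interval_cases s <;> omega

lemma arik_l2 (s : ℤ) (m : ℕ) (hm : 0 < m) (h : (m : ℤ) = 31 - s ^ 2 ∨ (m : ℤ) = 62 - s ^ 2) :
    m ∈ [31, 30, 27, 22, 15, 6, 62, 61, 58, 53, 46, 37, 26, 13] := by
  have h1 : |s| < 10 := arik_abs s (by omega)
  obtain ⟨h2, h3⟩ := abs_lt.1 h1
  simp only [List.mem_cons, List.not_mem_nil, or_false]
  interval_cases s <;> omega

lemma arik_l3 (s : ℤ) (m : ℕ) (hm : 0 < m) (h : (m : ℤ) = 41 - s ^ 2 ∨ (m : ℤ) = 82 - s ^ 2) :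
    m ∈ [41, 40, 37, 32, 25, 16, 5, 82, 81, 78, 73, 66, 57, 46, 33, 18, 1] := by
  have h1 : |s| < 10 := arik_abs s (by omega)
  obtain ⟨h2, h3⟩ := abs_lt.1 h1
  simp only [List.mem_cons, List.not_mem_nil, or_false]
  interval_cases s <;> omega

/-- what a matrix gives: an even lower left entry `c`, half of the trace `s` and the natural number
`m = c² y²` -/
lemma arik_two (x y : ℝ) (hy : 0 < y) (N : ℤ) (hN : N % 2 = 1)
    (hsq : ∀ s : ℤ, s ^ 2 ≠ N ∧ s ^ 2 ≠ 2 * N)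
    (A : Matrix (Fin 2) (Fin 2) ℤ) (h0 : (2 : ℤ) ∣ A 1 0)
    (h1 : A.det = N ∨ (A.det = 2 * N ∧ (2 : ℤ) ∣ A 0 0 ∧ (2 : ℤ) ∣ A 1 1))
    (hE : (A 1 0 : ℂ) * ((x : ℂ) + (y : ℂ) * Complex.I) ^ 2 +
      ((A 1 1 : ℂ) - A 0 0) * ((x : ℂ) + (y : ℂ) * Complex.I) - A 0 1 = 0) :
    ∃ (s : ℤ) (m : ℕ), A 0 0 + A 1 1 = 2 * s ∧ 0 < m ∧ A.det = m + s ^ 2 ∧
      (m : ℝ) = (A 1 0 : ℝ) ^ 2 * y ^ 2 ∧ A 1 0 ≠ 0 := by
  obtain ⟨-, -, e3⟩ := arik_one x y hy (A 0 0) (A 0 1) (A 1 0) (A 1 1) hE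
  have hd : A.det = A 0 0 * A 1 1 - A 0 1 * A 1 0 := Matrix.det_fin_two A
  rw [← hd] at e3
  have hs : ∃ s : ℤ, A 0 0 + A 1 1 = 2 * s := by
    rcases h1 with h | ⟨-, h2, h3⟩
    · have hodd : Odd (A 0 0 * A 1 1) := by
        rw [Int.odd_iff]
        obtain ⟨e, he⟩ := h0
        have : A 0 0 * A 1 1 = N + 2 * (A 0 1 * e) := by
          rw [← h, hd, he]; ring
        omega
      obtain ⟨h4, h5⟩ := Int.odd_mul.1 hodd
      obtain ⟨u, hu⟩ := h4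
      obtain ⟨v, hv⟩ := h5
      exact ⟨u + v + 1, by omega⟩
    · obtain ⟨u, hu⟩ := h2
      obtain ⟨v, hv⟩ := h3
      exact ⟨u + v, by omega⟩
  obtain ⟨s, hs⟩ := hs
  rw [hs] at e3
  have e4 : ((A.det - s ^ 2 : ℤ) : ℝ) = (A 1 0 : ℝ) ^ 2 * y ^ 2 := by
    push_cast at e3 ⊢
    linarith
  have hc : A 1 0 ≠ 0 := by
    intro h
    rw [h] at e4
    have e5 : ((A.det - s ^ 2 : ℤ) : ℝ) = ((0 : ℤ) : ℝ) := by rw [e4]; push_cast; ring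
    have e6 : A.det - s ^ 2 = 0 := by exact_mod_cast e5
    obtain ⟨e7, e8⟩ := hsq s
    rcases h1 with h | ⟨h, -, -⟩
    · exact e7 (by linarith)
    · exact e8 (by linarith)
  have hc' : (A 1 0 : ℝ) ≠ 0 := by exact_mod_cast hc
  have hp : 0 < A.det - s ^ 2 := by
    have : (0 : ℝ) < ((A.det - s ^ 2 : ℤ) : ℝ) := by rw [e4]; positivity
    exact_mod_cast this
  obtain ⟨m, hm⟩ := Int.eq_ofNat_of_zero_le hp.le
  refine ⟨s, m, hs, by omega, by linarith, ?_, hc⟩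
  rw [← e4, hm]
  simp

lemma arik_pair (m₁ m₂ : ℕ) (c₁ c₂ : ℤ) (y : ℝ) (hy : 0 < y) (h1 : (m₁ : ℝ) = (c₁ : ℝ) ^ 2 * y ^ 2)
    (h2 : (m₂ : ℝ) = (c₂ : ℝ) ^ 2 * y ^ 2) (hc₂ : c₂ ≠ 0) (hb : m₁ < 100) (hb2 : m₂ < 100) :
    ∃ k ∈ List.range 100, m₁ * m₂ = k ^ 2 := by
  have h3 : ((m₁ : ℤ) * m₂) * c₂ ^ 2 = ((m₂ : ℤ) * c₁) ^ 2 := by
    have : ((((m₁ : ℤ) * m₂) * c₂ ^ 2 : ℤ) : ℝ) = ((((m₂ : ℤ) * c₁) ^ 2 : ℤ) : ℝ) := by
      push_cast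
      have e : (m₁ : ℝ) * (c₂ : ℝ) ^ 2 = (m₂ : ℝ) * (c₁ : ℝ) ^ 2 := by rw [h1, h2]; ring
      calc (m₁ : ℝ) * m₂ * (c₂ : ℝ) ^ 2 = m₂ * ((m₁ : ℝ) * (c₂ : ℝ) ^ 2) := by ring
        _ = _ := by rw [e]; ring
    exact_mod_cast this
  obtain ⟨j, hj⟩ := arik_sq _ _ _ hc₂ h3
  refine ⟨j.natAbs, ?_, ?_⟩
  · rw [List.mem_range]
    have h5 : (m₁ : ℤ) * m₂ < 100 ^ 2 := by
      have : (m₁ : ℤ) < 100 := by exact_mod_cast hb
      have : (m₂ : ℤ) < 100 := by exact_mod_cast hb2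
      nlinarith
    have h6 : |j| < 100 := abs_lt_of_sq_lt_sq (by linarith) (by norm_num)
    rw [Int.abs_eq_natAbs] at h6
    omega
  · have : ((m₁ * m₂ : ℕ) : ℤ) = ((j.natAbs ^ 2 : ℕ) : ℤ) := by
      push_cast
      rw [hj, sq_abs]
    exact_mod_cast this

lemma arik_last (e w b : ℤ) (he : e ≠ 0) (h1 : 16 * 37 ≥ 12 * e ^ 2) (h2 : 4 * w ^ 2 ≤ 9 * e ^ 2)
    (h3 : 2 * e * b = -(w ^ 2 + 37)) : e ^ 2 = 1 ∧ w ^ 2 = 1 := by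
  have h4 : |e| < 8 := abs_lt_of_sq_lt_sq (by linarith) (by norm_num)
  have h5 : |w| < 11 := abs_lt_of_sq_lt_sq (by linarith) (by norm_num)
  obtain ⟨h6, h7⟩ := abs_lt.1 h4
  obtain ⟨h8, h9⟩ := abs_lt.1 h5
  interval_cases e <;> first | omega | (interval_cases w <;> omega)

/-- **ARIK** -/
theorem t_ARIK : S_ARIK := by
  intro τ hlow hre h
  have hy : 0 < τ.im := τ.im_pos
  have hτ : (τ : ℂ) = ((τ.re : ℝ) : ℂ) + ((τ.im : ℝ) : ℂ) * Complex.I := by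
    apply Complex.ext <;> simp
  obtain ⟨A, a1, a2, a3⟩ := h 19 (Or.inl rfl)
  obtain ⟨B, b1, b2, b3⟩ := h 31 (Or.inr (Or.inl rfl))
  obtain ⟨C, c1, c2, c3⟩ := h 41 (Or.inr (Or.inr rfl))
  rw [hτ] at a3 b3 c3 ⊢
  generalize τ.re = x at *
  generalize τ.im = y at *
  have nsq : ∀ N : ℤ, (∀ t : ℤ, |t| < 10 → t ^ 2 ≠ N ∧ t ^ 2 ≠ 2 * N) → 2 * N < 100 → 0 ≤ N →
      ∀ t : ℤ, t ^ 2 ≠ N ∧ t ^ 2 ≠ 2 * N := by
    intro N hN h1 h0 t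
    by_cases ht : |t| < 10
    · exact hN t ht
    · have h2 : 10 ^ 2 ≤ t ^ 2 := by
        rw [← sq_abs t]
        exact pow_le_pow_left₀ (by norm_num) (not_lt.1 ht) 2
      constructor <;> intro h3 <;> omega
  have nsq' : ∀ N : ℤ, N = 19 ∨ N = 31 ∨ N = 41 → ∀ t : ℤ, t ^ 2 ≠ N ∧ t ^ 2 ≠ 2 * N := by
    intro N hN
    apply nsq
    · intro t ht
      obtain ⟨h1, h2⟩ := abs_lt.1 ht
      rcases hN with rfl | rfl | rfl <;> interval_cases t <;> norm_num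
    · omega
    · omega
  obtain ⟨s, m₁, sA, pA, dA, mA, cA⟩ := arik_two x y hy 19 (by norm_num) (nsq' 19 (by norm_num)) A a1
    (by exact_mod_cast a2) (by exact_mod_cast a3)
  obtain ⟨t, m₂, sB, pB, dB, mB, cB⟩ := arik_two x y hy 31 (by norm_num) (nsq' 31 (by norm_num)) B b1
    (by exact_mod_cast b2) (by exact_mod_cast b3)
  obtain ⟨u, m₃, sC, pC, dC, mC, cC⟩ := arik_two x y hy 41 (by norm_num) (nsq' 41 (by norm_num)) C c1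
    (by exact_mod_cast c2) (by exact_mod_cast c3)
  have hA : (m₁ : ℤ) = 19 - s ^ 2 ∨ (m₁ : ℤ) = 38 - s ^ 2 := by
    rcases a2 with h | ⟨h, -, -⟩
    · left; push_cast at h; linarith
    · right; push_cast at h; linarith
  have hB : (m₂ : ℤ) = 31 - t ^ 2 ∨ (m₂ : ℤ) = 62 - t ^ 2 := by
    rcases b2 with h | ⟨h, -, -⟩
    · left; push_cast at h; linarith
    · right; push_cast at h; linarith
  have hC : (m₃ : ℤ) = 41 - u ^ 2 ∨ (m₃ : ℤ) = 82 - u ^ 2 := by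
    rcases c2 with h | ⟨h, -, -⟩
    · left; push_cast at h; linarith
    · right; push_cast at h; linarith
  have bA : m₁ < 100 := by have := sq_nonneg s; omega
  have bB : m₂ < 100 := by have := sq_nonneg t; omega
  have bC : m₃ < 100 := by have := sq_nonneg u; omega
  obtain ⟨k, hk, hk2⟩ := arik_pair m₁ m₂ _ _ y hy mA mB cB bA bB
  obtain ⟨l, hl, hl2⟩ := arik_pair m₁ m₃ _ _ y hy mA mC cC bA bC
  have e1 := arik_dec1 m₁ (arik_l1 s m₁ pA hA) m₂ (arik_l2 t m₂ pB hB) k hk hk2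
  have e2 := arik_dec2 m₁ e1 m₃ (arik_l3 u m₃ pC hC) l hl hl2
  subst e2
  -- the determinant is `38`
  have h38 : (2 : ℤ) ∣ A 0 0 ∧ (2 : ℤ) ∣ A 1 1 ∧ s ^ 2 = 1 := by
    rcases a2 with h | ⟨h, h1, h2⟩
    · exfalso
      have := sq_nonneg s
      push_cast at h dA
      linarith
    · refine ⟨h1, h2, ?_⟩
      push_cast at h dA
      linarith
  obtain ⟨⟨a, ha⟩, ⟨d, hd⟩, hs1⟩ := h38
  obtain ⟨e, he⟩ := a1
  obtain ⟨f1, f2, -⟩ := arik_one x y hy (A 0 0) (A 0 1) (A 1 0) (A 1 1) a3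
  rw [ha, hd, he] at f1
  rw [he] at f2 mA
  push_cast at f1 f2 mA
  have g1 : 2 * (e : ℝ) * x = ((a - d : ℤ) : ℝ) := by push_cast; linarith
  have g2 : 4 * (e : ℝ) ^ 2 * y ^ 2 = 37 := by linarith
  have g3 : 4 * (e : ℝ) ^ 2 * x ^ 2 = ((a - d : ℤ) : ℝ) ^ 2 := by rw [← g1]; ring
  have he0 : e ≠ 0 := by
    rintro rfl
    apply cA
    rw [he]; rfl
  have hx2 : x ^ 2 ≤ 9 / 16 := by
    have := pow_le_pow_left₀ (abs_nonneg x) hre 2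
    rw [sq_abs] at this
    linarith
  have g4 : (16 : ℤ) * 37 ≥ 12 * e ^ 2 := by
    have : (16 : ℝ) * 37 ≥ 12 * (e : ℝ) ^ 2 := by
      rw [← g2]
      nlinarith [sq_nonneg (e : ℝ)]
    exact_mod_cast this
  have g5 : 4 * (a - d) ^ 2 ≤ 9 * e ^ 2 := by
    have : 4 * ((a - d : ℤ) : ℝ) ^ 2 ≤ 9 * (e : ℝ) ^ 2 := by
      rw [← g3]
      nlinarith [sq_nonneg (e : ℝ)]
    exact_mod_cast this
  have g6 : 2 * e * A 0 1 = -((a - d) ^ 2 + 37) := by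
    have : 2 * (e : ℝ) * (A 0 1 : ℝ) = -(((a - d : ℤ) : ℝ) ^ 2 + 37) := by
      rw [← g3, ← g2, f2]; ring
    exact_mod_cast this
  obtain ⟨i1, i2⟩ := arik_last e (a - d) (A 0 1) he0 g4 g5 g6
  have i3 : (e : ℝ) ^ 2 = 1 := by exact_mod_cast i1
  have i4 : ((a - d : ℤ) : ℝ) ^ 2 = 1 := by exact_mod_cast i2
  rw [i3] at g2 g3
  rw [i4] at g3
  have j1 : y = Real.sqrt 37 / 2 := by
    have h1 : (2 * y) ^ 2 = 37 := by linarith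
    have h2 : Real.sqrt 37 = 2 * y := by
      rw [← h1]
      exact Real.sqrt_sq (by linarith)
    linarith
  have j2 : (x - 1 / 2) * (x + 1 / 2) = 0 := by linarith
  rcases mul_eq_zero.1 j2 with h | h
  · left
    have : x = 1 / 2 := by linarith
    rw [this, j1]
    push_cast
    ring
  · right
    have : x = - (1 / 2) := by linarith
    rw [this, j1]
    push_cast
    ring

end Pool.Agent.HS37.CV
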