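import Pool.Agent.HS37.CV.Sym
import Pool.Agent.HS37.CQ.Hk2
import Pool.Agent.HS37.SP.Prod

/-!
# Project CV, piece FN: the modular polynomial on the diagonal
-/

set_option autoImplicit false

open UpperHalfPlane Filter
open scoped Topology
open Pool.Agent.HS37.SP Pool.Agent.HS37.CQ

namespace Pool.Agent.HS37.CV

noncomputable section

namespace FNP

/-! ### Newton -/

theorem newton {T : Type} [Fintype T] (X : ℍ → ℂ) (x : T → ℍ → ℂ)
    (h : ∀ m : ℕ, ∃ Q : Polynomial ℤ, ∀ τ, ∑ t, x t τ ^ m = Polynomial.aeval (X τ) Q) (k : ℕ) :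
    ∃ E : Polynomial ℚ, ∀ τ, MvPolynomial.aeval (fun t => x t τ) (MvPolynomial.esymm T ℚ k) =
      Polynomial.aeval (X τ) E := by
  choose Q hQ using h
  induction k using Nat.strong_induction_on with
  | _ k ih =>
    by_cases hk : k = 0
    · subst hk
      refine ⟨1, fun τ => ?_⟩
      rw [MvPolynomial.esymm_zero, map_one, map_one]
    · have ih' : ∀ m, ∃ E : Polynomial ℚ, m < k → ∀ τ,
          MvPolynomial.aeval (fun t => x t τ) (MvPolynomial.esymm T ℚ m) =
            Polynomial.aeval (X τ) E := by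
        intro m
        by_cases hm : m < k
        · obtain ⟨E, hE⟩ := ih m hm
          exact ⟨E, fun _ => hE⟩
        · exact ⟨0, fun h => absurd h hm⟩
      choose E hE using ih'
      refine ⟨Polynomial.C (1 / (k : ℚ)) * ((-1) ^ (k + 1) *
        ∑ a ∈ (Finset.HasAntidiagonal.antidiagonal k).filter (fun a => a.1 < k),
          (-1) ^ a.1 * E a.1 * (Q a.2).map (algebraMap ℤ ℚ)), fun τ => ?_⟩
      have h1 := congrArg (MvPolynomial.aeval (fun t => x t τ))
        (MvPolynomial.mul_esymm_eq_sum T ℚ k)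
      rw [map_mul, map_natCast, map_mul, map_sum] at h1
      have h2 : ∀ a ∈ (Finset.HasAntidiagonal.antidiagonal k).filter (fun a => a.1 < k),
          MvPolynomial.aeval (fun t => x t τ)
            ((-1) ^ a.1 * MvPolynomial.esymm T ℚ a.1 * MvPolynomial.psum T ℚ a.2) =
          Polynomial.aeval (X τ) ((-1) ^ a.1 * E a.1 * (Q a.2).map (algebraMap ℤ ℚ)) := by
        intro a ha
        have ha' := (Finset.mem_filter.mp ha).2
        rw [map_mul, map_mul, map_mul, map_mul, hE a.1 ha' τ, Polynomial.aeval_map_algebraMap,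
          ← hQ a.2 τ]
        congr 1
        · congr 1
          simp
        · simp [MvPolynomial.psum]
      rw [Finset.sum_congr rfl h2] at h1
      have hk0 : (k : ℂ) ≠ 0 := by exact_mod_cast hk
      have h3 : MvPolynomial.aeval (fun t => x t τ) (MvPolynomial.esymm T ℚ k) = (1 / (k : ℂ)) *
          ((k : ℂ) * MvPolynomial.aeval (fun t => x t τ) (MvPolynomial.esymm T ℚ k)) := by
        field_simp
      rw [h3, h1, map_mul, map_mul, map_sum, Polynomial.aeval_C]
      congr 1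
      · simp
      · congr 1
        simp

theorem esymm_card {T : Type} [Fintype T] (y : T → ℂ) :
    MvPolynomial.aeval y (MvPolynomial.esymm T ℚ (Fintype.card T)) = ∏ t, y t := by
  unfold MvPolynomial.esymm
  rw [← Finset.card_univ, Finset.powersetCard_self, Finset.sum_singleton, map_prod]
  simp

/-! ### Limits -/

theorem qq_tendsto : Tendsto (fun τ : ℍ => qq τ) atImInfty (𝓝 0) := by
  have h := UpperHalfPlane.qParam_tendsto_atImInfty (h := 1) one_pos
  refine h.congr fun τ => ?_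
  exact EISP.qParam_one _

theorem tendsto_of_qexp {g : ℍ → ℂ} {c : PowerSeries ℂ} (hg : QExp g 0 c) :
    Tendsto g atImInfty (𝓝 (PowerSeries.coeff 0 c)) := by
  obtain ⟨d, hd⟩ : ∃ d : PowerSeries ℂ, d = PowerSeries.mk fun n => PowerSeries.coeff (n + 1) c :=
    ⟨_, rfl⟩
  have h1 : QExp (fun τ => (g τ - PowerSeries.coeff 0 c) / qq τ) 0 d := by
    intro τ
    have h2 := hg τ
    rw [pow_zero, one_mul] at h2
    have h3 := (hasSum_nat_add_iff' 1).mpr h2
    have h4 := h3.div_const (qq τ)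
    rw [pow_zero, one_mul]
    simp only [Finset.range_one, Finset.sum_singleton, pow_zero, mul_one] at h4
    refine hs_congr h4 (fun n => ?_) rfl
    rw [hd, PowerSeries.coeff_mk, pow_succ]
    have h5 := Pool.Agent.HS37.SP.qq_ne (τ : ℂ)
    field_simp
  have h5 := bounded_of_qexp h1
  have h6 : Tendsto (fun τ : ℍ => qq τ * ((g τ - PowerSeries.coeff 0 c) / qq τ)) atImInfty
      (𝓝 0) := by
    have h7 : (fun τ : ℍ => (g τ - PowerSeries.coeff 0 c) / qq τ) =O[atImInfty]
        (fun _ => (1 : ℝ)) := h5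
    have h8 : (fun τ : ℍ => qq τ) =o[atImInfty] (fun _ => (1 : ℝ)) :=
      (Asymptotics.isLittleO_one_iff ℝ).mpr qq_tendsto
    have h9 := h8.mul_isBigO h7
    simp only [mul_one] at h9
    exact (Asymptotics.isLittleO_one_iff ℝ).mp h9
  have h7 := h6.add_const (PowerSeries.coeff 0 c)
  rw [zero_add] at h7
  refine h7.congr fun τ => ?_
  have h8 := Pool.Agent.HS37.SP.qq_ne (τ : ℂ)
  field_simp
  ring

/-! ### Power sums -/

theorem val_zero (g : ℍ → ℂ) (t : ℕ × ℕ × ℕ) (τ : ℍ) :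
    val 0 g (mat t) τ = g (PRODP.sg t τ) := by
  rw [val_mat, neg_zero, zpow_zero, one_mul]
  rfl

theorem hq_int {g : ℍ → ℂ} {e N : ℕ} {c : PowerSeries ℂ} (hN : 0 < N) (hg : QExp g e c)
    (hc : IsInt c) : ∃ d, QExp (hsum 0 N g) (N * e) d ∧ IsInt d := by
  refine ⟨_, t_HQ 0 g e N c hN hg, fun n => ?_⟩
  rw [PowerSeries.coeff_mk]
  have h : (∑ p ∈ N.divisorsAntidiagonal,
      if (p.1 : ℤ) ∣ (n : ℤ) - N * e ∧ 0 ≤ (e : ℤ) + p.2 * (((n : ℤ) - N * e) / p.1) then
        (p.2 : ℂ) ^ (1 - (0 : ℤ)) *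
          PowerSeries.coeff ((e : ℤ) + p.2 * (((n : ℤ) - N * e) / p.1)).toNat c
      else 0) ∈ (Int.castRingHom ℂ).range := by
    refine sum_mem fun p _ => ?_
    split_ifs with hp
    · refine mul_mem ?_ ?_
      · rw [sub_zero, zpow_one]
        exact ⟨(p.2 : ℤ), by simp⟩
      · obtain ⟨z, hz⟩ := hc ((e : ℤ) + p.2 * (((n : ℤ) - N * e) / p.1)).toNat
        exact ⟨z, by rw [hz]; simp⟩
    · exact zero_mem _
  obtain ⟨z, hz⟩ := h
  exact ⟨z, by rw [← hz]; simp⟩

theorem hecke_pow (hSYM : S_SYM) (hHK : S_HK2) (hPRE : S_PRE) (hEXP : S_EXP) (hCLO : S_CLO)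
    {N : ℕ} (hN : 0 < N) (hodd : Odd N) (j : ℕ) : ∃ Q : Polynomial ℤ, ∀ τ : ℍ,
      ∑ t ∈ reps N, val 0 fy (mat t) τ ^ j = Polynomial.aeval (fy τ) Q := by
  obtain ⟨cy, h1, h2, -⟩ := SYM.fy_exp hPRE hEXP
  have h3 := GEX.qexp_pow h1 j
  have h4 : IsInt (cy ^ j) := by
    rw [isInt_iff] at *
    exact pow_mem h2 j
  obtain ⟨d, hd1, hd2⟩ := hq_int hN h3 h4
  have h5 : Pr 0 (fun τ => fy τ ^ j) (fun τ => fy τ ^ j) := by
    have := hCLO.2.2.2.2.1 0 _ _ j hPRE.2.2.2.2.1
    rwa [mul_zero] at this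
  have h6 := hHK 0 _ _ N hN hodd h5
  rw [mul_zero] at h6
  obtain ⟨Q, hQ⟩ := hSYM _ _ _ h6 hd1 hd2
  refine ⟨Q, fun τ => ?_⟩
  rw [← hQ τ, hsum]
  refine Finset.sum_congr rfl fun t _ => ?_
  have h7 := val_pow (κ := 0) fy (A := mat t) τ j
  rw [mul_zero] at h7
  exact h7.symm

theorem power (hSYM : S_SYM) (hHK : S_HK2) (hPRE : S_PRE) (hEXP : S_EXP) (hCLO : S_CLO)
    {N : ℕ} (hN : 0 < N) (hodd : Odd N) (m : ℕ) : ∃ Q : Polynomial ℤ, ∀ τ : ℍ,
      ∑ t ∈ reps N, (fy τ - val 0 fy (mat t) τ) ^ m = Polynomial.aeval (fy τ) Q := by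
  choose Q hQ using hecke_pow hSYM hHK hPRE hEXP hCLO hN hodd
  refine ⟨∑ j ∈ Finset.range (m + 1), Polynomial.X ^ j * ((-1) ^ (m - j) * Q (m - j)) *
    (m.choose j : Polynomial ℤ), fun τ => ?_⟩
  have h1 : ∀ t ∈ reps N, (fy τ - val 0 fy (mat t) τ) ^ m = ∑ j ∈ Finset.range (m + 1),
      fy τ ^ j * ((-1) ^ (m - j) * val 0 fy (mat t) τ ^ (m - j)) * (m.choose j : ℂ) := by
    intro t _
    rw [sub_eq_add_neg, add_pow]
    refine Finset.sum_congr rfl fun j _ => ?_
    rw [neg_pow]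
  rw [Finset.sum_congr rfl h1, Finset.sum_comm, map_sum]
  refine Finset.sum_congr rfl fun j _ => ?_
  rw [map_mul, map_mul, map_mul, map_pow, map_pow, map_neg, map_one, Polynomial.aeval_X,
    map_natCast, ← hQ (m - j) τ, ← Finset.sum_mul, ← Finset.mul_sum, ← Finset.mul_sum]

/-! ### The leading term -/

theorem qq_sg {N : ℕ} (hN : 0 < N) {t : ℕ × ℕ × ℕ} (ht : t ∈ reps N) (τ : ℍ) :
    qq (PRODP.sg t τ) ^ t.2.2 = qq τ ^ t.1 := by
  have hd := (reps_pos hN ht).2
  rw [PRODP.sg_coe hN ht]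
  unfold qq
  rw [← Complex.exp_nat_mul, ← Complex.exp_nat_mul, Complex.exp_eq_exp_iff_exists_int]
  refine ⟨t.2.1, ?_⟩
  have hd0 : (t.2.2 : ℂ) ≠ 0 := by exact_mod_cast hd.ne'
  field_simp
  push_cast
  ring

theorem term_tendsto (hPRE : S_PRE) (hEXP : S_EXP) {N : ℕ} (hp : N.Prime)
    {t : ℕ × ℕ × ℕ} (ht : t ∈ reps N) :
    Tendsto (fun τ : ℍ => (fy τ - val 0 fy (mat t) τ) * qq τ ^ (if t.1 = 1 then 1 else N))
      atImInfty (𝓝 (if t.1 = 1 then 1 else -1)) := by
  obtain ⟨cy, h1, -, h3⟩ := SYM.fy_exp hPRE hEXP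
  have h2 : QExp (fun τ : ℍ => qq τ * fy τ) 0 cy := by
    intro τ
    have := h1 τ
    rw [pow_one] at this
    rwa [pow_zero, one_mul]
  have h4 := tendsto_of_qexp h2
  rw [h3] at h4
  have h5 := h4.comp (PRODP.sg_tendsto hp.pos ht)
  have h6 : Tendsto (fun τ : ℍ => qq (PRODP.sg t τ)) atImInfty (𝓝 0) :=
    qq_tendsto.comp (PRODP.sg_tendsto hp.pos ht)
  have hm := (mem_reps hp.pos).mp ht
  have hN2 := hp.two_le
  by_cases h : t.1 = 1
  · rw [if_pos h, if_pos h]
    have hd : t.2.2 = N := by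
      have := hm.1
      rw [h, one_mul] at this
      exact this
    have h7 := h4.sub (h5.mul (h6.pow (N - 1)))
    rw [zero_pow (by omega), mul_zero, sub_zero] at h7
    refine h7.congr fun τ => ?_
    have h8 := qq_sg hp.pos ht τ
    rw [hd, h, pow_one] at h8
    rw [val_zero, pow_one, ← h8]
    simp only [Function.comp_apply]
    obtain ⟨n, rfl⟩ : ∃ n, N = n + 1 := ⟨N - 1, by omega⟩
    rw [Nat.add_sub_cancel, h8]
    have h9 : qq τ = qq (PRODP.sg t τ) ^ n * qq (PRODP.sg t τ) := by rw [← pow_succ, h8]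
    linear_combination (fy (PRODP.sg t τ)) * h9
  · rw [if_neg h, if_neg h]
    have ha : t.1 = N := by
      rcases (Nat.dvd_prime hp).mp (Dvd.intro _ hm.1) with h' | h'
      · exact absurd h' h
      · exact h'
    have hd : t.2.2 = 1 := by
      have := hm.1
      rw [ha] at this
      exact Nat.eq_of_mul_eq_mul_left hp.pos (by rw [this, mul_one])
    have h7 := (h4.mul (qq_tendsto.pow (N - 1))).sub h5
    rw [zero_pow (by omega), mul_zero, zero_sub] at h7
    refine h7.congr fun τ => ?_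
    have h8 := qq_sg hp.pos ht τ
    rw [hd, ha, pow_one] at h8
    rw [val_zero]
    simp only [Function.comp_apply]
    rw [h8]
    obtain ⟨n, rfl⟩ : ∃ n, N = n + 1 := ⟨N - 1, by omega⟩
    rw [Nat.add_sub_cancel]
    ring

theorem card_one {N : ℕ} (hp : N.Prime) : ((reps N).filter (fun t => t.1 = 1)).card = N := by
  have h : (reps N).filter (fun t => t.1 = 1) =
      (Finset.range N).image (fun b => ((1, b, N) : ℕ × ℕ × ℕ)) := by
    ext ⟨a, b, d⟩
    rw [Finset.mem_filter, mem_reps hp.pos, Finset.mem_image]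
    constructor
    · rintro ⟨⟨h1, h2⟩, h3⟩
      simp only at h1 h2 h3
      subst h3
      rw [one_mul] at h1
      subst h1
      exact ⟨b, Finset.mem_range.mpr h2, rfl⟩
    · rintro ⟨b', hb', h4⟩
      simp only [Prod.mk.injEq] at h4
      obtain ⟨rfl, rfl, rfl⟩ := h4
      exact ⟨⟨one_mul _, Finset.mem_range.mp hb'⟩, rfl⟩
  rw [h, Finset.card_image_of_injective _ (fun b b' h => by simpa using h), Finset.card_range]

theorem card_not_one {N : ℕ} (hp : N.Prime) :
    ((reps N).filter (fun t => ¬ t.1 = 1)).card = 1 := by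
  rw [Finset.card_eq_one]
  refine ⟨(N, 0, 1), ?_⟩
  ext ⟨a, b, d⟩
  rw [Finset.mem_filter, mem_reps hp.pos, Finset.mem_singleton]
  constructor
  · rintro ⟨⟨h1, h2⟩, h3⟩
    simp only at h1 h2 h3
    have ha : a = N := by
      rcases (Nat.dvd_prime hp).mp (Dvd.intro _ h1) with h' | h'
      · exact absurd h' h3
      · exact h'
    subst ha
    have hd : d = 1 := Nat.eq_of_mul_eq_mul_left hp.pos (by rw [h1, mul_one])
    subst hd
    simp only [Prod.mk.injEq, true_and, and_true]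
    omega
  · intro h4
    simp only [Prod.mk.injEq] at h4
    obtain ⟨rfl, rfl, rfl⟩ := h4
    exact ⟨⟨mul_one _, Nat.one_pos⟩, hp.one_lt.ne'⟩

theorem prod_tendsto (hPRE : S_PRE) (hEXP : S_EXP) {N : ℕ} (hp : N.Prime) :
    Tendsto (fun τ : ℍ => (∏ t ∈ reps N, (fy τ - val 0 fy (mat t) τ)) * qq τ ^ (2 * N))
      atImInfty (𝓝 (-1)) := by
  have h1 := tendsto_finsetProd (reps N) (fun t ht => term_tendsto hPRE hEXP hp ht)
  have h2 : (∏ t ∈ reps N, (if t.1 = 1 then (1 : ℂ) else -1)) = -1 := by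
    rw [Finset.prod_ite, Finset.prod_const_one, one_mul, Finset.prod_const, card_not_one hp,
      pow_one]
  have h3 : ∑ t ∈ reps N, (if t.1 = 1 then 1 else N) = 2 * N := by
    rw [Finset.sum_ite, Finset.sum_const, Finset.sum_const, card_one hp, card_not_one hp]
    simp
    ring
  rw [h2] at h1
  refine h1.congr fun τ => ?_
  rw [Finset.prod_mul_distrib, Finset.prod_pow_eq_pow_sum, h3]

theorem poly_tendsto (hPRE : S_PRE) (hEXP : S_EXP) (F : Polynomial ℚ) :
    Tendsto (fun τ : ℍ => Polynomial.aeval (fy τ) F * qq τ ^ F.natDegree) atImInfty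
      (𝓝 (F.leadingCoeff : ℂ)) := by
  obtain ⟨cy, h1, -, h3⟩ := SYM.fy_exp hPRE hEXP
  have h2 : QExp (fun τ : ℍ => qq τ * fy τ) 0 cy := by
    intro τ
    have := h1 τ
    rw [pow_one] at this
    rwa [pow_zero, one_mul]
  have h4 := tendsto_of_qexp h2
  rw [h3] at h4
  have h5 : Tendsto (fun τ : ℍ => ∑ i ∈ Finset.range (F.natDegree + 1),
      (F.coeff i : ℂ) * ((qq τ * fy τ) ^ i * qq τ ^ (F.natDegree - i))) atImInfty
      (𝓝 (∑ i ∈ Finset.range (F.natDegree + 1),
        (F.coeff i : ℂ) * ((1 : ℂ) ^ i * (0 : ℂ) ^ (F.natDegree - i)))) :=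
    tendsto_finsetSum _ fun i _ => ((h4.pow i).mul (qq_tendsto.pow _)).const_mul _
  have h6 : ∑ i ∈ Finset.range (F.natDegree + 1),
      (F.coeff i : ℂ) * ((1 : ℂ) ^ i * (0 : ℂ) ^ (F.natDegree - i)) = (F.leadingCoeff : ℂ) := by
    rw [Finset.sum_range_succ, Finset.sum_eq_zero, zero_add, Nat.sub_self, pow_zero, one_pow,
      mul_one, mul_one]
    · rfl
    · intro i hi
      rw [Finset.mem_range] at hi
      rw [zero_pow (by omega), mul_zero, mul_zero]
  rw [h6] at h5
  refine h5.congr fun τ => ?_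
  rw [Polynomial.aeval_eq_sum_range, Finset.sum_mul]
  refine Finset.sum_congr rfl fun i hi => ?_
  rw [Finset.mem_range] at hi
  have h7 : qq τ ^ F.natDegree = qq τ ^ i * qq τ ^ (F.natDegree - i) := by
    rw [← pow_add]
    congr 1
    omega
  rw [h7, mul_pow, Algebra.smul_def]
  simp only [eq_ratCast]
  ring

end FNP

open FNP

theorem t_FN (hSYM : S_SYM) (hHK : S_HK2) (hPRE : S_PRE) (hEXP : S_EXP) (hCLO : S_CLO) :
    S_FN := by
  intro N hp h2
  have hodd : Odd N := hp.odd_of_ne_two h2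
  have hpow := power hSYM hHK hPRE hEXP hCLO hp.pos hodd
  obtain ⟨F, hF⟩ := newton (T := {t // t ∈ reps N}) fy
    (fun t τ => fy τ - val 0 fy (mat t.1) τ) (fun m => by
      obtain ⟨Q, hQ⟩ := hpow m
      refine ⟨Q, fun τ => ?_⟩
      rw [← hQ τ]
      exact Finset.sum_coe_sort (reps N) (fun t => (fy τ - val 0 fy (mat t) τ) ^ m))
    (Fintype.card {t // t ∈ reps N})
  have hF' : ∀ τ : ℍ, Polynomial.aeval (fy τ) F =
      ∏ t ∈ reps N, (fy τ - val 0 fy (mat t) τ) := by
    intro τ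
    rw [← hF τ, esymm_card]
    exact Finset.prod_coe_sort (reps N) (fun t => fy τ - val 0 fy (mat t) τ)
  have k1 := prod_tendsto hPRE hEXP hp
  have k2 := poly_tendsto hPRE hEXP F
  simp only [← hF'] at k1
  have hdeg : F.natDegree = 2 * N := by
    rcases lt_trichotomy F.natDegree (2 * N) with h | h | h
    · exfalso
      have k3 := k2.mul (qq_tendsto.pow (2 * N - F.natDegree))
      rw [zero_pow (by omega), mul_zero] at k3
      have k4 := tendsto_nhds_unique (k1.congr fun τ => by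
        show _ = Polynomial.aeval (fy τ) F * qq τ ^ F.natDegree * qq τ ^ (2 * N - F.natDegree)
        rw [mul_assoc, ← pow_add, Nat.add_sub_cancel' h.le]) k3
      norm_num at k4
    · exact h
    · exfalso
      have k3 := k1.mul (qq_tendsto.pow (F.natDegree - 2 * N))
      rw [zero_pow (by omega), mul_zero] at k3
      have k4 := tendsto_nhds_unique (k2.congr fun τ => by
        show _ = Polynomial.aeval (fy τ) F * qq τ ^ (2 * N) * qq τ ^ (F.natDegree - 2 * N)
        rw [mul_assoc, ← pow_add, Nat.add_sub_cancel' h.le]) k3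
      have k5 : F.leadingCoeff = 0 := by exact_mod_cast k4
      rw [Polynomial.leadingCoeff_eq_zero] at k5
      rw [k5, Polynomial.natDegree_zero] at h
      omega
  refine ⟨F, hdeg, ?_, hF', hpow⟩
  rw [hdeg] at k2
  have k4 := tendsto_nhds_unique k2 k1
  exact_mod_cast k4

end

end Pool.Agent.HS37.CV
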