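import Pool.Agent.HS37.CV.Stm
import Pool.Agent.HS37.CQ.Intl
import Pool.Agent.HS37.CQ.INR1

/-!
# Project CV, piece INL: inert primes, a Hecke argument with power sums
-/

set_option autoImplicit false

open UpperHalfPlane ModularForm ModularFormClass MatrixGroups EisensteinSeries Complex
open Pool.Agent.HS37.SP Pool.Agent.HS37.CQ

namespace Pool.Agent.HS37.CV

namespace INLP

/-- the operator `U` -/
noncomputable def ups (ℓ : ℕ) : PowerSeries ℂ →ₗ[ℂ] PowerSeries ℂ where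
  toFun c := PowerSeries.mk fun n => PowerSeries.coeff (ℓ * n) c
  map_add' a b := by
    ext n
    simp only [PowerSeries.coeff_mk, map_add]
  map_smul' z a := by
    ext n
    simp only [PowerSeries.coeff_mk, PowerSeries.coeff_smul, RingHom.id_apply, smul_eq_mul]

lemma coeff_ups (ℓ n : ℕ) (c : PowerSeries ℂ) :
    PowerSeries.coeff n (ups ℓ c) = PowerSeries.coeff (ℓ * n) c := by
  change PowerSeries.coeff n (PowerSeries.mk fun n => PowerSeries.coeff (ℓ * n) c) = _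
  rw [PowerSeries.coeff_mk]

lemma ups_C_mul (ℓ : ℕ) (z : ℂ) (c : PowerSeries ℂ) :
    ups ℓ (PowerSeries.C z * c) = PowerSeries.C z * ups ℓ c := by
  ext n
  rw [coeff_ups, PowerSeries.coeff_C_mul, PowerSeries.coeff_C_mul, coeff_ups]

lemma ups_vps_mul {ℓ : ℕ} (hℓ : 0 < ℓ) (a c : PowerSeries ℂ) :
    ups ℓ (vps ℓ a * c) = a * ups ℓ c := by
  ext n
  rw [coeff_ups, PowerSeries.coeff_mul, PowerSeries.coeff_mul]
  have hinj : Function.Injective (fun x : ℕ × ℕ => (ℓ * x.1, ℓ * x.2)) := by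
    rintro ⟨x1, x2⟩ ⟨y1, y2⟩ h
    rw [Prod.mk.injEq] at h
    exact Prod.ext (Nat.eq_of_mul_eq_mul_left hℓ h.1) (Nat.eq_of_mul_eq_mul_left hℓ h.2)
  have h1 : ∑ x ∈ Finset.HasAntidiagonal.antidiagonal n, PowerSeries.coeff x.1 a * PowerSeries.coeff x.2 (ups ℓ c) =
      ∑ x ∈ (Finset.HasAntidiagonal.antidiagonal n).map ⟨fun x : ℕ × ℕ => (ℓ * x.1, ℓ * x.2), hinj⟩,
        PowerSeries.coeff x.1 (vps ℓ a) * PowerSeries.coeff x.2 c := by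
    rw [Finset.sum_map]
    refine Finset.sum_congr rfl fun x _ => ?_
    change _ = PowerSeries.coeff (ℓ * x.1) (vps ℓ a) * PowerSeries.coeff (ℓ * x.2) c
    rw [coeff_ups, vps, PowerSeries.coeff_mk, if_pos (dvd_mul_right _ _),
      Nat.mul_div_cancel_left _ hℓ]
  rw [h1]
  symm
  refine Finset.sum_subset ?_ ?_
  · intro x hx
    rw [Finset.mem_map] at hx
    obtain ⟨y, hy, rfl⟩ := hx
    rw [Finset.HasAntidiagonal.mem_antidiagonal] at hy ⊢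
    change ℓ * y.1 + ℓ * y.2 = ℓ * n
    rw [← mul_add, hy]
  · intro x hx hx'
    have h2 : ¬ ℓ ∣ x.1 := by
      rintro ⟨i, hi⟩
      apply hx'
      rw [Finset.HasAntidiagonal.mem_antidiagonal] at hx
      have h3 : ℓ ∣ x.2 := by
        have h4 : ℓ ∣ x.1 + x.2 := by rw [hx]; exact dvd_mul_right _ _
        exact (Nat.dvd_add_right ⟨i, hi⟩).1 h4
      obtain ⟨j, hj⟩ := h3
      rw [Finset.mem_map]
      refine ⟨(i, j), ?_, ?_⟩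
      · rw [Finset.HasAntidiagonal.mem_antidiagonal]
        refine Nat.eq_of_mul_eq_mul_left hℓ ?_
        rw [mul_add, ← hi, ← hj, hx]
      · exact Prod.ext hi.symm hj.symm
    rw [vps, PowerSeries.coeff_mk, if_neg h2, zero_mul]

lemma vps_add' {ℓ : ℕ} (hℓ : ℓ ≠ 0) (a b : PowerSeries ℂ) : vps ℓ (a + b) = vps ℓ a + vps ℓ b := by
  rw [INTLP.vps_eq hℓ, INTLP.vps_eq hℓ, INTLP.vps_eq hℓ, map_add]

lemma vps_pow' {ℓ : ℕ} (hℓ : ℓ ≠ 0) (a : PowerSeries ℂ) (n : ℕ) : vps ℓ (a ^ n) = vps ℓ a ^ n := by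
  rw [INTLP.vps_eq hℓ, INTLP.vps_eq hℓ, map_pow]

lemma vps_one' {ℓ : ℕ} (hℓ : ℓ ≠ 0) : vps ℓ 1 = 1 := by
  rw [INTLP.vps_eq hℓ, map_one]

lemma vps_C_mul (ℓ : ℕ) (z : ℂ) (c : PowerSeries ℂ) :
    vps ℓ (PowerSeries.C z * c) = PowerSeries.C z * vps ℓ c := by
  ext n
  simp only [vps, PowerSeries.coeff_mk, PowerSeries.coeff_C_mul]
  split_ifs
  · rfl
  · rw [mul_zero]

lemma int_ups {ℓ : ℕ} {c : PowerSeries ℂ} (h : c ∈ intR) : ups ℓ c ∈ intR := by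
  rw [← isInt_iff]
  intro n
  rw [coeff_ups]
  exact isInt_iff.2 h _

lemma int_vps {ℓ : ℕ} {c : PowerSeries ℂ} (h : c ∈ intR) : vps ℓ c ∈ intR := by
  rw [← isInt_iff]
  intro n
  rw [vps, PowerSeries.coeff_mk]
  split_ifs
  · exact isInt_iff.2 h _
  · exact ⟨0, by simp⟩

/-- the identity of the series -/
lemma series_key {ℓ : ℕ} (hℓ : 0 < ℓ) (m : ℕ) (q w : PowerSeries ℂ) (pc L z0 : ℂ)
    (hq : q = 1 + PowerSeries.C pc * w) (hL : 1 - L = pc * z0) :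
    ∑ j ∈ Finset.range (m + 1), PowerSeries.C (m.choose j : ℂ) *
      ((PowerSeries.C (-L) * q) ^ (m - j) *
        (PowerSeries.C (L ^ j) * vps ℓ (q ^ j) + PowerSeries.C (ℓ : ℂ) * ups ℓ (q ^ j))) =
    PowerSeries.C (pc ^ m) * ((PowerSeries.C L * (vps ℓ w - w)) ^ m +
      PowerSeries.C (ℓ : ℂ) * ups ℓ ((PowerSeries.C z0 + w - PowerSeries.C L * vps ℓ w) ^ m)) := by
  have hℓ0 : ℓ ≠ 0 := hℓ.ne'
  have hV : vps ℓ q = 1 + PowerSeries.C pc * vps ℓ w := by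
    rw [hq, vps_add' hℓ0, vps_one' hℓ0, vps_C_mul]
  have h1 : ∑ j ∈ Finset.range (m + 1), PowerSeries.C (m.choose j : ℂ) *
      ((PowerSeries.C (-L) * q) ^ (m - j) * (PowerSeries.C (L ^ j) * vps ℓ (q ^ j))) =
      (PowerSeries.C L * vps ℓ q + PowerSeries.C (-L) * q) ^ m := by
    rw [add_pow]
    refine Finset.sum_congr rfl fun j _ => ?_
    rw [vps_pow' hℓ0, map_pow, mul_pow (PowerSeries.C L), map_natCast]
    ring
  have h2 : ∑ j ∈ Finset.range (m + 1), PowerSeries.C (m.choose j : ℂ) *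
      ((PowerSeries.C (-L) * q) ^ (m - j) * (PowerSeries.C (ℓ : ℂ) * ups ℓ (q ^ j))) =
      PowerSeries.C (ℓ : ℂ) * ups ℓ ((q + PowerSeries.C (-L) * vps ℓ q) ^ m) := by
    rw [add_pow, map_sum, Finset.mul_sum]
    refine Finset.sum_congr rfl fun j _ => ?_
    have h3 : q ^ j * (PowerSeries.C (-L) * vps ℓ q) ^ (m - j) * (m.choose j : PowerSeries ℂ) =
        PowerSeries.C (m.choose j : ℂ) * (vps ℓ ((PowerSeries.C (-L) * q) ^ (m - j)) * q ^ j) := by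
      rw [vps_pow' hℓ0, vps_C_mul, map_natCast]
      ring
    rw [h3, ups_C_mul, ups_vps_mul hℓ]
    ring
  have h4 : ∀ j ∈ Finset.range (m + 1), PowerSeries.C (m.choose j : ℂ) *
      ((PowerSeries.C (-L) * q) ^ (m - j) *
        (PowerSeries.C (L ^ j) * vps ℓ (q ^ j) + PowerSeries.C (ℓ : ℂ) * ups ℓ (q ^ j))) =
      PowerSeries.C (m.choose j : ℂ) *
      ((PowerSeries.C (-L) * q) ^ (m - j) * (PowerSeries.C (L ^ j) * vps ℓ (q ^ j))) +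
      PowerSeries.C (m.choose j : ℂ) *
      ((PowerSeries.C (-L) * q) ^ (m - j) * (PowerSeries.C (ℓ : ℂ) * ups ℓ (q ^ j))) := by
    intro j _
    ring
  rw [Finset.sum_congr rfl h4, Finset.sum_add_distrib, h1, h2]
  have hLC : (1 : PowerSeries ℂ) - PowerSeries.C L = PowerSeries.C pc * PowerSeries.C z0 := by
    rw [← map_mul, ← hL, map_sub, map_one]
  have hneg : PowerSeries.C (-L) = -(PowerSeries.C L) := map_neg _ _
  have h5 : PowerSeries.C L * vps ℓ q + PowerSeries.C (-L) * q =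
      PowerSeries.C pc * (PowerSeries.C L * (vps ℓ w - w)) := by
    rw [hV, hneg, hq]
    ring
  have h6 : q + PowerSeries.C (-L) * vps ℓ q =
      PowerSeries.C pc * (PowerSeries.C z0 + w - PowerSeries.C L * vps ℓ w) := by
    rw [hV, hneg, hq]
    linear_combination hLC
  rw [h5, h6, mul_pow, mul_pow (PowerSeries.C pc), ← map_pow, ups_C_mul]
  ring

/-- the form `K` -/
noncomputable def Kf (p : ℕ) (τ : ℍ) : ℂ :=
  ∑ n ∈ Finset.range (p / 4 + 1), (uu n : ℂ) * (fD τ ^ n * fP τ ^ (p - 1 - 4 * n))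

lemma Kf_pr (hCLO : S_CLO) (hPRE : S_PRE) (hBAS : S_BAS) {p δ : ℕ} (hp : p = 2 * δ + 1) :
    Pr (2 * δ) (Kf p) (Kf p) := by
  refine prsum hCLO _ (fun n τ => (uu n : ℂ) * (fD τ ^ n * fP τ ^ (p - 1 - 4 * n)))
    (fun n τ => (uu n : ℂ) * (fD τ ^ n * fP τ ^ (p - 1 - 4 * n))) (p / 4) ?_
  intro n hn
  refine hCLO.2.2.1 _ _ _ _ ?_
  obtain ⟨j, hj⟩ : ∃ j, p - 1 - 4 * n = 2 * j := ⟨δ - 2 * n, by omega⟩
  have h1 := hCLO.2.2.2.2.1 _ _ _ n hPRE.2.2.1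
  have h2 := hCLO.2.2.2.2.1 _ _ _ (2 * j) hBAS.2.1
  have h3 := hCLO.1 _ _ _ _ _ _ h1 h2
  have h4 : (n : ℤ) * 4 + ((2 * j : ℕ) : ℤ) * 1 = 2 * δ := by
    have : 4 * n + 2 * j = 2 * δ := by omega
    push_cast
    have h5 : ((4 * n + 2 * j : ℕ) : ℤ) = ((2 * δ : ℕ) : ℤ) := by rw [this]
    push_cast at h5
    linarith
  rw [h4] at h3
  rw [hj]
  convert h3 using 2
  rw [pow_mul (-fP _), neg_sq, ← pow_mul]

lemma Kf_q (hLUC : S_LUC) (hEXP : S_EXP) {p : ℕ} (hp : p.Prime) (hp2 : p ≠ 2) :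
    ∃ W : PowerSeries ℂ, IsInt W ∧ QExp (Kf p) 0 (1 + PowerSeries.C (p : ℂ) * W) := by
  obtain ⟨W, hW, h1⟩ := hLUC _ hp hp2
  refine ⟨W, hW, ?_⟩
  rw [← h1]
  refine qsum (Finset.range (p / 4 + 1)) (fun n τ => (uu n : ℂ) *
    (fD τ ^ n * fP τ ^ (p - 1 - 4 * n))) 0 _ ?_
  intro n hn
  rw [mul_assoc]
  refine t_QMUL.2.2.2.1 _ _ _ _ ?_
  have h4 : QExp fD 0 (ce * cs) := t_QMUL.1 _ _ _ _ _ _ hEXP.1 hEXP.2.1
  have h5 := t_QMUL.1 _ _ _ _ _ _ (qpow h4 n) (qpow hEXP.2.2.1 (p - 1 - 4 * n))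
  rw [mul_zero, mul_zero] at h5
  exact h5

lemma Kf_val {p δ : ℕ} (hp : p = 2 * δ + 1) {τ : ℍ} {c : ℤ} (h : fP τ ^ 4 = c * fD τ) :
    Kf p τ ^ 2 = (c : ℂ) ^ (((p - 1) / 2) % 2) * fD τ ^ δ * (NN (p / 4) c : ℂ) ^ 2 := by
  obtain ⟨m, r, hr, hδ⟩ : ∃ m r, r < 2 ∧ δ = 2 * m + r := ⟨δ / 2, δ % 2, by omega, by omega⟩
  have hm : p / 4 = m := by omega
  have hr2 : ((p - 1) / 2) % 2 = r := by omega
  rw [hr2, hm]
  have h1 : Kf p τ = fP τ ^ (2 * r) * fD τ ^ m * (NN m c : ℂ) := by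
    unfold Kf NN
    rw [hm, Int.cast_sum, Finset.mul_sum]
    refine Finset.sum_congr rfl fun n hn => ?_
    rw [Finset.mem_range] at hn
    obtain ⟨j, rfl⟩ : ∃ j, m = n + j := ⟨m - n, by omega⟩
    have h2 : n + j - n = j := by omega
    have h0 : p - 1 - 4 * n = 4 * j + 2 * r := by omega
    rw [h2, h0]
    have h3 : fP τ ^ (4 * j + 2 * r) = (c * fD τ) ^ j * fP τ ^ (2 * r) := by
      rw [← h]
      ring
    rw [h3]
    push_cast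
    ring
  rw [h1]
  have h4 : (fP τ ^ (2 * r) * fD τ ^ m * (NN m c : ℂ)) ^ 2 =
      (fP τ ^ 4) ^ r * fD τ ^ (2 * m) * (NN m c : ℂ) ^ 2 := by
    ring
  rw [h4, h, hδ]
  ring

/-- the values of powers -/
lemma val_pow' (κ : ℤ) (g : ℍ → ℂ) (A : Matrix (Fin 2) (Fin 2) ℤ) (τ : ℍ) (j : ℕ) :
    val (2 * ((j : ℤ) * κ)) (fun z => g z ^ j) A τ = val (2 * κ) g A τ ^ j := by
  unfold val
  rw [mul_pow, ← zpow_natCast ((((A 1 0 : ℤ) : ℂ) * τ + ((A 1 1 : ℤ) : ℂ)) ^ (-(2 * κ))) j,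
    ← _root_.zpow_mul]
  congr 2
  ring

/-- the power sums of the `L val Q - L Q` -/
noncomputable def Fm (m : ℕ) (κ : ℤ) (ℓ : ℕ) (L : ℂ) (Q : ℍ → ℂ) (τ : ℍ) : ℂ :=
  ∑ j ∈ Finset.range (m + 1), (m.choose j : ℂ) * ((-L * Q τ) ^ (m - j) *
    (L ^ j * hsum (2 * ((j : ℤ) * κ)) ℓ (fun z => Q z ^ j) τ))

lemma Fm_eq (m : ℕ) (κ : ℤ) (ℓ : ℕ) (L : ℂ) (Q : ℍ → ℂ) (τ : ℍ) :
    Fm m κ ℓ L Q τ = ∑ t ∈ reps ℓ, (L * val (2 * κ) Q (mat t) τ - L * Q τ) ^ m := by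
  have h1 : ∀ t ∈ reps ℓ, (L * val (2 * κ) Q (mat t) τ - L * Q τ) ^ m =
      ∑ j ∈ Finset.range (m + 1), (m.choose j : ℂ) * ((-L * Q τ) ^ (m - j) *
        (L ^ j * val (2 * ((j : ℤ) * κ)) (fun z => Q z ^ j) (mat t) τ)) := by
    intro t _
    have h2 : L * val (2 * κ) Q (mat t) τ - L * Q τ = L * val (2 * κ) Q (mat t) τ + -L * Q τ := by
      ring
    rw [h2, add_pow]
    refine Finset.sum_congr rfl fun j _ => ?_
    rw [val_pow', mul_pow]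
    ring
  rw [Finset.sum_congr rfl h1, Finset.sum_comm, Fm]
  refine Finset.sum_congr rfl fun j _ => ?_
  rw [← Finset.mul_sum, ← Finset.mul_sum, ← Finset.mul_sum]
  rfl

lemma Fm_pr (hCLO : S_CLO) (hHK : S_HK2) (m : ℕ) (κ : ℤ) {ℓ : ℕ} (hℓ : 0 < ℓ) (hodd : Odd ℓ)
    (L : ℂ) {Q : ℍ → ℂ} (hQ : Pr κ Q Q) :
    Pr ((m : ℤ) * κ) (Fm m κ ℓ L Q) (Fm m κ ℓ L Q) := by
  refine prsum hCLO _ (fun j τ => (m.choose j : ℂ) * ((-L * Q τ) ^ (m - j) *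
    (L ^ j * hsum (2 * ((j : ℤ) * κ)) ℓ (fun z => Q z ^ j) τ)))
    (fun j τ => (m.choose j : ℂ) * ((-L * Q τ) ^ (m - j) *
    (L ^ j * hsum (2 * ((j : ℤ) * κ)) ℓ (fun z => Q z ^ j) τ))) m ?_
  intro j hj
  refine hCLO.2.2.1 _ _ _ _ ?_
  have h1 := hCLO.2.2.2.2.1 _ _ _ (m - j) (hCLO.2.2.1 _ _ _ (-L) hQ)
  have h2 := hHK _ _ _ ℓ hℓ hodd (hCLO.2.2.2.2.1 _ _ _ j hQ)
  have h3 := hCLO.1 _ _ _ _ _ _ h1 (hCLO.2.2.1 _ _ _ (L ^ j) h2)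
  have h4 : ((m - j : ℕ) : ℤ) * κ + (j : ℤ) * κ = (m : ℤ) * κ := by
    push_cast [Nat.cast_sub hj]
    ring
  rw [h4] at h3
  exact h3

lemma Fm_q {ℓ : ℕ} (hℓ : ℓ.Prime) (m : ℕ) (N : ℕ) {κ : ℤ} (hκ : 2 * κ = N) {L : ℂ}
    (hL : L = (ℓ : ℂ) ^ N) {Q : ℍ → ℂ} {q w : PowerSeries ℂ} (hQ : QExp Q 0 q) {pc z0 : ℂ}
    (hq : q = 1 + PowerSeries.C pc * w) (hz : 1 - L = pc * z0) :
    QExp (Fm m κ ℓ L Q) 0 (PowerSeries.C (pc ^ m) * ((PowerSeries.C L * (vps ℓ w - w)) ^ m +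
      PowerSeries.C (ℓ : ℂ) * ups ℓ ((PowerSeries.C z0 + w - PowerSeries.C L * vps ℓ w) ^ m))) := by
  have hℓ0 : (ℓ : ℂ) ≠ 0 := by exact_mod_cast hℓ.ne_zero
  rw [← series_key hℓ.pos m q w pc L z0 hq hz]
  refine qsum (Finset.range (m + 1)) (fun j τ => (m.choose j : ℂ) * ((-L * Q τ) ^ (m - j) *
    (L ^ j * hsum (2 * ((j : ℤ) * κ)) ℓ (fun z => Q z ^ j) τ))) 0 _ ?_
  intro j _
  refine t_QMUL.2.2.2.1 _ _ _ _ ?_
  have h1 := qpow (t_QMUL.2.2.2.1 _ _ _ (-L) hQ) (m - j)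
  rw [mul_zero] at h1
  have h0 := qpow hQ j
  rw [mul_zero] at h0
  have h2 := t_QMUL.2.2.2.1 _ _ _ (L ^ j) (hq_prime0 hℓ (2 * ((j : ℤ) * κ)) _ _ h0)
  have h3 := t_QMUL.1 _ _ _ _ _ _ h1 h2
  rw [add_zero] at h3
  refine INTLP.qx_cast h3 rfl ?_
  congr 1
  have h4 : L ^ j * (ℓ : ℂ) ^ (1 - 2 * ((j : ℤ) * κ)) = ℓ := by
    have h5 : (1 : ℤ) - 2 * ((j : ℤ) * κ) = 1 - ((N * j : ℕ) : ℤ) := by
      push_cast
      rw [← hκ]
      ring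
    rw [h5, hL, ← pow_mul, zpow_sub₀ hℓ0, zpow_one, zpow_natCast]
    field_simp
  rw [mul_add, ← mul_assoc (PowerSeries.C (L ^ j)) (PowerSeries.C ((ℓ : ℂ) ^ _)), ← map_mul, h4]
  rfl

lemma int_h {c : ℤ} {h : ℂ} (hc : (h + 64) ^ 2 = c * h) (h0 : h ≠ 0) :
    IsIntegral ℤ h ∧ IsIntegral ℤ (4096 / h) := by
  have key : ∀ x : ℂ, x ^ 2 + (128 - c) * x + 4096 = 0 → IsIntegral ℤ x := by
    intro x hx
    refine ⟨Polynomial.X ^ 2 + Polynomial.C (128 - c) * Polynomial.X + Polynomial.C 4096, ?_, ?_⟩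
    · monicity!
    · simp only [Polynomial.eval₂_add, Polynomial.eval₂_mul, Polynomial.eval₂_pow,
        Polynomial.eval₂_X, Polynomial.eval₂_C]
      simp
      linear_combination hx
  refine ⟨key _ (by linear_combination hc), key _ ?_⟩
  field_simp
  linear_combination 4096 * hc

end INLP

open INLP in
/-- **Piece INL.** -/
theorem t_INL (hLUC : S_LUC) (hHK : S_HK2) (hV : S_VR2) (hPR2 : S_PR2) (hPS : S_PSM)
    (hPRE : S_PRE) (hEXP : S_EXP) (hCLO : S_CLO) (hBAS : S_BAS) (hREL : S_REL) : S_INL := by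
  intro p ℓ τ c M l l' hp hp2 hℓ hℓp hℓ2 hy hdet hM hll e1 e2
  obtain ⟨δ, hδ⟩ : ∃ δ, p = 2 * δ + 1 := hp.odd_of_ne_two hp2
  have hp0 : (p : ℂ) ≠ 0 := by exact_mod_cast hp.ne_zero
  have hℓ0 : (ℓ : ℂ) ≠ 0 := by exact_mod_cast hℓ.ne_zero
  have hodd : Odd ℓ := hℓ.odd_of_ne_two hℓ2
  have he := hREL.2.2.2.2.2.2.2.1
  have hs := hREL.2.2.2.2.2.2.2.2
  have hD0 : ∀ τ, fD τ ≠ 0 := fun τ => mul_ne_zero (he τ) (hs τ)
  -- the numbers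
  obtain ⟨L, hL⟩ : ∃ L : ℂ, L = (ℓ : ℂ) ^ (4 * (p - 1)) := ⟨_, rfl⟩
  obtain ⟨z0, hz0⟩ : ∃ z : ℤ, (1 : ℂ) - L = p * z := by
    have h1 : (p : ℤ) ∣ 1 - (ℓ : ℤ) ^ (4 * (p - 1)) := by
      have h2 : (ℓ : ℤ) ^ (p - 1) ≡ 1 [ZMOD (p : ℤ)] := by
        refine Int.ModEq.pow_card_sub_one_eq_one hp ?_
        rw [Int.isCoprime_iff_gcd_eq_one]
        have h3 : Nat.Coprime ℓ p := by
          rw [Nat.coprime_primes hℓ hp]
          exact hℓp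
        exact_mod_cast h3
      have h3 : (ℓ : ℤ) ^ (4 * (p - 1)) ≡ 1 [ZMOD (p : ℤ)] := by
        rw [mul_comm, pow_mul]
        simpa using h2.pow 4
      exact h3.dvd
    obtain ⟨z, hz⟩ := h1
    refine ⟨z, ?_⟩
    rw [hL]
    have := congrArg (Int.cast : ℤ → ℂ) hz
    push_cast at this ⊢
    exact this
  -- the form Q
  obtain ⟨W, hW, hK⟩ := Kf_q hLUC hEXP hp hp2
  have hKp := Kf_pr hCLO hPRE hBAS hδ
  obtain ⟨Q, hQ⟩ : ∃ Q : ℍ → ℂ, Q = fun τ => Kf p τ ^ 2 := ⟨_, rfl⟩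
  have hQq := qpow hK 2
  rw [mul_zero] at hQq
  have hQp := hCLO.2.2.2.2.1 _ _ _ 2 hKp
  rw [← hQ] at hQq hQp
  obtain ⟨κ, hκ⟩ : ∃ κ : ℤ, κ = ((2 : ℕ) : ℤ) * (2 * δ) := ⟨_, rfl⟩
  rw [← hκ] at hQp
  have hκN : 2 * κ = ((4 * (p - 1) : ℕ) : ℤ) := by
    have h1 : p - 1 = 2 * δ := by omega
    rw [hκ, h1]
    push_cast
    ring
  obtain ⟨w, hw⟩ : ∃ w : PowerSeries ℂ, w = 2 * W + PowerSeries.C (p : ℂ) * W ^ 2 := ⟨_, rfl⟩
  have hpi : PowerSeries.C (p : ℂ) ∈ intR := by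
    have := isInt_C (p : ℤ)
    rwa [Int.cast_natCast] at this
  have hℓi : PowerSeries.C (ℓ : ℂ) ∈ intR := by
    have := isInt_C (ℓ : ℤ)
    rwa [Int.cast_natCast] at this
  have hLi : PowerSeries.C L ∈ intR := by
    rw [hL, map_pow]
    exact pow_mem hℓi _
  have hwi : w ∈ intR := by
    rw [hw]
    exact add_mem (mul_mem (ofNat_mem intR 2) (isInt_iff.1 hW))
      (mul_mem hpi (pow_mem (isInt_iff.1 hW) 2))
  have hqw : (1 + PowerSeries.C (p : ℂ) * W) ^ 2 = 1 + PowerSeries.C (p : ℂ) * w := by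
    rw [hw]
    ring
  -- the inverse of Δ₈
  obtain ⟨c1, hc1, hc1i, -, -⟩ := hPRE.2.2.2.2.2.1
  obtain ⟨c2, hc2, hc2i, -, -⟩ := hPRE.2.2.2.2.2.2.1
  have hDq : QExp (fun τ => (fD τ)⁻¹) 1 (c1 * c2) := by
    have h1 := t_QMUL.1 _ _ _ _ _ _ hc1 hc2
    have h2 : (fun τ => (fe τ)⁻¹ * (fs τ)⁻¹) = fun τ => (fD τ)⁻¹ := by
      funext τ
      rw [fD, mul_inv]
    rwa [h2] at h1
  have hDp : Pr (-4) (fun τ => (fD τ)⁻¹) (fun τ => (fD τ)⁻¹) :=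
    hCLO.2.2.2.2.2.1 _ _ _ hPRE.2.2.1 hD0 hD0
  -- the power sums
  have key : ∀ m : ℕ, 1 ≤ m → ∃ Q₁ Q₂ : Polynomial ℤ,
      ∑ t ∈ reps ℓ, ((L * val (2 * κ) Q (mat t) τ - L * Q τ) / (p * fD τ ^ δ)) ^ m =
        Polynomial.aeval (fh τ) Q₁ + Polynomial.aeval (4096 / fh τ) Q₂ := by
    intro m _
    have h1 := Fm_q hℓ m (4 * (p - 1)) hκN hL hQq hqw hz0
    obtain ⟨R, hR⟩ : ∃ R : PowerSeries ℂ, R = (PowerSeries.C L * (vps ℓ w - w)) ^ m +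
      PowerSeries.C (ℓ : ℂ) * ups ℓ ((PowerSeries.C (z0 : ℂ) + w -
        PowerSeries.C L * vps ℓ w) ^ m) := ⟨_, rfl⟩
    have hRi : R ∈ intR := by
      rw [hR]
      refine add_mem (pow_mem (mul_mem hLi (sub_mem (int_vps hwi) hwi)) m) (mul_mem hℓi
        (int_ups (pow_mem (sub_mem (add_mem (isInt_C z0) hwi) (mul_mem hLi (int_vps hwi))) m)))
    rw [← hR] at h1
    have h2 := t_QMUL.2.2.2.1 _ _ _ (((p : ℂ) ^ m)⁻¹) h1
    rw [← mul_assoc, ← map_mul, inv_mul_cancel₀ (pow_ne_zero m hp0), map_one, one_mul] at h2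
    have h3 := t_QMUL.1 _ _ _ _ _ _ h2 (qpow hDq (m * δ))
    have h4 := hCLO.1 _ _ _ _ _ _ (hCLO.2.2.1 _ _ _ (((p : ℂ) ^ m)⁻¹)
      (Fm_pr hCLO hHK m κ hℓ.pos hodd L hQp)) (hCLO.2.2.2.2.1 _ _ _ (m * δ) hDp)
    have h5 : (m : ℤ) * κ + ((m * δ : ℕ) : ℤ) * -4 = 0 := by
      rw [hκ]
      push_cast
      ring
    rw [h5] at h4
    have hint : IsInt (R * (c1 * c2) ^ (m * δ)) :=
      isInt_iff.2 (mul_mem hRi (pow_mem (mul_mem (isInt_iff.1 hc1i) (isInt_iff.1 hc2i)) _))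
    obtain ⟨Q₁, Q₂, hQQ⟩ := hPR2 _ _ _ _ _ _ h4 h3 h3 (fun i _ => hint i) (fun i _ => hint i)
    refine ⟨Q₁, Q₂, ?_⟩
    rw [← hQQ τ, Fm_eq, Finset.mul_sum, Finset.sum_mul]
    refine Finset.sum_congr rfl fun t _ => ?_
    have hDτ := hD0 τ
    rw [div_pow, mul_pow, ← pow_mul, inv_pow, mul_comm δ m, div_eq_mul_inv, mul_inv]
    ring
  -- integrality of `h`
  have heτ := he τ
  have hsτ := hs τ
  have hP := hREL.1 τ
  obtain ⟨h, hh⟩ : ∃ h, h = fh τ := ⟨_, rfl⟩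
  have hse : fs τ = h * fe τ := by
    rw [hh, fh]
    field_simp
  have h0 : h ≠ 0 := by
    intro h1
    rw [h1, zero_mul] at hse
    exact hsτ hse
  have hP2 : fP τ ^ 2 = fe τ * (h + 64) := by rw [hP, hse]; ring
  have hc : (h + 64) ^ 2 = c * h := by
    have h1 : fe τ ^ 2 * ((h + 64) ^ 2 - c * h) = 0 := by
      have : fP τ ^ 4 = (fP τ ^ 2) ^ 2 := by ring
      have hy' := hy
      rw [this, hP2, hse] at hy'
      linear_combination hy'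
    rcases mul_eq_zero.1 h1 with h2 | h2
    · exact absurd h2 (pow_ne_zero _ heτ)
    · linear_combination h2
  obtain ⟨i1, i2⟩ := int_h hc h0
  rw [hh] at i1 i2
  -- the sublattice of the endomorphism
  obtain ⟨t, ht, hval⟩ := hV.2.2.1 ℓ hℓ.pos hodd M τ l hdet hM e1 e2
  have hint := hPS (reps ℓ) (fun t => (L * val (2 * κ) Q (mat t) τ - L * Q τ) / (p * fD τ ^ δ))
    _ _ i1 i2 key t ht
  refine ⟨_, hint, ?_⟩
  have hl0 : l ≠ 0 := by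
    intro h1
    rw [h1, zero_mul] at hll
    exact hℓ0 hll.symm
  have hD := hD0 τ
  have hQτ : Q τ = (c : ℂ) ^ (((p - 1) / 2) % 2) * fD τ ^ δ * (NN (p / 4) c : ℂ) ^ 2 := by
    rw [hQ]
    exact Kf_val hδ hy
  have hvt : L * val (2 * κ) Q (mat t) τ = l' ^ (4 * (p - 1)) * Q τ := by
    rw [hval _ _ _ hQp, hκN, _root_.zpow_neg, zpow_natCast, hL, ← hll, mul_pow]
    have : l ^ (4 * (p - 1)) ≠ 0 := pow_ne_zero _ hl0
    field_simp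
  rw [hvt, hL, hQτ]
  have hDδ : fD τ ^ δ ≠ 0 := pow_ne_zero _ hD
  field_simp

end Pool.Agent.HS37.CV
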