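import Pool.Agent.HS37.CV.Stm

/-!
# Project CV, piece NUMK: the numerical value of `y(τ_K)`
-/

set_option autoImplicit false

open UpperHalfPlane ModularForm ModularFormClass MatrixGroups EisensteinSeries Complex
open Pool.Agent.HS37.SP Pool.Agent.HS37.CQ

namespace Pool.Agent.HS37.CV

namespace NumK

theorem bern4 : bernoulli 4 = -1 / 30 := by
  rw [bernoulli_eq_bernoulli'_of_ne_one (by decide : 4 ≠ 1), bernoulli'_four]

theorem eis4 (n : ℕ) (hn : n ≠ 0) :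
    PowerSeries.coeff n (eis 4) = 240 * (ArithmeticFunction.sigma 3 n : ℂ) := by
  unfold eis
  rw [PowerSeries.coeff_mk, if_neg hn, bern4]
  push_cast
  ring

theorem eis2 (n : ℕ) (hn : n ≠ 0) :
    PowerSeries.coeff n (eis 2) = -24 * (ArithmeticFunction.sigma 1 n : ℂ) := by
  unfold eis
  rw [PowerSeries.coeff_mk, if_neg hn, bernoulli_two]
  push_cast
  ring

theorem eis4_zero : PowerSeries.coeff 0 (eis 4) = 1 := by
  unfold eis
  rw [PowerSeries.coeff_mk, if_pos rfl]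

theorem eis2_zero : PowerSeries.coeff 0 (eis 2) = 1 := by
  unfold eis
  rw [PowerSeries.coeff_mk, if_pos rfl]

/-- the coefficients of `e` -/
theorem cce (n : ℕ) : PowerSeries.coeff n ce =
    1 / 240 * (PowerSeries.coeff n (eis 4) -
      (if 2 ∣ n then PowerSeries.coeff (n / 2) (eis 4) else 0)) := by
  unfold ce vps
  rw [PowerSeries.coeff_C_mul, map_sub, PowerSeries.coeff_mk]

theorem ccs (n : ℕ) : PowerSeries.coeff n cs =
    1 / 15 * (16 * (if 2 ∣ n then PowerSeries.coeff (n / 2) (eis 4) else 0) -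
      PowerSeries.coeff n (eis 4)) := by
  unfold cs vps
  have h16 : (16 : PowerSeries ℂ) = PowerSeries.C (16 : ℂ) := by
    rw [map_ofNat]
  rw [PowerSeries.coeff_C_mul, map_sub, h16, PowerSeries.coeff_C_mul, PowerSeries.coeff_mk]

theorem ccP (n : ℕ) : PowerSeries.coeff n cP =
    2 * (if 2 ∣ n then PowerSeries.coeff (n / 2) (eis 2) else 0) -
      PowerSeries.coeff n (eis 2) := by
  unfold cP vps
  have h2 : (2 : PowerSeries ℂ) = PowerSeries.C (2 : ℂ) := by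
    rw [map_ofNat]
  rw [map_sub, h2, PowerSeries.coeff_C_mul, PowerSeries.coeff_mk]

theorem pow_bd (n k : ℕ) : (n : ℝ) ^ k ≤ ((2 : ℝ) ^ k) ^ n := by
  have h : (n : ℝ) ≤ 2 ^ n := by exact_mod_cast (Nat.lt_two_pow_self (n := n)).le
  calc (n : ℝ) ^ k ≤ (2 ^ n) ^ k := pow_le_pow_left₀ (Nat.cast_nonneg n) h k
    _ = ((2 : ℝ) ^ k) ^ n := by rw [← pow_mul, ← pow_mul, mul_comm]

theorem sig_bd (k n : ℕ) : ‖(ArithmeticFunction.sigma k n : ℂ)‖ ≤ ((2 : ℝ) ^ (k + 1)) ^ n := by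
  rw [Complex.norm_natCast]
  have h := ArithmeticFunction.sigma_le_pow_succ k n
  have h' : ((ArithmeticFunction.sigma k n : ℕ) : ℝ) ≤ (n : ℝ) ^ (k + 1) := by exact_mod_cast h
  exact h'.trans (pow_bd n (k + 1))

theorem eis4_bd (n : ℕ) : ‖PowerSeries.coeff n (eis 4)‖ ≤ 240 * (16 : ℝ) ^ n := by
  rcases Nat.eq_zero_or_pos n with rfl | hn
  · rw [eis4_zero]; norm_num
  · rw [eis4 n hn.ne', norm_mul]
    have h := sig_bd 3 n
    have h240 : ‖(240 : ℂ)‖ = 240 := by norm_num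
    rw [h240]
    norm_num at h ⊢
    linarith

theorem eis2_bd (n : ℕ) : ‖PowerSeries.coeff n (eis 2)‖ ≤ 24 * (4 : ℝ) ^ n := by
  rcases Nat.eq_zero_or_pos n with rfl | hn
  · rw [eis2_zero]; norm_num
  · rw [eis2 n hn.ne', norm_mul]
    have h := sig_bd 1 n
    have h24 : ‖(-24 : ℂ)‖ = 24 := by norm_num
    rw [h24]
    norm_num at h ⊢
    linarith

theorem half_bd (c : ℕ → ℂ) (M x : ℝ) (hM : 0 ≤ M) (hx : 1 ≤ x) (hc : ∀ n, ‖c n‖ ≤ M * x ^ n)
    (n : ℕ) : ‖(if 2 ∣ n then c (n / 2) else 0 : ℂ)‖ ≤ M * x ^ n := by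
  split_ifs with h
  · refine (hc _).trans (mul_le_mul_of_nonneg_left ?_ hM)
    exact pow_le_pow_right₀ hx (Nat.div_le_self n 2)
  · rw [norm_zero]; positivity

theorem ce_bd (n : ℕ) : ‖PowerSeries.coeff n ce‖ ≤ 2 * (16 : ℝ) ^ n := by
  rw [cce, norm_mul]
  have h1 := eis4_bd n
  have h2 := half_bd (fun n => PowerSeries.coeff n (eis 4)) 240 16 (by norm_num) (by norm_num)
    eis4_bd n
  have h3 := norm_sub_le (PowerSeries.coeff n (eis 4))
    (if 2 ∣ n then PowerSeries.coeff (n / 2) (eis 4) else 0)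
  have h4 : ‖(1 / 240 : ℂ)‖ = 1 / 240 := by norm_num
  rw [h4]
  linarith

theorem cs_bd (n : ℕ) : ‖PowerSeries.coeff n cs‖ ≤ 272 * (16 : ℝ) ^ n := by
  rw [ccs, norm_mul]
  have h1 := eis4_bd n
  have h2 := half_bd (fun n => PowerSeries.coeff n (eis 4)) 240 16 (by norm_num) (by norm_num)
    eis4_bd n
  have h3 := norm_sub_le (16 * (if 2 ∣ n then PowerSeries.coeff (n / 2) (eis 4) else 0))
    (PowerSeries.coeff n (eis 4))
  have h5 : ‖16 * (if 2 ∣ n then PowerSeries.coeff (n / 2) (eis 4) else 0 : ℂ)‖ =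
      16 * ‖(if 2 ∣ n then PowerSeries.coeff (n / 2) (eis 4) else 0 : ℂ)‖ := by
    rw [norm_mul]; norm_num
  have h4 : ‖(1 / 15 : ℂ)‖ = 1 / 15 := by norm_num
  rw [h4]
  linarith

theorem cP_bd (n : ℕ) : ‖PowerSeries.coeff n cP‖ ≤ 72 * (4 : ℝ) ^ n := by
  rw [ccP]
  have h1 := eis2_bd n
  have h2 := half_bd (fun n => PowerSeries.coeff n (eis 2)) 24 4 (by norm_num) (by norm_num)
    eis2_bd n
  have h3 := norm_sub_le (2 * (if 2 ∣ n then PowerSeries.coeff (n / 2) (eis 2) else 0))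
    (PowerSeries.coeff n (eis 2))
  have h5 : ‖2 * (if 2 ∣ n then PowerSeries.coeff (n / 2) (eis 2) else 0 : ℂ)‖ =
      2 * ‖(if 2 ∣ n then PowerSeries.coeff (n / 2) (eis 2) else 0 : ℂ)‖ := by
    rw [norm_mul]; norm_num
  linarith

/-- bound of a tail -/
theorem tail (c : ℕ → ℂ) (q F : ℂ) (N : ℕ) (M x : ℝ) (hM : 0 ≤ M) (hx0 : 0 ≤ x) (hx : x ≤ 1 / 2)
    (h : HasSum (fun i => c i * q ^ i) F) (hb : ∀ i, ‖c i * q ^ i‖ ≤ M * x ^ i) :
    ‖F - ∑ i ∈ Finset.range N, c i * q ^ i‖ ≤ 2 * M * x ^ N := by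
  have h1 : HasSum (fun i => c (i + N) * q ^ (i + N)) (F - ∑ i ∈ Finset.range N, c i * q ^ i) :=
    (hasSum_nat_add_iff' N).2 h
  have h2 : HasSum (fun i : ℕ => (M * x ^ N) * x ^ i) ((M * x ^ N) * (1 - x)⁻¹) :=
    (hasSum_geometric_of_lt_one hx0 (by linarith)).mul_left _
  have h3 : ∀ i, ‖c (i + N) * q ^ (i + N)‖ ≤ (M * x ^ N) * x ^ i := by
    intro i
    refine (hb (i + N)).trans (le_of_eq ?_)
    rw [pow_add]; ring
  refine (h1.norm_le_of_bounded h2 h3).trans ?_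
  have h4 : (1 - x)⁻¹ ≤ 2 := by
    rw [inv_le_comm₀ (by linarith) (by norm_num)]
    linarith
  have h5 : 0 ≤ M * x ^ N := by positivity
  nlinarith

theorem sig3_2 : ArithmeticFunction.sigma 3 2 = 9 := by decide

theorem ce0 : PowerSeries.coeff 0 ce = 0 := by
  rw [cce, eis4_zero]; norm_num [eis4_zero]

theorem ce1 : PowerSeries.coeff 1 ce = 1 := by
  rw [cce, eis4 1 (by norm_num)]; norm_num

theorem ce2 : PowerSeries.coeff 2 ce = 8 := by
  rw [cce, eis4 2 (by norm_num), sig3_2]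
  have : PowerSeries.coeff (2 / 2) (eis 4) = 240 := by
    norm_num
    rw [eis4 1 (by norm_num)]; norm_num
  rw [if_pos (dvd_refl 2), this]
  norm_num

theorem cs0 : PowerSeries.coeff 0 cs = 1 := by
  rw [ccs, eis4_zero]; norm_num [eis4_zero]

theorem cs1 : PowerSeries.coeff 1 cs = -16 := by
  rw [ccs, eis4 1 (by norm_num)]; norm_num

theorem cP0 : PowerSeries.coeff 0 cP = 1 := by
  rw [ccP, eis2_zero]; norm_num [eis2_zero]

theorem cP1 : PowerSeries.coeff 1 cP = 24 := by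
  rw [ccP, eis2 1 (by norm_num)]; norm_num

theorem coef_bd (c : ℂ) (q : ℂ) (M x r : ℝ) (i : ℕ) (hc : ‖c‖ ≤ M * x ^ i) (hq : ‖q‖ = r) :
    ‖c * q ^ i‖ ≤ M * (x * r) ^ i := by
  rw [norm_mul, norm_pow, hq, mul_pow, ← mul_assoc]
  exact mul_le_mul_of_nonneg_right hc (by rw [← hq]; positivity)

/-- algebra: the main estimate -/
theorem main_bd (q P e s : ℂ) (r : ℝ) (hr0 : 0 < r) (hr : r ≤ 6 / 10 ^ 9) (hq : ‖q‖ = r)
    (hP : ‖P - (1 + 24 * q)‖ ≤ 2304 * r ^ 2) (he : ‖e - (q + 8 * q ^ 2)‖ ≤ 16384 * r ^ 3)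
    (hs : ‖s - (1 - 16 * q)‖ ≤ 139264 * r ^ 2) :
    ‖P ^ 4 / (e * s) - q⁻¹ - 104‖ < 1 / 4 := by
  have hq0 : q ≠ 0 := by
    intro h; rw [h, norm_zero] at hq; linarith
  obtain ⟨R1, hR1⟩ : ∃ R, R = P - (1 + 24 * q) := ⟨_, rfl⟩
  obtain ⟨R2, hR2⟩ : ∃ R, R = (e - (q + 8 * q ^ 2)) / q := ⟨_, rfl⟩
  obtain ⟨R3, hR3⟩ : ∃ R, R = s - (1 - 16 * q) := ⟨_, rfl⟩
  rw [← hR1] at hP
  rw [← hR3] at hs
  have he' : ‖R2‖ ≤ 16384 * r ^ 2 := by
    rw [hR2, norm_div, hq, div_le_iff₀ hr0]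
    calc ‖e - (q + 8 * q ^ 2)‖ ≤ 16384 * r ^ 3 := he
      _ = 16384 * r ^ 2 * r := by ring
  obtain ⟨u, hu⟩ : ∃ u, u = 24 * q + R1 := ⟨_, rfl⟩
  obtain ⟨v, hv⟩ : ∃ v, v = 8 * q + R2 := ⟨_, rfl⟩
  obtain ⟨w, hw⟩ : ∃ w, w = -16 * q + R3 := ⟨_, rfl⟩
  have hPu : P = 1 + u := by rw [hu, hR1]; ring
  have hev : e = q * (1 + v) := by
    rw [hv, hR2]; field_simp; ring
  have hsw : s = 1 + w := by rw [hw, hR3]; ring
  have hr2 : r ^ 2 ≤ r * (6 / 10 ^ 9) := by nlinarith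
  have nu : ‖u‖ ≤ 25 * r := by
    rw [hu]
    refine (norm_add_le _ _).trans ?_
    rw [norm_mul, hq]
    have : ‖(24 : ℂ)‖ = 24 := by norm_num
    rw [this]
    nlinarith
  have nv : ‖v‖ ≤ 9 * r := by
    rw [hv]
    refine (norm_add_le _ _).trans ?_
    rw [norm_mul, hq]
    have : ‖(8 : ℂ)‖ = 8 := by norm_num
    rw [this]
    nlinarith
  have nw : ‖w‖ ≤ 17 * r := by
    rw [hw]
    refine (norm_add_le _ _).trans ?_
    rw [norm_mul, hq]
    have : ‖(-16 : ℂ)‖ = 16 := by norm_num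
    rw [this]
    nlinarith
  have hv1 : 1 / 2 ≤ ‖1 + v‖ * ‖1 + w‖ := by
    have h1 : 1 - 9 * r ≤ ‖1 + v‖ := by
      have := norm_sub_norm_le (1 : ℂ) (-v)
      rw [norm_neg, norm_one, sub_neg_eq_add] at this
      linarith
    have h2 : 1 - 17 * r ≤ ‖1 + w‖ := by
      have := norm_sub_norm_le (1 : ℂ) (-w)
      rw [norm_neg, norm_one, sub_neg_eq_add] at this
      linarith
    have h3 : (3 / 4 : ℝ) ≤ 1 - 9 * r := by linarith
    have h4 : (3 / 4 : ℝ) ≤ 1 - 17 * r := by linarith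
    nlinarith
  have hv0 : 1 + v ≠ 0 := by
    intro h; rw [h, norm_zero, zero_mul] at hv1; linarith
  have hw0 : 1 + w ≠ 0 := by
    intro h; rw [h, norm_zero, mul_zero] at hv1; linarith
  have key : P ^ 4 / (e * s) - q⁻¹ - 104 =
      (4 * R1 + 6 * u ^ 2 + 4 * u ^ 3 + u ^ 4 - R2 - R3 - 104 * (q * v) - 104 * (q * w) - v * w -
        104 * (q * (v * w))) / (q * ((1 + v) * (1 + w))) := by
    rw [eq_div_iff (mul_ne_zero hq0 (mul_ne_zero hv0 hw0)), hPu, hev, hsw]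
    have h1 : (1 + u) ^ 4 / (q * (1 + v) * (1 + w)) * (q * ((1 + v) * (1 + w))) = (1 + u) ^ 4 := by
      field_simp
    have h2 : q⁻¹ * (q * ((1 + v) * (1 + w))) = (1 + v) * (1 + w) := by
      field_simp
    have h3 : R1 = u - 24 * q := by rw [hu]; ring
    have h4 : R2 = v - 8 * q := by rw [hv]; ring
    have h5 : R3 = w + 16 * q := by rw [hw]; ring
    calc ((1 + u) ^ 4 / (q * (1 + v) * (1 + w)) - q⁻¹ - 104) * (q * ((1 + v) * (1 + w)))
        = (1 + u) ^ 4 / (q * (1 + v) * (1 + w)) * (q * ((1 + v) * (1 + w))) -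
          q⁻¹ * (q * ((1 + v) * (1 + w))) - 104 * (q * ((1 + v) * (1 + w))) := by ring
      _ = (1 + u) ^ 4 - (1 + v) * (1 + w) - 104 * (q * ((1 + v) * (1 + w))) := by rw [h1, h2]
      _ = _ := by rw [h3, h4, h5]; ring
  rw [key, norm_div, norm_mul, norm_mul, hq, div_lt_iff₀ (by positivity)]
  have nu2 : ‖u‖ ^ 2 ≤ 625 * r ^ 2 := by
    calc ‖u‖ ^ 2 ≤ (25 * r) ^ 2 := pow_le_pow_left₀ (norm_nonneg _) nu 2
      _ = 625 * r ^ 2 := by ring
  have nu1 : ‖u‖ ≤ 1 := by linarith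
  have nu3 : ‖u‖ ^ 3 ≤ 625 * r ^ 2 := by
    calc ‖u‖ ^ 3 = ‖u‖ ^ 2 * ‖u‖ := by ring
      _ ≤ ‖u‖ ^ 2 * 1 := mul_le_mul_of_nonneg_left nu1 (by positivity)
      _ ≤ 625 * r ^ 2 := by linarith
  have nu4 : ‖u‖ ^ 4 ≤ 625 * r ^ 2 := by
    calc ‖u‖ ^ 4 = ‖u‖ ^ 3 * ‖u‖ := by ring
      _ ≤ ‖u‖ ^ 3 * 1 := mul_le_mul_of_nonneg_left nu1 (by positivity)
      _ ≤ 625 * r ^ 2 := by linarith
  have nqv : ‖q‖ * ‖v‖ ≤ 9 * r ^ 2 := by
    rw [hq]
    calc r * ‖v‖ ≤ r * (9 * r) := mul_le_mul_of_nonneg_left nv hr0.le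
      _ = 9 * r ^ 2 := by ring
  have nqw : ‖q‖ * ‖w‖ ≤ 17 * r ^ 2 := by
    rw [hq]
    calc r * ‖w‖ ≤ r * (17 * r) := mul_le_mul_of_nonneg_left nw hr0.le
      _ = 17 * r ^ 2 := by ring
  have nvw : ‖v‖ * ‖w‖ ≤ 153 * r ^ 2 := by
    calc ‖v‖ * ‖w‖ ≤ (9 * r) * (17 * r) :=
          mul_le_mul nv nw (norm_nonneg _) (by positivity)
      _ = 153 * r ^ 2 := by ring
  have nqvw : ‖q‖ * (‖v‖ * ‖w‖) ≤ 153 * r ^ 2 := by
    rw [hq]
    calc r * (‖v‖ * ‖w‖) ≤ 1 * (‖v‖ * ‖w‖) :=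
          mul_le_mul_of_nonneg_right (by linarith) (by positivity)
      _ ≤ 153 * r ^ 2 := by linarith
  have big : ‖4 * R1 + 6 * u ^ 2 + 4 * u ^ 3 + u ^ 4 - R2 - R3 - 104 * (q * v) - 104 * (q * w) -
      v * w - 104 * (q * (v * w))‖ ≤ 4 * ‖R1‖ + 6 * ‖u‖ ^ 2 + 4 * ‖u‖ ^ 3 + ‖u‖ ^ 4 + ‖R2‖ + ‖R3‖ +
        104 * (‖q‖ * ‖v‖) + 104 * (‖q‖ * ‖w‖) + ‖v‖ * ‖w‖ + 104 * (‖q‖ * (‖v‖ * ‖w‖)) := by
    have c4 : ‖(4 : ℂ)‖ = 4 := by norm_num
    have c6 : ‖(6 : ℂ)‖ = 6 := by norm_num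
    have c104 : ‖(104 : ℂ)‖ = 104 := by norm_num
    refine (norm_sub_le _ _).trans ?_
    refine add_le_add ((norm_sub_le _ _).trans ?_) (le_of_eq (by rw [norm_mul, norm_mul, norm_mul, c104]))
    refine add_le_add ((norm_sub_le _ _).trans ?_) (le_of_eq (norm_mul _ _))
    refine add_le_add ((norm_sub_le _ _).trans ?_) (le_of_eq (by rw [norm_mul, norm_mul, c104]))
    refine add_le_add ((norm_sub_le _ _).trans ?_) (le_of_eq (by rw [norm_mul, norm_mul, c104]))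
    refine add_le_add ((norm_sub_le _ _).trans ?_) le_rfl
    refine add_le_add ((norm_add_le _ _).trans ?_) le_rfl
    refine add_le_add ((norm_add_le _ _).trans ?_) (le_of_eq (norm_pow _ _))
    refine add_le_add ((norm_add_le _ _).trans ?_) (le_of_eq (by rw [norm_mul, norm_pow, c4]))
    exact add_le_add (le_of_eq (by rw [norm_mul, c4])) (le_of_eq (by rw [norm_mul, norm_pow, c6]))
  have hr2' : 0 < r ^ 2 := by positivity
  have tot : 4 * ‖R1‖ + 6 * ‖u‖ ^ 2 + 4 * ‖u‖ ^ 3 + ‖u‖ ^ 4 + ‖R2‖ + ‖R3‖ +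
        104 * (‖q‖ * ‖v‖) + 104 * (‖q‖ * ‖w‖) + ‖v‖ * ‖w‖ + 104 * (‖q‖ * (‖v‖ * ‖w‖)) ≤
        1000000 * r ^ 2 := by
    linarith
  calc ‖4 * R1 + 6 * u ^ 2 + 4 * u ^ 3 + u ^ 4 - R2 - R3 - 104 * (q * v) - 104 * (q * w) -
      v * w - 104 * (q * (v * w))‖ ≤ 1000000 * r ^ 2 := big.trans tot
    _ ≤ 1000000 * (r * (6 / 10 ^ 9)) := by linarith
    _ < 1 / 4 * (r * (1 / 2)) := by linarith
    _ ≤ 1 / 4 * (r * (‖1 + v‖ * ‖1 + w‖)) := by
        have := mul_le_mul_of_nonneg_left hv1 hr0.le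
        linarith

/-- `q` at `τ_K` -/
theorem qq_tauK : qq (tauK : ℂ) = -((Real.exp (Real.pi * Real.sqrt 37) : ℝ) : ℂ)⁻¹ := by
  have him : 0 < (((1 + Complex.I * ((Real.sqrt 37 : ℝ) : ℂ)) / 2 : ℂ)).im := by
    have h37 : 0 < Real.sqrt 37 := Real.sqrt_pos.2 (by norm_num)
    have : (((1 + Complex.I * ((Real.sqrt 37 : ℝ) : ℂ)) / 2 : ℂ)).im = Real.sqrt 37 / 2 := by
      simp
    rw [this]; positivity
  have hc : ((tauK : ℍ) : ℂ) = (1 + Complex.I * ((Real.sqrt 37 : ℝ) : ℂ)) / 2 := by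
    unfold tauK
    rw [ofComplex_apply_of_im_pos him]
  unfold qq
  rw [hc]
  have h1 : 2 * (Real.pi : ℂ) * Complex.I * ((1 + Complex.I * ((Real.sqrt 37 : ℝ) : ℂ)) / 2) =
      (Real.pi : ℂ) * Complex.I + (((-(Real.pi * Real.sqrt 37) : ℝ)) : ℂ) := by
    push_cast
    have := Complex.I_mul_I
    linear_combination (Real.pi : ℂ) * ((Real.sqrt 37 : ℝ) : ℂ) * this
  rw [h1, Complex.exp_add, Complex.exp_pi_mul_I, ← Complex.ofReal_exp, Real.exp_neg]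
  push_cast
  ring

theorem sqrt37_gt : (6.0827625302982 : ℝ) < Real.sqrt 37 := by
  rw [Real.lt_sqrt (by norm_num)]
  norm_num

theorem sqrt37_lt : Real.sqrt 37 < (6.0827625302983 : ℝ) := by
  rw [Real.sqrt_lt' (by norm_num)]
  norm_num

theorem exp_lower : (199148647.7 : ℝ) < Real.exp (Real.pi * Real.sqrt 37) := by
  have hs := sqrt37_gt
  have hp := Real.pi_gt_d20
  have h1 : (19 : ℝ) + 0.109562078716 ≤ Real.pi * Real.sqrt 37 := by
    have h := mul_le_mul hp.le hs.le (by norm_num) Real.pi_pos.le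
    refine le_trans ?_ h
    norm_num
  refine lt_of_lt_of_le ?_ (Real.exp_le_exp.2 h1)
  rw [Real.exp_add]
  have h2 : Real.exp 19 = Real.exp 1 ^ 19 := by
    rw [← Real.exp_nat_mul]
    norm_num
  have h3 : (2.7182818283 : ℝ) ^ 19 ≤ Real.exp 1 ^ 19 :=
    pow_le_pow_left₀ (by norm_num) Real.exp_one_gt_d9.le 19
  have h4 : ∑ i ∈ Finset.range 7, (0.109562078716 : ℝ) ^ i / i.factorial ≤
      Real.exp 0.109562078716 := Real.sum_le_exp_of_nonneg (by norm_num) 7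
  have h5 : (1.115789335516 : ℝ) ≤
      ∑ i ∈ Finset.range 7, (0.109562078716 : ℝ) ^ i / i.factorial := by
    simp only [Finset.sum_range_succ, Finset.sum_range_zero, Nat.factorial]
    norm_num
  rw [h2]
  refine lt_of_lt_of_le ?_ (mul_le_mul h3 (h5.trans h4) (by norm_num) (by positivity))
  norm_num

theorem exp_upper : Real.exp (Real.pi * Real.sqrt 37) < (199148648.3 : ℝ) := by
  have hs := sqrt37_lt
  have hp := Real.pi_lt_d20
  have h1 : Real.pi * Real.sqrt 37 ≤ (19 : ℝ) + 0.109562078717 := by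
    have h := mul_le_mul hp.le hs.le (Real.sqrt_nonneg _) (by norm_num)
    refine h.trans ?_
    norm_num
  refine lt_of_le_of_lt (Real.exp_le_exp.2 h1) ?_
  rw [Real.exp_add]
  have h2 : Real.exp 19 = Real.exp 1 ^ 19 := by
    rw [← Real.exp_nat_mul]
    norm_num
  have h3 : Real.exp 1 ^ 19 ≤ (2.7182818286 : ℝ) ^ 19 :=
    pow_le_pow_left₀ (Real.exp_pos 1).le Real.exp_one_lt_d9.le 19
  have h4 : Real.exp 0.109562078717 ≤
      ∑ i ∈ Finset.range 7, (0.109562078717 : ℝ) ^ i / i.factorial +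
        (0.109562078717 : ℝ) ^ 7 * ((7 : ℕ) + 1) / (Nat.factorial 7 * (7 : ℕ)) :=
    Real.exp_bound' (by norm_num) (by norm_num) (by norm_num)
  have h5 : ∑ i ∈ Finset.range 7, (0.109562078717 : ℝ) ^ i / i.factorial +
        (0.109562078717 : ℝ) ^ 7 * ((7 : ℕ) + 1) / (Nat.factorial 7 * (7 : ℕ)) ≤ (1.115789335561 : ℝ) := by
    simp only [Finset.sum_range_succ, Finset.sum_range_zero, Nat.factorial]
    norm_num
  rw [h2]
  refine lt_of_le_of_lt (mul_le_mul h3 (h4.trans h5) (Real.exp_pos _).le (by norm_num)) ?_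
  norm_num

end NumK

open NumK in
theorem t_NUMK (hE : S_EXP) : S_NUMK := by
  obtain ⟨he, hs, hP, -⟩ := hE
  obtain ⟨r, hr⟩ : ∃ r, r = (Real.exp (Real.pi * Real.sqrt 37))⁻¹ := ⟨_, rfl⟩
  have hlow := exp_lower
  have hup := exp_upper
  have hpos : 0 < Real.exp (Real.pi * Real.sqrt 37) := Real.exp_pos _
  have hr0 : 0 < r := by rw [hr]; positivity
  have hr9 : r ≤ 6 / 10 ^ 9 := by
    rw [hr, inv_le_comm₀ hpos (by norm_num)]
    norm_num
    linarith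
  obtain ⟨q, hqd⟩ : ∃ q, q = qq (tauK : ℂ) := ⟨_, rfl⟩
  have hqv := qq_tauK
  rw [← hqd] at hqv
  have hq : ‖q‖ = r := by
    rw [hqv, norm_neg, norm_inv, Complex.norm_real, Real.norm_eq_abs, abs_of_pos hpos, hr]
  have hqi : q⁻¹ = -((Real.exp (Real.pi * Real.sqrt 37) : ℝ) : ℂ) := by
    rw [hqv, inv_neg, inv_inv]
  have hsum : ∀ (g : ℍ → ℂ) (c : PowerSeries ℂ), QExp g 0 c →
      HasSum (fun i : ℕ => PowerSeries.coeff i c * q ^ i) (g tauK) := by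
    intro g c h
    have := h tauK
    rw [pow_zero, one_mul, ← hqd] at this
    exact this
  have bP := tail (fun i => PowerSeries.coeff i cP) q (fP tauK) 2 72 (4 * r) (by norm_num)
    (by positivity) (by linarith) (hsum _ _ hP)
    (fun i => coef_bd _ q 72 4 r i (cP_bd i) hq)
  have be := tail (fun i => PowerSeries.coeff i ce) q (fe tauK) 3 2 (16 * r) (by norm_num)
    (by positivity) (by linarith) (hsum _ _ he)
    (fun i => coef_bd _ q 2 16 r i (ce_bd i) hq)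
  have bs := tail (fun i => PowerSeries.coeff i cs) q (fs tauK) 2 272 (16 * r) (by norm_num)
    (by positivity) (by linarith) (hsum _ _ hs)
    (fun i => coef_bd _ q 272 16 r i (cs_bd i) hq)
  simp only [Finset.sum_range_succ, Finset.sum_range_zero, zero_add, pow_zero, pow_one, mul_one,
    ce0, ce1, ce2, cs0, cs1, cP0, cP1, one_mul] at bP be bs
  have m := main_bd q (fP tauK) (fe tauK) (fs tauK) r hr0 hr9 hq
    (bP.trans (by nlinarith)) (be.trans (by nlinarith))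
    (by
      have h : (1 : ℂ) - 16 * q = 1 + -16 * q := by ring
      rw [h]
      exact bs.trans (by nlinarith))
  unfold S_NUMK
  have hdiff : fy tauK + 199148544 = (fP tauK ^ 4 / (fe tauK * fs tauK) - q⁻¹ - 104) +
      (((199148648 - Real.exp (Real.pi * Real.sqrt 37) : ℝ)) : ℂ) := by
    unfold fy fD
    rw [hqi]
    push_cast
    ring
  rw [hdiff]
  refine (norm_add_le _ _).trans_lt ?_
  have hn : ‖(((199148648 - Real.exp (Real.pi * Real.sqrt 37) : ℝ)) : ℂ)‖ < 1 / 2 := by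
    rw [Complex.norm_real, Real.norm_eq_abs, abs_lt]
    constructor <;> linarith
  linarith

end Pool.Agent.HS37.CV
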