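import Pool.Agent.HS37.CQ.Stm

/-!
# Project CV: MP_7e705e_nt Q1, the supercongruences modulo `p²` for `c = -2^10 · 21^4` (`D = -148`)

`S(p) = ∑_{k < p} (4k)!/k!⁴ c^(-k)`. With the finished project CQ (level 2; all `t_XXX` of `Pool/Agent/HS37/CQ` are
proved without hypotheses up to each other) only two things are missing:
* the CM value `y((1 + √-37) / 2) = c` (pieces LU, INJ, SUR, SYM, FN, INTP, YINT, SELF, FDK, ARIK, RATK, NUMK);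
* `p ∣ S(p)` for `p` inert (pieces INL, INE2).

**The CM value.** `y = P⁴ / (e s) = (h + 64)² / h` is a bijection `Γ₀(2)+ \ ℍ → ℂ` (INJ, SUR). For an odd prime `N`
the function `∏_t (y(τ) - y(mat t τ))` is `F_N(y)` with `F_N ∈ ℤ[Y]`, `- F_N` monic (FN, YINT). `τ_K = (1 + √-37) / 2` is a zero for
`N = 19, 31, 41` (SELF). A common zero of these three is a point `τ` such that `N` or `2 N` is the norm of an endomorphism
for the three `N`; the only possibility is the discriminant `-148` and `τ` equivalent to `τ_K` (ARIK). So the minimal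
polynomial of `y(τ_K)` over `ℚ` has the only complex root `y(τ_K)`, i.e. `y(τ_K)` is rational, and it is an algebraic integer, so
an integer (RATK); a numerical estimate (NUMK) gives the value.

Files `Pool/Agent/HS37/CV/XXX.lean`, theorem `t_XXX (h : S_YYY) ... : S_XXX`; the statements of CQ may be used with their proofs
(`Pool.Agent.HS37.CQ.t_REL` etc.; see the end of `Pool/Agent/Results/MP_b6d9c9_nt/QuarticCongruence.lean`, theorem `inty`, for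
how they fit together) or as hypotheses `(hR : S_REL)` etc. All finite checks were verified numerically.
-/

set_option autoImplicit false

open UpperHalfPlane ModularForm ModularFormClass MatrixGroups EisensteinSeries Complex
open Pool.Agent.HS37.SP Pool.Agent.HS37.CQ

namespace Pool.Agent.HS37.CV

noncomputable section

/-- `τ_K = (1 + √-37) / 2` -/
def tauK : ℍ := ofComplex ((1 + Complex.I * ((Real.sqrt 37 : ℝ) : ℂ)) / 2)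

/-- **LU** (Mathlib only; level one). A lattice is determined by `E₄`, `E₆`.
Proof: (1) every level one modular form of weight `k` is a polynomial in `E₄`, `E₆` (subtract `f(∞) E₄^a E₆^b`, divide by `Δ`, induction
on `k`; weights `< 12` are spanned by one monomial: `SP/Prin.lean`, `SP/Neg.lean`), so `E_k(τ₂) = l^k E_k(τ₁)` for all even `k ≥ 4`.
(2) `∑'_{(m,n) ≠ 0} (m τ + n)^(-k) = 2 ζ(k) E_k(τ)` (Mathlib: `E_k` is defined by the sum over coprime pairs; or `G_k`). So with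
`Λ₂ = ℤ τ₂ + ℤ`, `Λ = l⁻¹ (ℤ τ₁ + ℤ)`: `∑_{ω ∈ Λ₂ \ 0} ω^(-k) = ∑_{ω ∈ Λ \ 0} ω^(-k)` for all even `k ≥ 4`. (3) So `Λ₂ = Λ`: otherwise let
`D` be the symmetric difference, `r` its minimal absolute value, `ω_1², ..., ω_s²` the different squares of the elements of `D` of absolute
value `r`, with coefficients `ε_j = ± 2`. Then `∑_j ε_j (r / ω_j)^k → 0` for `k → ∞`, `k` even (the other terms are dominated:
`∑_{|ω| ≥ r' > r} (r/|ω|)^k → 0`), but by Vandermonde for the different numbers `u_j = (r/ω_j)²`, `|u_j| = 1`, the vectors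
`(∑ ε_j u_j^(n+i))_{i < s}` do not tend to `0`. (Or: `∑ 1/(ω² (ω² - x))` has its poles exactly at the `ω²`, and its Taylor coefficients at `0` are
these sums.) (4) `Λ₂ = Λ`: `l = l · 1 ∈ ℤ τ₁ + ℤ` and `l τ₂ ∈ ℤ τ₁ + ℤ`, the matrix is invertible over `ℤ`, of determinant `1` as
`Im τ₁, Im τ₂ > 0`. -/
def S_LU : Prop :=
  ∀ (τ₁ τ₂ : ℍ) (l : ℂ), l ≠ 0 → E₄ τ₂ = l ^ 4 * E₄ τ₁ → E₆ τ₂ = l ^ 6 * E₆ τ₁ →
    ∃ γ : SL(2, ℤ), (γ 1 0 : ℂ) * τ₁ + (γ 1 1 : ℂ) = l ∧ (γ 0 0 : ℂ) * τ₁ + (γ 0 1 : ℂ) = l * τ₂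

/-- **LU1** (optional split of LU: the first step, Mathlib / SP only). All Eisenstein series are determined by `E₄`, `E₆`. -/
def S_LU1 : Prop :=
  ∀ (τ₁ τ₂ : ℍ) (l : ℂ), l ≠ 0 → E₄ τ₂ = l ^ 4 * E₄ τ₁ → E₆ τ₂ = l ^ 6 * E₆ τ₁ →
    ∀ (k : ℕ), 3 ≤ k → Even k → ∑' v : ℤ × ℤ, ((v.1 : ℂ) * τ₂ + v.2) ^ (-(k : ℤ)) =
      l ^ k * ∑' v : ℤ × ℤ, ((v.1 : ℂ) * τ₁ + v.2) ^ (-(k : ℤ))

/-- **LU2** (optional split of LU: the steps (3) and (4), analysis only). (For `v = 0` the term is `0 ^ (-k) = 0`.) -/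
def S_LU2 : Prop :=
  ∀ (τ₁ τ₂ : ℍ) (l : ℂ), l ≠ 0 →
    (∀ (k : ℕ), 3 ≤ k → Even k → ∑' v : ℤ × ℤ, ((v.1 : ℂ) * τ₂ + v.2) ^ (-(k : ℤ)) =
      l ^ k * ∑' v : ℤ × ℤ, ((v.1 : ℂ) * τ₁ + v.2) ^ (-(k : ℤ))) →
    ∃ γ : SL(2, ℤ), (γ 1 0 : ℂ) * τ₁ + (γ 1 1 : ℂ) = l ∧ (γ 0 0 : ℂ) * τ₁ + (γ 0 1 : ℂ) = l * τ₂

/-- **INJ** (from `S_LU`, `S_REL`, `S_PRE`). `y` is injective modulo `Γ₀(2)+`.
Proof: `y = (h + 64)² / h` (REL: `P² = e (h + 64)`), so `h(τ₂) = h(τ₁)` or `h(τ₂) = 4096 / h(τ₁) = h(fri τ₁)`; let `τ` be `τ₁` resp. `fri τ₁`,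
`h(τ₂) = h(τ)`. Choose `l` with `e(τ₂) = l⁴ e(τ)`; then `s(τ₂) = l⁴ s(τ)`, `P(τ₂)² = l⁴ P(τ)²`, and after replacing `l` by `i l` if necessary
`P(τ₂) = l² P(τ)`. By REL `E₄`, `E₆` at `τ` and at `2 τ` are polynomials in `P`, `e`, so `E₄(τ₂) = l⁴ E₄(τ)`, `E₆(τ₂) = l⁶ E₆(τ)` and the same for
`dbl τ₂`, `dbl τ`. By LU (same `l` in both cases): `l = c τ + d`, `l τ₂ = a τ + b` and `l = c' (2 τ) + d'`, so `c = 2 c'` is even and `τ₂ = γ • τ`. -/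
def S_INJ : Prop :=
  ∀ τ₁ τ₂ : ℍ, fy τ₁ = fy τ₂ →
    ∃ γ : SL(2, ℤ), (2 : ℤ) ∣ γ 1 0 ∧ (τ₂ = γ • τ₁ ∨ τ₂ = γ • fri τ₁)

/-- **SUR** (from `S_CON`, `S_PRE`, `S_REL`, `S_EXP`, `S_CLO`, `S_BAS`). `y` is surjective.
Proof: otherwise `P⁴ - z Δ₈` has no zero, and `F = Δ₈ / (P⁴ - z Δ₈)` is `Pr 0 F F`; `P⁴ - z Δ₈ = g(q)` with `g` without zeros in the unit disc
(`g(0) = 1`), so `1 / (P⁴ - z Δ₈)` has an expansion (as for `1 / Δ` in `SP/Eis.lean`) and `F` one without constant term, so `F = 0` by CON, but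
`Δ₈ ≠ 0`. -/
def S_SUR : Prop := ∀ z : ℂ, ∃ τ : ℍ, fy τ = z

/-- **SYM** (from `S_CON`, `S_PRE`, `S_REL`, `S_EXP`, `S_CLO`, `S_QMUL`). A function which is its own partner, with integral expansion, is
an integral polynomial in `y`. Proof: `y = q⁻¹ + ...` is integral; induction on the pole order `m`: subtract `(coeff 0 c) y^m`; for
`m = 0` it is constant (CON). -/
def S_SYM : Prop :=
  ∀ (F : ℍ → ℂ) (m : ℕ) (c : PowerSeries ℂ), Pr 0 F F → QExp F m c → IsInt c →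
    ∃ Q : Polynomial ℤ, ∀ τ, F τ = Polynomial.aeval (fy τ) Q

/-- **FN** (from `S_SYM`, `S_HK2`, `S_HQ`, `S_PRE`, `S_EXP`, `S_CLO`, `S_QMUL`). The modular polynomial on the diagonal.
Proof: `x_t = y(τ) - y(mat t τ)`; the power sums are `∑_j C(m, j) y^(m-j) (-1)^j hsum 0 N (y^j)`, `Pr 0` self-partner (HK2: the partner of
`hsum 0 N (y^j)` is itself), integral expansion (HQ with `κ = 0`), so `∑ x_t^m = Q_m(y)`, `Q_m ∈ ℤ[Y]` (SYM). By Newton's identities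
(`Multiset`/`MvPolynomial` in Mathlib, or by induction) `∏ x_t = F(y)`, `F ∈ ℚ[Y]`. Degree and leading coefficient: as `Im τ → ∞`,
`y q → 1`, `(y(τ) - y(N τ)) q^N → -1`, `(y(τ) - y((τ + b) / N)) q → 1` for the `N` others, so `F(y) q^(2N) → -1`. -/
def S_FN : Prop :=
  ∀ N : ℕ, N.Prime → N ≠ 2 → ∃ F : Polynomial ℚ, F.natDegree = 2 * N ∧ F.leadingCoeff = -1 ∧
    (∀ τ : ℍ, Polynomial.aeval (fy τ) F = ∏ t ∈ reps N, (fy τ - val 0 fy (mat t) τ)) ∧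
    ∀ m : ℕ, ∃ Q : Polynomial ℤ, ∀ τ : ℍ,
      ∑ t ∈ reps N, (fy τ - val 0 fy (mat t) τ) ^ m = Polynomial.aeval (fy τ) Q

/-- **INTP** (elementary algebra). A rational polynomial which maps algebraic integers to algebraic integers has integral coefficients.
Proof: otherwise `F = G / d`, `G ∈ ℤ[X]` with content prime to `d > 1`; let `ℓ` be a prime dividing `d`, `Ḡ ≠ 0` modulo `ℓ`. Choose an
irreducible monic `H̄ ∈ 𝔽_ℓ[X]` which does not divide `Ḡ` (there are infinitely many), a monic lift `H ∈ ℤ[X]` and a complex root `α` of `H`. Then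
`β = G(α) / ℓ` is an algebraic integer: `β^n + c₁ β^(n-1) + ... = 0`, `c_i ∈ ℤ`, so `G(α)^n = - ∑ c_i ℓ^i G(α)^(n-i) ∈ ℓ ℤ[α]`. There is a ring
homomorphism `ℤ[α] → 𝔽_ℓ[X] / H̄`, `α ↦ X` (if `A(α) = 0` for `A ∈ ℤ[X]`: the minimal polynomial of `α` over `ℤ` divides `H` ...; to avoid this,
work in `ℤ[X]`: `G^n + ∑ c_i ℓ^i G^(n-i)` and `H` have the common root `α`; take `H` irreducible over `ℤ` as its reduction is irreducible and it is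
monic, so `H ∣ G^n + ...` in `ℤ[X]`), and modulo `ℓ`: `H̄ ∣ Ḡ^n`, so `H̄ ∣ Ḡ`, a contradiction. -/
def S_INTP : Prop :=
  ∀ F : Polynomial ℚ, (∀ α : ℂ, IsIntegral ℤ α → IsIntegral ℤ (Polynomial.aeval α F)) →
    ∃ G : Polynomial ℤ, F = G.map (Int.castRingHom ℚ)

/-- **YINT** (from `S_FN`, `S_INTP`, `S_SUR`, `CQ.S_PSM`). If `y(mat t τ) = y(τ)` for some `t`, then `y(τ)` is an algebraic integer.
Proof: for an algebraic integer `α = y(τ')` (SUR) the `x_t(τ')` are algebraic integers by PSM (`u = v = α`), so `F(α) = ∏ x_t(τ')` is one;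
by INTP `F ∈ ℤ[X]`, `-F` is monic and `F(y(τ)) = 0`. -/
def S_YINT : Prop :=
  ∀ N : ℕ, N.Prime → N ≠ 2 → ∀ τ : ℍ, (∃ t ∈ reps N, val 0 fy (mat t) τ = fy τ) → IsIntegral ℤ (fy τ)

/-- **SELF** (from `S_VR2`, `S_PRE`). Proof: VR2 (3) and (4) with `k = 0`, `g = g' = fy`. With `τ = τ_K`, `τ² = τ - 19/2`: `N = 41`: `M = (3, -19; 2, 1)`,
`l = 2 τ + 1`; `N = 19`: `M = (-1, 0; 2, -19)`, `l = τ` (type `(-1, 2 τ)`); `N = 31`: `M = (-1, -2; 6, -19)`, `l = τ + 2`. -/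
def S_SELF : Prop :=
  ∀ N : ℕ, N = 19 ∨ N = 31 ∨ N = 41 → ∃ t ∈ reps N, val 0 fy (mat t) tauK = fy tauK

/-- **FDK** (from `S_PRE`). Every point is equivalent to one which is not too low.
Proof: `τ = γ⁻¹ • z` with `z` in Mathlib's fundamental domain (`ModularGroup.exists_smul_mem_fd`), `|z| ≥ 1`, `|Re z| ≤ 1/2`, `Im z ² ≥ 3/4`. `γ⁻¹ = δ r`
with `δ ∈ Γ₀(2)` and `r ∈ {1, S, S T}` (according to the bottom row of `γ⁻¹` modulo 2), so `y(τ) = y(r z)`, `r z ∈ {z, -1/z, -1/(z+1)}`, and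
`y(-1/z) = y(z / 2)`, `y(-1/(z+1)) = y((z+1)/2)` (Fricke). -/
def S_FDK : Prop :=
  ∀ τ : ℍ, ∃ τ' : ℍ, fy τ' = fy τ ∧ 3 / 16 ≤ τ'.im ^ 2 ∧ |τ'.re| ≤ 3 / 4

/-- **REL2N** (from `S_INJ`). A self relation of index `N` gives an integral matrix which fixes `τ`.
Proof: `t ∈ reps N`, `y(mat t τ) = y(τ)` (`val 0` is the value at `(a τ + b)/d`). INJ with `τ₁ = (a τ + b) / d`, `τ₂ = τ`: `τ = γ τ₁`, then
`A = γ * mat t` has determinant `N`, `A 1 0 = γ 1 0 a` even; or `τ = γ (-1/(2 τ₁))`, then `A = γ * (0, -1; 2, 0) * mat t = γ * (0, -d; 2 a, 2 b)` has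
determinant `2 N`, with `A 0 0`, `A 1 0`, `A 1 1` even. `A τ = τ` means `A 1 0 τ² + (A 1 1 - A 0 0) τ - A 0 1 = 0`. -/
def S_REL2N : Prop :=
  ∀ (N : ℕ) (τ : ℍ), N.Prime → N ≠ 2 → (∃ t ∈ reps N, val 0 fy (mat t) τ = fy τ) →
    ∃ A : Matrix (Fin 2) (Fin 2) ℤ, (2 : ℤ) ∣ A 1 0 ∧
      (A.det = N ∨ (A.det = 2 * N ∧ (2 : ℤ) ∣ A 0 0 ∧ (2 : ℤ) ∣ A 1 1)) ∧
      (A 1 0 : ℂ) * (τ : ℂ) ^ 2 + ((A 1 1 : ℂ) - A 0 0) * τ - A 0 1 = 0

/-- **ARIK** (elementary number theory). Three matrices fixing `τ`, for `N = 19, 31, 41`, and `τ` not too low: then `τ = (±1 + √-37) / 2`.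
Proof: none of the matrices is scalar (`N`, `2 N` are not squares), so `A 1 0 ≠ 0` and `τ` is a root of a primitive form `(a, b, c)`, `a > 0`,
`D = b² - 4 a c < 0`, and `(A 1 0, A 1 1 - A 0 0, - A 0 1) = y (a, b, c)`, `y² |D| = 4 det A - (tr A)²`. Let `n₁, n₂, n₃` be these numbers for
`N = 19, 31, 41`: `n₁ ∈ {76 - t², t = 0..8} ∪ {152 - t², t = 0, 2, ..., 12}` etc., and `n₁ n₂`, `n₁ n₃` are squares (`y₁² y₂² D²`). The only possibility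
(finite check, `decide`) is `n₁ = 148` (from `152 - 2²`), `n₂ = 148`, `n₃ = 148`. So `y₁² |D| = 148`, `|D| = 148`, `y₁ = ±1` (`|D| = 37` is impossible as
`-37 ≡ 3 mod 4`). In this case `A 0 0`, `A 1 0`, `A 1 1` are even, so `a`, `b` are even. `Im τ² = 37 / a² ≥ 3/16` gives `a ≤ 14`,
`|b| ≤ 3 a / 2`, `4 a ∣ b² + 148`: the only solutions are `a = 2`, `b = ±2`, `c = 19`. -/
def S_ARIK : Prop :=
  ∀ τ : ℍ, 3 / 16 ≤ τ.im ^ 2 → |τ.re| ≤ 3 / 4 →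
    (∀ N : ℕ, N = 19 ∨ N = 31 ∨ N = 41 → ∃ A : Matrix (Fin 2) (Fin 2) ℤ, (2 : ℤ) ∣ A 1 0 ∧
      (A.det = N ∨ (A.det = 2 * N ∧ (2 : ℤ) ∣ A 0 0 ∧ (2 : ℤ) ∣ A 1 1)) ∧
      (A 1 0 : ℂ) * (τ : ℂ) ^ 2 + ((A 1 1 : ℂ) - A 0 0) * τ - A 0 1 = 0) →
    (τ : ℂ) = (1 + Complex.I * ((Real.sqrt 37 : ℝ) : ℂ)) / 2 ∨
      (τ : ℂ) = (-1 + Complex.I * ((Real.sqrt 37 : ℝ) : ℂ)) / 2

/-- **RATK** (from `S_FN`, `S_YINT`, `S_SUR`, `S_SELF`, `S_FDK`, `S_REL2N`, `S_ARIK`, `S_PRE`). `y(τ_K)` is an integer.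
Proof: `Y = y(τ_K)` is an algebraic integer (YINT, SELF). Let `z` be a complex root of its minimal polynomial `m` over `ℚ`. `m` divides the `F_N` of FN for
`N = 19, 31, 41` (SELF), so `F_N(z) = 0`; `z = y(τ)` (SUR), and by FDK we may assume that `τ` is not too low; so `∏_t (y(τ) - y(mat t τ)) = 0` and
`y(mat t τ) = y(τ)` for some `t`; by REL2N and ARIK `τ = τ_K` or `τ_K - 1`, `z = y(τ) = Y`. As `m` is separable it is of degree `1`, `Y ∈ ℚ`, so `Y ∈ ℤ`. -/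
def S_RATK : Prop := ∃ z : ℤ, fy tauK = z

/-- **NUMK** (numerics; from `S_EXP`, `S_EIS`). Proof: `q = - e^(-π √37)`, `q⁻¹ = - 199148647.99997805...`, `y = q⁻¹ + 104 + 4372 q + ...`, so
`y = -199148544.00000 ...`. (1) `P = 1 + 24 q + R₁`, `e = q + 8 q² + R₂`, `s = 1 - 16 q + R₃` (`16 E₄(2τ)`, `E₄` explicit; coefficients at most `240 · 16 · n⁴`), so
`y - q⁻¹ - 104` is smaller than `1/100` (`|q| < 6 · 10⁻⁹`). (2) `e^(π √37)` lies in `(199148647.7, 199148648.3)`: `19.10956… = π √37`; use Mathlib's bounds for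
`π` (`Real.pi_gt_d20`, `Real.pi_lt_d20`), `√37` by squaring, `exp 1` (`Real.exp_one_gt_d9`, `Real.exp_one_lt_d9`; relative error of `(exp 1)^19` at most
`2.2 · 10⁻⁹`, absolute error `0.45` in the worst case, one-sided errors `0.22`), and the Taylor bound (`Real.exp_bound'`) for `exp (π √37 - 19)`. Only the
distance `< 1` is needed. -/
def S_NUMK : Prop := ‖fy tauK + 199148544‖ < 1

/-- **INL** (from `CQ.S_LUC`, `S_HK2`, `S_TRC`, `S_VR2`, `S_PR2`, `S_PSM`, `S_PRE`, `S_EXP`, `S_CLO`, `S_BAS`, `S_REL`, `S_QMUL`; compare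
`CQ/INR1.lean`, `CQ/Intl.lean`; the version `S_INL3` of `C3/Stm.lean` for level 3 is the same with `K³`). Inert primes.
Proof: `K = ∑_{n ≤ p/4} u_n Δ₈^n P^(p-1-4n)` (`Pr (p-1) K K`), `K ≡ 1 mod p` (LUC), `Q = K²`, weight `κ = 4 (p - 1)` (`Pr (2 (p-1)) Q Q`). For the
sublattices of index `ℓ`: `W_t = (ℓ^κ val κ Q (mat t) τ - ℓ^κ Q(τ)) / Δ₈(τ)^((p-1)/2)`, of weight `0`. Power sums:
`∑_t W_t^m = Δ₈^(-m(p-1)/2) ∑_j C(m, j) (- ℓ^κ Q)^(m-j) ℓ^(κ j) hsum (j κ) ℓ (Q^j)`; with `V = V_ℓ`, `U = U_ℓ` its expansion times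
`Δ₈^(m (p-1)/2)` is `ℓ^(κ m) (V Q - Q)^m + ℓ U((Q - ℓ^κ V Q)^m)` (as `hsum (jκ) ℓ g = V g + ℓ^(1 - jκ) U g`,
`Q^i U(g) = U(V(Q)^i g)`), and `V Q - Q`, `Q - ℓ^κ V Q` are `≡ 0 mod p` (`Q ≡ 1`, `ℓ^κ ≡ 1`). So
`p^(-m) ∑_t W_t^m` is in `ℤ[h] + ℤ[4096/h]` (PR2, it is its own partner), and `W_t / p` is an algebraic integer (PSM) if `h`, `4096/h` are
(`(h + 64)² = c h`, so `h² + (128 - c) h + 4096 = 0`; see `INTY.int_h` in `CQ/Inty.lean`). For the `t*` of `M (τ, 1) = l (τ, 1)` (VR2):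
`val κ Q (mat t*) τ = l^(-κ) Q(τ)`, so `W_t* = (l'^κ - ℓ^κ) Q(τ) / Δ₈(τ)^((p-1)/2)`, and `K² / Δ₈^((p-1)/2) = c^r NN(p/4, c)²`, `r = ((p-1)/2) % 2`:
`p - 1 = 4 (p/4) + 2 r`, `K = P^(2r) Δ₈^(p/4) NN` (`P⁴ = c Δ₈`), `P^(4r) = c^r Δ₈^r`. -/
def S_INL : Prop :=
  ∀ (p ℓ : ℕ) (τ : ℍ) (c : ℤ) (M : Matrix (Fin 2) (Fin 2) ℤ) (l l' : ℂ), p.Prime → p ≠ 2 → ℓ.Prime →
    ℓ ≠ p → ℓ ≠ 2 → fP τ ^ 4 = c * (fe τ * fs τ) → M.det = ℓ → (2 : ℤ) ∣ M 1 0 → l * l' = ℓ →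
    (M 0 0 : ℂ) * τ + (M 0 1 : ℂ) = l * τ → (M 1 0 : ℂ) * τ + (M 1 1 : ℂ) = l →
      ∃ w : ℂ, IsIntegral ℤ w ∧ (l' ^ (4 * (p - 1)) - (ℓ : ℂ) ^ (4 * (p - 1))) *
        ((c : ℂ) ^ (((p - 1) / 2) % 2) * (NN (p / 4) c : ℂ) ^ 2) = p * w

/-- **INE2** (port of `C3/INE3.lean`, exponent `4` instead of `6`: `λ̄⁴ - λ⁴ = - s a (a² - 2 ℓ)`). -/
def S_INE2 : Prop :=
  ∀ (p : ℕ) (a ℓ Z : ℤ) (l w : ℂ), p.Prime → p ≠ 2 → l ^ 2 - a * l + ℓ = 0 → IsIntegral ℤ w →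
    (¬ ∃ z : ℤ, (p : ℤ) ∣ a ^ 2 - 4 * ℓ - z ^ 2) → ¬ (p : ℤ) ∣ ℓ → ¬ (p : ℤ) ∣ a * (a ^ 2 - 2 * ℓ) →
    (l ^ (4 * (p - 1)) - (ℓ : ℂ) ^ (4 * (p - 1))) * (Z : ℂ) = p * w → (p : ℤ) ∣ Z

end

end Pool.Agent.HS37.CV
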