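import Pool.Agent.HS37.CV.Stm

/-!
Piece FDK of project CV (helper45).
-/

set_option autoImplicit false

open UpperHalfPlane ModularForm ModularFormClass MatrixGroups EisensteinSeries Complex
open Pool.Agent.HS37.SP Pool.Agent.HS37.CQ

namespace Pool.Agent.HS37.CV

noncomputable section

/-- `w / 2` -/
def fdkHalf (w : ℍ) : ℍ := ofComplex ((w : ℂ) / 2)

theorem fdkHalf_coe (w : ℍ) : ((fdkHalf w : ℍ) : ℂ) = (w : ℂ) / 2 := by
  have h : 0 < ((w : ℂ) / 2).im := by
    have e : ((w : ℂ) / 2).im = w.im / 2 := by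
      rw [show (w : ℂ) / 2 = (w : ℂ) / ((2 : ℝ) : ℂ) by norm_num, Complex.div_ofReal_im]
      rfl
    rw [e]
    exact half_pos w.im_pos
  rw [fdkHalf, ofComplex_apply_of_im_pos h]

theorem fdkHalf_im (w : ℍ) : (fdkHalf w).im = w.im / 2 := by
  have h := congrArg Complex.im (fdkHalf_coe w)
  rw [show (w : ℂ) / 2 = (w : ℂ) / ((2 : ℝ) : ℂ) by norm_num, Complex.div_ofReal_im] at h
  exact h

theorem fdkHalf_re (w : ℍ) : (fdkHalf w).re = w.re / 2 := by
  have h := congrArg Complex.re (fdkHalf_coe w)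
  rw [show (w : ℂ) / 2 = (w : ℂ) / ((2 : ℝ) : ℂ) by norm_num, Complex.div_ofReal_re] at h
  exact h

theorem fri_fdkHalf (w : ℍ) : fri (fdkHalf w) = ModularGroup.S • w := by
  rw [fri, fdkHalf_coe, modular_S_smul]
  have e : -1 / (2 * ((w : ℂ) / 2)) = (-(w : ℂ))⁻¹ := by
    rw [mul_div_cancel₀ _ (two_ne_zero), neg_div, one_div, inv_neg]
  rw [e, ofComplex_apply_of_im_pos]

theorem t_FDK (hP : S_PRE) : S_FDK := by
  have hy := hP.2.2.2.2.1
  have h1 : ∀ (γ : SL(2, ℤ)) (τ : ℍ), (2 : ℤ) ∣ γ 1 0 → fy (γ • τ) = fy τ := by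
    intro γ τ h
    have := hy.sl γ τ h
    rw [mul_zero, zpow_zero, one_mul] at this
    exact this
  have h2 : ∀ τ : ℍ, fy (fri τ) = fy τ := by
    intro τ
    have := hy.fr τ
    rw [zpow_zero, one_mul] at this
    exact this
  have h3 : ∀ (γ : SL(2, ℤ)) (w : ℍ), (2 : ℤ) ∣ γ 1 1 → fy (γ • w) = fy (fdkHalf w) := by
    intro γ w h
    have hδ : (γ * ModularGroup.S⁻¹) * ModularGroup.S = γ := by group
    have e : (2 : ℤ) ∣ (γ * ModularGroup.S⁻¹) 1 0 := by
      have h4 := congrArg (fun m : SL(2, ℤ) => m 1 1) hδ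
      simp only [Matrix.SpecialLinearGroup.coe_mul, ModularGroup.coe_S, Matrix.mul_apply, Fin.sum_univ_two] at h4
      simp only [Matrix.of_apply, Matrix.cons_val', Matrix.cons_val_zero, Matrix.cons_val_one,
        Matrix.cons_val_fin_one] at h4
      rw [← h4] at h
      simp only [mul_neg, mul_one, mul_zero, add_zero, dvd_neg] at h
      simpa only [Matrix.SpecialLinearGroup.coe_mul, Matrix.mul_apply, Fin.sum_univ_two] using h
    have h5 := h1 _ (ModularGroup.S • w) e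
    rw [← mul_smul, hδ, ← fri_fdkHalf, h2] at h5
    exact h5
  intro τ
  obtain ⟨g, hg⟩ := ModularGroup.exists_smul_mem_fd τ
  have him := ModularGroup.three_le_four_mul_im_sq_of_mem_fd hg
  have hre := hg.2
  set z : ℍ := g • τ with hz
  have hτ : g⁻¹ • z = τ := by rw [hz, inv_smul_smul]
  by_cases hc : (2 : ℤ) ∣ (g⁻¹ : SL(2, ℤ)) 1 0
  · refine ⟨z, ?_, by linarith, by linarith⟩
    rw [← hτ, h1 _ _ hc]
  · by_cases hd : (2 : ℤ) ∣ (g⁻¹ : SL(2, ℤ)) 1 1
    · refine ⟨fdkHalf z, ?_, ?_, ?_⟩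
      · rw [← hτ, h3 _ _ hd]
      · rw [fdkHalf_im]
        nlinarith
      · rw [fdkHalf_re, abs_div, abs_two]
        linarith
    · have hδ : (g⁻¹ * ModularGroup.T⁻¹) * ModularGroup.T = g⁻¹ := by group
      have e : (2 : ℤ) ∣ (g⁻¹ * ModularGroup.T⁻¹ : SL(2, ℤ)) 1 1 := by
        have h4 := congrArg (fun m : SL(2, ℤ) => m 1 1) hδ
        have h5 := congrArg (fun m : SL(2, ℤ) => m 1 0) hδ
        simp only [Matrix.SpecialLinearGroup.coe_mul (g⁻¹ * ModularGroup.T⁻¹), ModularGroup.coe_T, Matrix.mul_apply,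
          Fin.sum_univ_two] at h4 h5
        simp only [Matrix.of_apply, Matrix.cons_val', Matrix.cons_val_zero, Matrix.cons_val_one,
          Matrix.cons_val_fin_one, mul_one, mul_zero, add_zero] at h4 h5
        generalize (g⁻¹ * ModularGroup.T⁻¹ : SL(2, ℤ)) = δ at h4 h5 ⊢
        omega
      refine ⟨fdkHalf (ModularGroup.T • z), ?_, ?_, ?_⟩
      · have h5 := h3 _ (ModularGroup.T • z) e
        rw [← mul_smul, hδ, hτ] at h5
        exact h5.symm
      · rw [fdkHalf_im, modular_T_smul, vadd_im]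
        nlinarith
      · rw [fdkHalf_re, modular_T_smul, vadd_re, abs_div, abs_two]
        have := abs_add_le 1 z.re
        rw [abs_one] at this
        linarith

end

end Pool.Agent.HS37.CV
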