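import Pool.Agent.HS37.CV.Stm
import Pool.Agent.HS37.CQ.Fin

/-!
# Project CV: assembly
-/

set_option autoImplicit false

open UpperHalfPlane ModularForm ModularFormClass MatrixGroups EisensteinSeries Complex
open Pool.Agent.HS37.SP Pool.Agent.HS37.CQ

namespace Pool.Agent.HS37.CV

/-- `c = -2^10 · 21^4` -/
def cK : ℤ := -199148544

lemma cK_eq : cK = - (2 ^ 10 * (3 ^ 4 * 7 ^ 4)) := by
  unfold cK
  norm_num

lemma coe_tauK : ((tauK : ℍ) : ℂ) = (1 + Complex.I * ((Real.sqrt 37 : ℝ) : ℂ)) / 2 := by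
  unfold tauK
  rw [ofComplex_apply_of_im_pos]
  have h : ((1 + Complex.I * ((Real.sqrt 37 : ℝ) : ℂ)) / 2).im = Real.sqrt 37 / 2 := by
    rw [show (2 : ℂ) = ((2 : ℝ) : ℂ) by norm_num, Complex.div_ofReal_im]
    simp
  rw [h]
  positivity

/-- `s = √-37` -/
noncomputable def sK : ℂ := Complex.I * ((Real.sqrt 37 : ℝ) : ℂ)

lemma sK_sq : sK ^ 2 = -37 := by
  unfold sK
  rw [mul_pow, Complex.I_sq]
  have h : ((Real.sqrt 37 : ℝ) : ℂ) ^ 2 = 37 := by
    have := Real.sq_sqrt (show (0 : ℝ) ≤ 37 by norm_num)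
    exact_mod_cast congrArg (fun x : ℝ => (x : ℂ)) this
  rw [h]
  ring

lemma sK_conj : (starRingEnd ℂ) sK = - sK := by
  unfold sK
  rw [map_mul, Complex.conj_I, Complex.conj_ofReal]
  ring

lemma tauK_eq : ((tauK : ℍ) : ℂ) = (1 + sK) / 2 := coe_tauK

lemma cK_unit {p : ℕ} (hp : p.Prime) (hp3 : 3 < p) (hp7 : p ≠ 7) : ¬ (p : ℤ) ∣ cK := by
  have hpZ : Prime (p : ℤ) := Nat.prime_iff_prime_int.1 hp
  have hne : ∀ q : ℕ, q.Prime → p ≠ q → ¬ (p : ℤ) ∣ (q : ℤ) := by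
    intro q hq hq4 h
    have h1 : p ∣ q := by exact_mod_cast h
    exact hq4 ((Nat.prime_dvd_prime_iff_eq hp hq).1 h1)
  have h2 : ¬ (p : ℤ) ∣ 2 := hne 2 Nat.prime_two (by omega)
  have h3 : ¬ (p : ℤ) ∣ 3 := hne 3 Nat.prime_three (by omega)
  have h7 : ¬ (p : ℤ) ∣ 7 := hne 7 (by norm_num) hp7
  intro h
  rw [cK_eq, dvd_neg] at h
  rcases hpZ.dvd_or_dvd h with h4 | h4
  · exact h2 (hpZ.dvd_of_dvd_pow h4)
  · rcases hpZ.dvd_or_dvd h4 with h5 | h5
    · exact h3 (hpZ.dvd_of_dvd_pow h5)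
    · exact h7 (hpZ.dvd_of_dvd_pow h5)

lemma two_unit {p : ℕ} (hp : p.Prime) (hp3 : 3 < p) : ¬ (p : ℤ) ∣ 2 := by
  intro h
  have h1 : p ∣ 2 := by exact_mod_cast h
  have := Nat.le_of_dvd (by norm_num) h1
  omega

/-- type one: `p = x² + 37 y²` -/
lemma type_oneK (hY : S_INTY) (hX : S_EXT)
    (hE : fP tauK ^ 4 = (cK : ℂ) * (fe tauK * fs tauK)) {p δ : ℕ} (hp : p.Prime)
    (hpδ : p = 2 * δ + 1) (hp3 : 3 < p) (hp7 : p ≠ 7) (hp37 : p ≠ 37) {x y : ℤ}
    (hxy : x ^ 2 + 37 * y ^ 2 = p) :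
    (p : ℤ) ^ 2 ∣ NN δ cK - cK ^ δ * (4 * x ^ 2 - 2 * p) := by
  have hpZ : Prime (p : ℤ) := Nat.prime_iff_prime_int.1 hp
  have hp2 := two_unit hp hp3
  have hpc := cK_unit hp hp3 hp7
  have h37 : ¬ (p : ℤ) ∣ 37 := by
    intro h
    have h1 : p ∣ 37 := by exact_mod_cast h
    exact hp37 ((Nat.prime_dvd_prime_iff_eq hp (by norm_num)).1 h1)
  have hs := sK_sq
  obtain ⟨l, hl⟩ : ∃ l : ℂ, l = x + y * sK := ⟨_, rfl⟩
  have hlc : (starRingEnd ℂ) l = x - y * sK := by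
    rw [hl]
    simp only [map_add, map_mul, map_intCast, sK_conj]
    ring
  have hxyC : (x : ℂ) ^ 2 + 37 * y ^ 2 = p := by exact_mod_cast hxy
  have hll : l * (starRingEnd ℂ) l = p := by
    rw [hlc, hl]
    linear_combination hxyC - (y : ℂ) ^ 2 * hs
  have hp0 : (p : ℂ) ≠ 0 := by exact_mod_cast hp.ne_zero
  have hl0 : l ≠ 0 := by
    intro h
    rw [h, zero_mul] at hll
    exact hp0 hll.symm
  obtain ⟨h1, -⟩ := hY p δ tauK cK !![x + y, -(19 * y); 2 * y, x - y] l hp hpδ hE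
    (by rw [Matrix.det_fin_two_of]; linear_combination hxy) (by simp) hl0
  obtain ⟨w, hw, hww⟩ := h1
    (by simp; rw [tauK_eq, hl]; linear_combination (-(y : ℂ) / 2) * hs)
    (by simp; rw [tauK_eq, hl]; ring)
  obtain ⟨h3, -⟩ := hX p (NN δ cK) (4 * x ^ 2 - 2 * p) (64 * cK * 4096 ^ (δ + 1)) (cK ^ δ) l w hp hw
    (by
      intro h
      have h4 : (p : ℤ) ∣ 4 * x ^ 2 := by
        have : 4 * x ^ 2 = (4 * x ^ 2 - 2 * p) + p * 2 := by ring
        rw [this]
        exact dvd_add h (Dvd.intro _ rfl)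
      have h5 : (p : ℤ) ∣ x := by
        rcases hpZ.dvd_or_dvd h4 with h6 | h6
        · exfalso
          have : (4 : ℤ) = 2 ^ 2 := by norm_num
          rw [this] at h6
          exact hp2 (hpZ.dvd_of_dvd_pow h6)
        · exact hpZ.dvd_of_dvd_pow h6
      obtain ⟨x', rfl⟩ := h5
      have h6 : (p : ℤ) ∣ 37 * y ^ 2 := ⟨1 - p * x' ^ 2, by linear_combination hxy⟩
      have h7 : (p : ℤ) ∣ y := by
        rcases hpZ.dvd_or_dvd h6 with h8 | h8
        · exact absurd h8 h37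
        · exact hpZ.dvd_of_dvd_pow h8
      obtain ⟨b', rfl⟩ := h7
      have h8 : (p : ℤ) * (p * (x' ^ 2 + 37 * b' ^ 2)) = p * 1 := by linear_combination hxy
      have h9 := mul_left_cancel₀ hpZ.ne_zero h8
      exact hpZ.not_dvd_one ⟨_, h9.symm⟩)
    (by
      intro h
      have : (64 * cK * 4096 ^ (δ + 1) : ℤ) = 2 ^ (6 + 12 * (δ + 1)) * cK := by
        have h4 : (4096 : ℤ) = 2 ^ 12 := by norm_num
        rw [h4, ← pow_mul, pow_add]
        ring
      rw [this] at h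
      rcases hpZ.dvd_or_dvd h with h4 | h4
      · exact hp2 (hpZ.dvd_of_dvd_pow h4)
      · exact hpc h4)
    (by
      rw [hlc, hl]
      push_cast
      linear_combination (2 * (y : ℂ) ^ 2) * hs - 2 * hxyC)
  refine h3 hll ?_
  rw [← hww]
  push_cast
  ring

/-- type two: `2 p = x² + 37 y²` -/
lemma type_twoK (hY : S_INTY) (hX : S_EXT)
    (hE : fP tauK ^ 4 = (cK : ℂ) * (fe tauK * fs tauK)) {p δ : ℕ} (hp : p.Prime)
    (hpδ : p = 2 * δ + 1) (hp3 : 3 < p) (hp7 : p ≠ 7) (hp37 : p ≠ 37) {x y : ℤ}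
    (hxy : x ^ 2 + 37 * y ^ 2 = 2 * p) :
    (p : ℤ) ^ 2 ∣ NN δ cK - cK ^ δ * (2 * p - 2 * x ^ 2) := by
  have hpZ : Prime (p : ℤ) := Nat.prime_iff_prime_int.1 hp
  have hp2 := two_unit hp hp3
  have hpc := cK_unit hp hp3 hp7
  have h37 : ¬ (p : ℤ) ∣ 37 := by
    intro h
    have h1 : p ∣ 37 := by exact_mod_cast h
    exact hp37 ((Nat.prime_dvd_prime_iff_eq hp (by norm_num)).1 h1)
  have hs := sK_sq
  obtain ⟨d, hd⟩ : ∃ d : ℤ, x - y = 2 * d := by
    have h1 : (x ^ 2 + 37 * y ^ 2) % 2 = 0 := by rw [hxy]; omega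
    have hx : x % 2 = 0 ∨ x % 2 = 1 := by omega
    have hy : y % 2 = 0 ∨ y % 2 = 1 := by omega
    refine ⟨(x - y) / 2, ?_⟩
    rcases hx with hx | hx <;> rcases hy with hy | hy
    · omega
    · exfalso
      rw [pow_two, pow_two, Int.add_emod, Int.mul_emod, Int.mul_emod 37, Int.mul_emod y, hx, hy] at h1
      norm_num at h1
    · exfalso
      rw [pow_two, pow_two, Int.add_emod, Int.mul_emod, Int.mul_emod 37, Int.mul_emod y, hx, hy] at h1
      norm_num at h1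
    · omega
  obtain ⟨l, hl⟩ : ∃ l : ℂ, l = (x + y * sK) / 2 := ⟨_, rfl⟩
  have hlc : (starRingEnd ℂ) l = (x - y * sK) / 2 := by
    rw [hl]
    simp only [map_add, map_mul, map_intCast, sK_conj, map_div₀]
    have h2 : (starRingEnd ℂ) (2 : ℂ) = 2 := by
      have := Complex.conj_ofReal 2
      exact_mod_cast this
    rw [h2]
    ring
  have hxyC : (x : ℂ) ^ 2 + 37 * y ^ 2 = 2 * p := by exact_mod_cast hxy
  have hdC : (x : ℂ) - y = 2 * d := by exact_mod_cast hd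
  have hll : 2 * (l * (starRingEnd ℂ) l) = p := by
    rw [hlc, hl]
    linear_combination (1 / 2 : ℂ) * hxyC - (1 / 2 : ℂ) * (y : ℂ) ^ 2 * hs
  have hp0 : (p : ℂ) ≠ 0 := by exact_mod_cast hp.ne_zero
  have hl0 : l ≠ 0 := by
    intro h
    rw [h, zero_mul, mul_zero] at hll
    exact hp0 hll.symm
  have hdet : (-y) * (-(19 * y)) - (-d) * (x + y) = p := by
    have : 2 * ((-y) * (-(19 * y)) - (-d) * (x + y)) = 2 * (p : ℤ) := by
      linear_combination hxy - (x + y) * hd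
    linarith
  obtain ⟨-, h1⟩ := hY p δ tauK cK !![-y, -d; x + y, -(19 * y)] l hp hpδ hE
    (by rw [Matrix.det_fin_two_of]; exact hdet)
    (by simp; exact ⟨y + d, by linarith⟩) hl0
  obtain ⟨w, hw, hww⟩ := h1
    (by simp; rw [tauK_eq, hl]; linear_combination (1 / 2 : ℂ) * hdC)
    (by simp; rw [tauK_eq, hl]; linear_combination (-(y : ℂ) / 2) * hs)
  have hT : (x ^ 2 - p) + (x ^ 2 - p) = 2 * (x ^ 2 - (p : ℤ)) := by ring
  obtain ⟨-, h3⟩ := hX p (NN δ cK) (x ^ 2 - p) (2 * cK * 4096 ^ (δ + 2)) (cK ^ δ) l w hp hw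
    (by
      intro h
      have h4 : (p : ℤ) ∣ x ^ 2 := by
        have : x ^ 2 = (x ^ 2 - p) + p * 1 := by ring
        rw [this]
        exact dvd_add h (Dvd.intro _ rfl)
      have h5 : (p : ℤ) ∣ x := hpZ.dvd_of_dvd_pow h4
      obtain ⟨x', rfl⟩ := h5
      have h6 : (p : ℤ) ∣ 37 * y ^ 2 := ⟨2 - p * x' ^ 2, by linear_combination hxy⟩
      have h7 : (p : ℤ) ∣ y := by
        rcases hpZ.dvd_or_dvd h6 with h8 | h8
        · exact absurd h8 h37
        · exact hpZ.dvd_of_dvd_pow h8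
      obtain ⟨b', rfl⟩ := h7
      have h8 : (p : ℤ) * (p * (x' ^ 2 + 37 * b' ^ 2)) = p * 2 := by linear_combination hxy
      have h9 := mul_left_cancel₀ hpZ.ne_zero h8
      exact hp2 ⟨_, h9.symm⟩)
    (by
      intro h
      have : (2 * cK * 4096 ^ (δ + 2) : ℤ) = 2 ^ (1 + 12 * (δ + 2)) * cK := by
        have h4 : (4096 : ℤ) = 2 ^ 12 := by norm_num
        rw [h4, ← pow_mul, pow_add]
        ring
      rw [this] at h
      rcases hpZ.dvd_or_dvd h with h4 | h4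
      · exact hp2 (hpZ.dvd_of_dvd_pow h4)
      · exact hpc h4)
    (by
      rw [hlc, hl]
      push_cast
      linear_combination (1 / 2 * (y : ℂ) ^ 2) * hs - (1 / 2 : ℂ) * hxyC)
  have h5 := h3 hll (by
    rw [← hww]
    push_cast
    ring)
  have e : NN δ cK - cK ^ δ * (2 * p - 2 * x ^ 2) = NN δ cK + 2 * cK ^ δ * (x ^ 2 - p) := by ring
  rw [e]
  exact h5

lemma uu_small : (∀ k : ℕ, k < 11 → (uu k : ℤ) =
    (if k = 0 then 1 else if k = 1 then 24 else if k = 2 then 2520 else if k = 3 then 369600 else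
      if k = 4 then 63063000 else if k = 5 then 11732745024 else if k = 6 then 2308743493056 else
      if k = 7 then 472518347558400 else if k = 8 then 99561092450391000 else
      if k = 9 then 21452752266265320000 else 4705360871073570227520)) := by
  intro k hk
  unfold uu
  interval_cases k <;> simp [Nat.factorial]

/-- the inert case modulo `p` -/
lemma inertK (hL : S_INL) (hI : S_INE2)
    (hE : fP tauK ^ 4 = (cK : ℂ) * (fe tauK * fs tauK)) {p : ℕ} (hp : p.Prime) (hp3 : 3 < p)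
    (hp7 : p ≠ 7) (hp11 : p ≠ 11) (hin : ¬ ∃ z : ℤ, (p : ℤ) ∣ -37 - z ^ 2) :
    (p : ℤ) ∣ NN (p / 4) cK := by
  have hpZ : Prime (p : ℤ) := Nat.prime_iff_prime_int.1 hp
  have hp2 := two_unit hp hp3
  have hpc := cK_unit hp hp3 hp7
  have hs := sK_sq
  have hne : ∀ q : ℕ, q.Prime → p ≠ q → ¬ (p : ℤ) ∣ (q : ℤ) := by
    intro q hq hq4 h
    have h1 : p ∣ q := by exact_mod_cast h
    exact hq4 ((Nat.prime_dvd_prime_iff_eq hp hq).1 h1)
  have hp41 : p ≠ 41 := by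
    rintro rfl
    exact hin ⟨2, ⟨-1, by norm_num⟩⟩
  obtain ⟨w, hw, hww⟩ := hL p 41 tauK cK !![3, -19; 2, 1] (2 + sK) (2 - sK) hp (by omega)
    (by norm_num) (fun h => hp41 h.symm) (by norm_num) hE (by rw [Matrix.det_fin_two_of]; norm_num)
    (by simp) (by push_cast; linear_combination (-1 : ℂ) * hs)
    (by simp; rw [tauK_eq]; linear_combination (-(1 : ℂ) / 2) * hs)
    (by simp; rw [tauK_eq]; ring)
  have h1 := hI p 4 41 (cK ^ (((p - 1) / 2) % 2) * NN (p / 4) cK ^ 2) (2 - sK) w hp (by omega)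
    (by push_cast; linear_combination hs) hw
    (by
      rintro ⟨z, hz⟩
      apply hin
      have h2 : (p : ℤ) ∣ 4 * (-37) - z ^ 2 := by
        have : (4 ^ 2 - 4 * 41 - z ^ 2 : ℤ) = 4 * (-37) - z ^ 2 := by ring
        rw [← this]
        exact hz
      -- `z` even or `p - z` even
      have hodd : (p : ℤ) % 2 = 1 := by
        rcases hp.eq_two_or_odd with h | h
        · omega
        · omega
      obtain ⟨z', hz'⟩ : ∃ z' : ℤ, z = 2 * z' ∨ z + p = 2 * z' := by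
        rcases Int.emod_two_eq_zero_or_one z with h | h
        · exact ⟨z / 2, Or.inl (by omega)⟩
        · exact ⟨(z + p) / 2, Or.inr (by omega)⟩
      refine ⟨z', ?_⟩
      have h3 : (p : ℤ) ∣ 4 * (-37 - z' ^ 2) := by
        rcases hz' with h4 | h4
        · have : 4 * (-37 - z' ^ 2) = 4 * (-37) - z ^ 2 := by rw [h4]; ring
          rw [this]
          exact h2
        · have : 4 * (-37 - z' ^ 2) = (4 * (-37) - z ^ 2) + p * (-(2 * z + p)) := by
            linear_combination (-(2 * z' + z + p)) * (-h4)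
          rw [this]
          exact dvd_add h2 (Dvd.intro _ rfl)
      rcases hpZ.dvd_or_dvd h3 with h4 | h4
      · exfalso
        have : (4 : ℤ) = 2 ^ 2 := by norm_num
        rw [this] at h4
        exact hp2 (hpZ.dvd_of_dvd_pow h4)
      · exact h4)
    (hne 41 (by norm_num) hp41)
    (by
      intro h
      have : (4 * (4 ^ 2 - 2 * 41) : ℤ) = - (2 ^ 3 * (3 * 11)) := by norm_num
      rw [this, dvd_neg] at h
      rcases hpZ.dvd_or_dvd h with h4 | h4
      · exact hp2 (hpZ.dvd_of_dvd_pow h4)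
      · rcases hpZ.dvd_or_dvd h4 with h5 | h5
        · exact hne 3 Nat.prime_three (by omega) h5
        · exact hne 11 (by norm_num) hp11 h5)
    (by
      rw [← hww]
      push_cast
      ring)
  rcases hpZ.dvd_or_dvd h1 with h2 | h2
  · exact absurd (hpZ.dvd_of_dvd_pow h2) hpc
  · exact hpZ.dvd_of_dvd_pow h2

lemma eleven : (11 : ℤ) ^ 2 ∣ SN 11 cK := by
  have h := uu_small
  have e : SN 11 cK = ∑ k ∈ Finset.range 11, (if k = 0 then 1 else if k = 1 then 24 else if k = 2 then 2520 else if k = 3 then 369600 else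
      if k = 4 then 63063000 else if k = 5 then 11732745024 else if k = 6 then 2308743493056 else
      if k = 7 then 472518347558400 else if k = 8 then 99561092450391000 else
      if k = 9 then 21452752266265320000 else 4705360871073570227520) * cK ^ (11 - 1 - k) := by
    unfold SN
    refine Finset.sum_congr rfl fun k hk => ?_
    rw [Finset.mem_range] at hk
    rw [h k hk]
  rw [e]
  unfold cK
  norm_num [Finset.sum_range_succ]

theorem main (hY : S_INTY) (hX : S_EXT) (hU : S_UDV) (h2 : S_INR2) (hL : S_INL) (hI : S_INE2)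
    (hE : fP tauK ^ 4 = (cK : ℂ) * (fe tauK * fs tauK))
    {p : ℕ} (hp : p.Prime) (hp3 : 3 < p) (hp7 : p ≠ 7) :
    (∀ x y : ℤ, p ≠ 37 → x ^ 2 + 37 * y ^ 2 = p →
      (p : ℤ) ^ 2 ∣ SN p cK - cK ^ (p - 1) * (4 * x ^ 2 - 2 * p)) ∧
    (∀ x y : ℤ, p ≠ 37 → x ^ 2 + 37 * y ^ 2 = 2 * p →
      (p : ℤ) ^ 2 ∣ SN p cK - cK ^ (p - 1) * (2 * p - 2 * x ^ 2)) ∧
    ((¬ ∃ z : ℤ, (p : ℤ) ∣ -37 - z ^ 2) → (p : ℤ) ^ 2 ∣ SN p cK) := by
  have hpZ : Prime (p : ℤ) := Nat.prime_iff_prime_int.1 hp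
  have hp2' : p ≠ 2 := by omega
  have hodd : p % 2 = 1 := by
    rcases hp.eq_two_or_odd with h | h
    · exact absurd h hp2'
    · exact h
  obtain ⟨δ, hδ⟩ : ∃ δ, p = 2 * δ + 1 := ⟨p / 2, by omega⟩
  have hne : ∀ q : ℕ, q.Prime → p ≠ q → ¬ (p : ℤ) ∣ (q : ℤ) := by
    intro q hq hq4 h
    have h1 : p ∣ q := by exact_mod_cast h
    exact hq4 ((Nat.prime_dvd_prime_iff_eq hp hq).1 h1)
  have hp2 := two_unit hp hp3
  refine ⟨fun x y h37 hxy => full_of_half hU hp hδ (type_oneK hY hX hE hp hδ hp3 hp7 h37 hxy),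
    fun x y h37 hxy => full_of_half hU hp hδ (type_twoK hY hX hE hp hδ hp3 hp7 h37 hxy),
    fun hin => ?_⟩
  by_cases hp11 : p = 11
  · subst hp11
    exact eleven
  refine h2 p cK 882 145 37 hp hp2' (by unfold cK; norm_num) (cK_unit hp hp3 hp7) ?_ ?_
      (SN_quarter hU hp hp2' _ (inertK hL hI hE hp hp3 hp7 hp11 hin))
  · intro h
    have : (882 : ℤ) = 2 * (3 ^ 2 * 7 ^ 2) := by norm_num
    rw [this] at h
    rcases hpZ.dvd_or_dvd h with h5 | h5
    · exact hp2 h5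
    · rcases hpZ.dvd_or_dvd h5 with h6 | h6
      · exact hne 3 Nat.prime_three (by omega) (hpZ.dvd_of_dvd_pow h6)
      · exact hne 7 (by norm_num) hp7 (hpZ.dvd_of_dvd_pow h6)
  · intro h
    have h37 : p = 37 := by
      by_contra h5
      exact hne 37 (by norm_num) h5 h
    apply hin
    exact ⟨0, by rw [h37]; exact ⟨-1, by norm_num⟩⟩

end Pool.Agent.HS37.CV
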