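import Pool.Agent.HS37.CV.Stm

/-!
# Project CV, piece INJ (helper84): `y` is injective modulo `Γ₀(2)+`
-/

set_option autoImplicit false

open UpperHalfPlane ModularForm ModularFormClass MatrixGroups EisensteinSeries Complex
open Pool.Agent.HS37.SP Pool.Agent.HS37.CQ

namespace Pool.Agent.HS37.CV

noncomputable section

namespace INJ

theorem coe_dbl (τ : ℍ) : (dbl τ : ℂ) = 2 * (τ : ℂ) := by
  have h : 0 < (2 * (τ : ℂ)).im := by
    have h1 : (2 * (τ : ℂ)).im = 2 * (τ : ℂ).im := by simp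
    rw [h1]
    have h2 : 0 < (τ : ℂ).im := τ.im_pos
    linarith
  rw [dbl, ofComplex_apply_of_im_pos h]

theorem lin (τ : ℍ) (x y : ℤ) (h : (x : ℂ) * τ + y = 0) : x = 0 := by
  have h1 := congrArg Complex.im h
  simp at h1
  rcases h1 with h1 | h1
  · exact_mod_cast h1
  · exact absurd h1 τ.im_ne_zero

theorem core (hLU : S_LU) (hREL : S_REL) (τ τ₂ : ℍ) (h : fh τ₂ = fh τ) :
    ∃ γ : SL(2, ℤ), (2 : ℤ) ∣ γ 1 0 ∧ τ₂ = γ • τ := by
  obtain ⟨r1, r2, r3, r4, r5, -, -, r8, r9⟩ := hREL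
  have he := r8 τ
  have he2 := r8 τ₂
  obtain ⟨l0, hl0⟩ := IsAlgClosed.exists_pow_nat_eq (fe τ₂ / fe τ) (n := 4) (by norm_num)
  have hE : ∀ l : ℂ, l ^ 4 = fe τ₂ / fe τ → l ≠ 0 ∧ fe τ₂ = l ^ 4 * fe τ ∧ fs τ₂ = l ^ 4 * fs τ := by
    intro l hl
    have h1 : fe τ₂ = l ^ 4 * fe τ := by rw [hl]; field_simp
    refine ⟨?_, h1, ?_⟩
    · rintro rfl
      rw [zero_pow (by norm_num), zero_mul] at h1
      exact he2 h1
    · have h2 : fs τ₂ = fh τ₂ * fe τ₂ := by rw [fh]; field_simp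
      have h3 : fs τ = fh τ * fe τ := by rw [fh]; field_simp
      rw [h2, h3, h, h1]
      ring
  have hP : ∃ l : ℂ, l ^ 4 = fe τ₂ / fe τ ∧ fP τ₂ = l ^ 2 * fP τ := by
    obtain ⟨-, h1, h2⟩ := hE l0 hl0
    have h3 : (fP τ₂ - l0 ^ 2 * fP τ) * (fP τ₂ + l0 ^ 2 * fP τ) = 0 := by
      have h4 := r1 τ₂
      have h5 := r1 τ
      rw [h1, h2] at h4
      linear_combination h4 - l0 ^ 4 * h5
    rcases mul_eq_zero.1 h3 with h4 | h4
    · exact ⟨l0, hl0, by linear_combination h4⟩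
    · refine ⟨Complex.I * l0, ?_, ?_⟩
      · rw [mul_pow, Complex.I_pow_four, one_mul, hl0]
      · rw [mul_pow, Complex.I_sq]
        linear_combination h4
  obtain ⟨l, hl, hPl⟩ := hP
  obtain ⟨hl0', h1, h2⟩ := hE l hl
  obtain ⟨γ, g1, g2⟩ := hLU τ τ₂ l hl0' (by rw [r2, r2, hPl, h1]; ring) (by rw [r4, r4, hPl, h1]; ring)
  obtain ⟨γ', g1', -⟩ := hLU (dbl τ) (dbl τ₂) l hl0' (by rw [r3, r3, hPl, h1]; ring)
    (by rw [r5, r5, hPl, h1]; ring)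
  refine ⟨γ, ?_, ?_⟩
  · rw [coe_dbl] at g1'
    have h3 := lin τ (γ 1 0 - 2 * γ' 1 0) (γ 1 1 - γ' 1 1) (by
      push_cast
      linear_combination g1 - g1')
    exact ⟨γ' 1 0, by linarith⟩
  · apply UpperHalfPlane.ext
    rw [UpperHalfPlane.coe_specialLinearGroup_apply]
    have h3 : ((γ 1 0 : ℤ) : ℂ) * (τ : ℂ) + ((γ 1 1 : ℤ) : ℂ) ≠ 0 := by rw [g1]; exact hl0'
    simp only [algebraMap_int_eq, eq_intCast, Complex.ofReal_intCast]
    rw [eq_div_iff (by simpa using h3)]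
    simp only [g1]
    rw [g2]
    ring

end INJ

open INJ in
theorem t_INJ (hLU : S_LU) (hREL : S_REL) (hPRE : S_PRE) : S_INJ := by
  intro τ₁ τ₂ h
  have hREL' := hREL
  obtain ⟨r1, -, -, -, -, -, -, r8, r9⟩ := hREL'
  obtain ⟨-, -, -, hh, -⟩ := hPRE
  have hy : ∀ τ : ℍ, fh τ ≠ 0 ∧ fy τ * fh τ = (fh τ + 64) ^ 2 := by
    intro τ
    have he := r8 τ
    have hs := r9 τ
    refine ⟨div_ne_zero hs he, ?_⟩
    rw [fy, fD, fh]
    have h1 : fP τ ^ 4 = (fs τ + 64 * fe τ) ^ 2 := by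
      rw [← r1 τ]
      ring
    rw [h1]
    field_simp
  have hf : fh (fri τ₁) = 4096 / fh τ₁ := by
    have h1 := hh.fr τ₁
    rw [zpow_zero, one_mul] at h1
    exact h1
  have hk : (fh τ₁ - fh τ₂) * (fh τ₁ * fh τ₂ - 4096) = 0 := by
    have h1 := (hy τ₁).2
    have h2 := (hy τ₂).2
    rw [h] at h1
    linear_combination h1 * fh τ₂ * (-1) + h2 * fh τ₁
  rcases mul_eq_zero.1 hk with h1 | h1
  · obtain ⟨γ, g1, g2⟩ := core hLU hREL τ₁ τ₂ (by linear_combination -h1)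
    exact ⟨γ, g1, Or.inl g2⟩
  · obtain ⟨γ, g1, g2⟩ := core hLU hREL (fri τ₁) τ₂ (by
      rw [hf, eq_div_iff (hy τ₁).1]
      linear_combination h1)
    exact ⟨γ, g1, Or.inr g2⟩

end

end Pool.Agent.HS37.CV
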