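import Pool.Agent.HS37.CV.Stm

/-! # Project CV, piece INTP (helper11)

Proof: take a primitive `p`-th root of unity `ζ`, `p > deg F + 1` prime; the ring of integers of `ℚ(ζ)` is `ℤ[ζ]`. -/

set_option autoImplicit false

namespace Pool.Agent.HS37.CV

namespace INTPP

open Polynomial

theorem intp_aux (p : ℕ) [hp : Fact p.Prime] (K : Type) [Field K] [CharZero K]
    [IsCyclotomicExtension {p} ℚ K] (ζ : K) (hζ : IsPrimitiveRoot ζ p) (φ : K →ₐ[ℚ] ℂ)
    (F : Polynomial ℚ) (hpF : F.natDegree + 2 ≤ p)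
    (hF : ∀ α : ℂ, IsIntegral ℤ α → IsIntegral ℤ (Polynomial.aeval α F)) :
    ∃ G : Polynomial ℤ, F = G.map (Int.castRingHom ℚ) := by
  have hp0 : 0 < p := hp.out.pos
  have h1 : IsIntegral ℤ ζ := hζ.isIntegral hp0
  have h2 : IsIntegral ℤ (φ ζ) := h1.map (φ.restrictScalars ℤ)
  have h3 : IsIntegral ℤ (aeval (φ ζ) F) := hF _ h2
  have h4 : aeval (φ ζ) F = φ (aeval ζ F) := Polynomial.aeval_algHom_apply φ ζ F
  rw [h4] at h3
  have h5 : IsIntegral ℤ (aeval ζ F) :=
    (isIntegral_algHom_iff (φ.restrictScalars ℤ) φ.toRingHom.injective).1 h3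
  have h6 := IsCyclotomicExtension.Rat.isIntegralClosure_adjoin_singleton_of_prime hζ
  obtain ⟨y, hy⟩ := h6.isIntegral_iff.1 h5
  have h7 : aeval ζ F ∈ Algebra.adjoin ℤ ({ζ} : Set K) := by
    rw [← hy]
    exact y.2
  rw [Algebra.adjoin_singleton_eq_range_aeval] at h7
  obtain ⟨G, hG⟩ := h7
  have hm : (cyclotomic p ℤ).Monic := cyclotomic.monic p ℤ
  have hr : aeval ζ (cyclotomic p ℤ) = 0 := by
    have h8 := hζ.isRoot_cyclotomic hp0
    rw [IsRoot.def, ← map_cyclotomic_int, eval_map] at h8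
    rw [aeval_def]
    exact h8
  refine ⟨G %ₘ cyclotomic p ℤ, ?_⟩
  have h9 : aeval ζ (G %ₘ cyclotomic p ℤ) = aeval ζ F := by
    have h10 := congrArg (aeval ζ) (modByMonic_add_div G (cyclotomic p ℤ))
    rw [map_add, map_mul, hr, zero_mul, add_zero] at h10
    rw [h10]
    exact hG
  by_contra hne
  have h11 : aeval ζ (F - (G %ₘ cyclotomic p ℤ).map (Int.castRingHom ℚ)) = 0 := by
    have e : aeval ζ ((G %ₘ cyclotomic p ℤ).map (Int.castRingHom ℚ)) =
        aeval ζ (G %ₘ cyclotomic p ℤ) := aeval_map_algebraMap ℚ ζ (G %ₘ cyclotomic p ℤ)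
    rw [map_sub, e, h9, sub_self]
  have h12 := minpoly.degree_le_of_ne_zero ℚ ζ (sub_ne_zero.2 hne) h11
  rw [← cyclotomic_eq_minpoly_rat hζ hp0] at h12
  have h13 : (F - (G %ₘ cyclotomic p ℤ).map (Int.castRingHom ℚ)).degree < (cyclotomic p ℚ).degree := by
    have e : (cyclotomic p ℚ).degree = ((p - 1 : ℕ) : WithBot ℕ) := by
      rw [degree_cyclotomic, Nat.totient_prime hp.out]
    refine lt_of_le_of_lt (degree_sub_le _ _) (max_lt ?_ ?_)
    · rw [e]
      refine lt_of_le_of_lt degree_le_natDegree ?_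
      exact_mod_cast (by omega : F.natDegree < p - 1)
    · refine lt_of_le_of_lt degree_map_le ?_
      have h14 := degree_modByMonic_lt G hm
      rw [degree_cyclotomic] at h14 ⊢
      exact h14
  exact absurd h12 (not_le.2 h13)

theorem intp (F : Polynomial ℚ)
    (hF : ∀ α : ℂ, IsIntegral ℤ α → IsIntegral ℤ (Polynomial.aeval α F)) :
    ∃ G : Polynomial ℤ, F = G.map (Int.castRingHom ℚ) := by
  obtain ⟨p, hpF, hp⟩ := Nat.exists_infinite_primes (F.natDegree + 2)
  haveI : Fact p.Prime := ⟨hp⟩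
  haveI : NeZero p := ⟨hp.ne_zero⟩
  haveI : NeZero ((p : ℕ) : ℚ) := ⟨by exact_mod_cast hp.ne_zero⟩
  have hcyc : IsCyclotomicExtension {p} ℚ (CyclotomicField p ℚ) := by
    have h := CyclotomicField.isCyclotomicExtension p ℚ
    have e : (CyclotomicField.algebra p ℚ : Algebra ℚ (CyclotomicField p ℚ)) =
        DivisionRing.toRatAlgebra := Subsingleton.elim _ _
    rw [e] at h
    exact h
  haveI : CharZero (CyclotomicField p ℚ) := charZero_of_injective_algebraMap
    (algebraMap ℚ (CyclotomicField p ℚ)).injective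
  haveI : Algebra.IsAlgebraic ℚ (CyclotomicField p ℚ) := by
    haveI := IsCyclotomicExtension.finiteDimensional {p} ℚ (CyclotomicField p ℚ)
    infer_instance
  exact intp_aux p (CyclotomicField p ℚ) _ (IsCyclotomicExtension.zeta_spec p ℚ (CyclotomicField p ℚ))
    IsAlgClosed.lift F hpF hF

end INTPP

theorem t_INTP : S_INTP := fun F hF => INTPP.intp F hF

end Pool.Agent.HS37.CV
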