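import Pool.Agent.HS37.CV.Stm
import Pool.Agent.HS37.SP.Prin

/-!
# Project CV, piece LU1 (helper51): all Eisenstein series are determined by `E₄`, `E₆`
-/

set_option autoImplicit false

open UpperHalfPlane ModularForm ModularFormClass MatrixGroups EisensteinSeries Complex
open Pool.Agent.HS37.SP Pool.Agent.HS37.CQ

namespace Pool.Agent.HS37.CV

noncomputable section

namespace LU1

lemma div_step {κ : ℤ} {h : ℍ → ℂ} {c : PowerSeries ℂ} (hh : IsWeak κ h) (hq : QExp h 0 c)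
    (h0 : PowerSeries.coeff 0 c = 0) : ∃ c' : PowerSeries ℂ,
      IsWeak (κ - 12) (fun τ => h τ * (discriminant τ)⁻¹) ∧
      QExp (fun τ => h τ * (discriminant τ)⁻¹) 0 c' := by
  obtain ⟨ci, hw, hci, hint, hX⟩ := t_EIS.2.2.2.2
  have h1 : (PowerSeries.X : PowerSeries ℂ) ∣ c := by
    rw [PowerSeries.X_dvd_iff]
    simpa using h0
  obtain ⟨d, rfl⟩ := h1
  refine ⟨d * ci, (hh.mul hw).cast (by ring), ?_⟩
  have h2 := t_QMUL.1 _ _ _ _ _ _ hq hci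
  refine t_QMUL.2.2.2.2.2 _ 0 1 _ ?_
  rw [pow_one, ← mul_assoc]
  exact h2

lemma wt_two {g : ℍ → ℂ} {c : PowerSeries ℂ} (hg : IsWeak 2 g) (hq : QExp g 0 c) (τ : ℍ) :
    g τ = 0 := by
  obtain ⟨F, hF⟩ := exists_form (hg.cast (κ' := ((2 : ℕ) : ℤ)) (by norm_num)) (bounded_of_qexp hq)
  have hr : Module.rank ℂ (ModularForm 𝒮ℒ ((2 : ℕ) : ℤ)) = 0 := by
    rw [dimension_level_one 2 ⟨1, rfl⟩, if_pos (show 2 ≡ 2 [MOD 12] from rfl)]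
    simp
  have hs : Subsingleton (ModularForm 𝒮ℒ ((2 : ℕ) : ℤ)) := rank_zero_iff.1 hr
  have h0 : F = 0 := Subsingleton.elim _ _
  rw [← hF, h0]
  rfl

/-- low weights -/
lemma low {κ : ℤ} (hκ : κ < 0 ∨ κ = 2) {g : ℍ → ℂ} {c : PowerSeries ℂ} (hg : IsWeak κ g)
    (hq : QExp g 0 c) (τ : ℍ) : g τ = 0 := by
  rcases hκ with h | h
  · exact t_NEG.1 _ _ _ h hg hq τ
  · subst h
    exact wt_two hg hq τ

variable {τ₁ τ₂ : ℍ} {l : ℂ}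

lemma scal (hl : l ≠ 0) (h4 : E₄ τ₂ = l ^ 4 * E₄ τ₁) (h6 : E₆ τ₂ = l ^ 6 * E₆ τ₁) (r s : ℕ)
    (hrs : 4 * r + 6 * s < 12 ∨ 4 * r + 6 * s = 14) : ∀ (m : ℕ) (g : ℍ → ℂ) (c : PowerSeries ℂ),
    IsWeak (12 * m + 4 * r + 6 * s) g → QExp g 0 c →
    g τ₂ = l ^ (12 * m + 4 * r + 6 * s) * g τ₁ := by
  obtain ⟨⟨w4, q4, i4⟩, ⟨w6, q6, i6⟩, ⟨w12, -, -⟩, -⟩ := t_EIS
  have hΔ : discriminant τ₂ = l ^ 12 * discriminant τ₁ := by
    rw [discriminant_eq_E₄_cube_sub_E₆_sq, discriminant_eq_E₄_cube_sub_E₆_sq, h4, h6]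
    ring
  -- subtract the constant term
  have step : ∀ (m : ℕ) (g : ℍ → ℂ) (c : PowerSeries ℂ),
      IsWeak (12 * m + 4 * r + 6 * s) g → QExp g 0 c →
      ∃ (z : ℂ) (c' : PowerSeries ℂ),
        IsWeak (12 * m + 4 * r + 6 * s - 12)
          (fun τ => (g τ + (-z : ℂ) * (E₄ τ ^ (r + 3 * m) * E₆ τ ^ s)) * (discriminant τ)⁻¹) ∧
        QExp (fun τ => (g τ + (-z : ℂ) * (E₄ τ ^ (r + 3 * m) * E₆ τ ^ s)) *
          (discriminant τ)⁻¹) 0 c' := by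
    intro m g c hg hq
    have hE : IsWeak (12 * m + 4 * r + 6 * s) (fun τ => E₄ τ ^ (r + 3 * m) * E₆ τ ^ s) :=
      ((w4.pow _).mul (w6.pow _)).cast (by push_cast; ring)
    have hEq : QExp (fun τ => E₄ τ ^ (r + 3 * m) * E₆ τ ^ s) 0 (eis 4 ^ (r + 3 * m) * eis 6 ^ s) :=
      t_QMUL.1 _ _ _ _ _ _ (q4.pow _) (q6.pow _)
    have h1 := t_QMUL.2.1 _ _ _ _ _ hq (t_QMUL.2.2.2.1 _ _ _ (-(PowerSeries.coeff 0 c) : ℂ) hEq)
    obtain ⟨c', h2, h3⟩ := div_step (hg.add (hE.smul (-(PowerSeries.coeff 0 c) : ℂ))) h1 (by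
        have e4 : PowerSeries.constantCoeff (eis 4) = 1 := by
          rw [← PowerSeries.coeff_zero_eq_constantCoeff_apply, eis, PowerSeries.coeff_mk,
            if_pos rfl]
        have e6 : PowerSeries.constantCoeff (eis 6) = 1 := by
          rw [← PowerSeries.coeff_zero_eq_constantCoeff_apply, eis, PowerSeries.coeff_mk,
            if_pos rfl]
        rw [map_add, PowerSeries.coeff_zero_eq_constantCoeff_apply,
          PowerSeries.coeff_zero_eq_constantCoeff_apply, map_mul, map_mul, map_pow,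
          map_pow, e4, e6]
        simp)
    exact ⟨PowerSeries.coeff 0 c, c', h2, h3⟩
  have fin : ∀ (m : ℕ) (z : ℂ) (g G : ℍ → ℂ) (w : ℂ),
      (∀ τ, G τ = (g τ + (-z : ℂ) * (E₄ τ ^ (r + 3 * m) * E₆ τ ^ s)) * (discriminant τ)⁻¹) →
      w * l ^ 12 = l ^ (12 * m + 4 * r + 6 * s) → G τ₂ = w * G τ₁ →
      g τ₂ = l ^ (12 * m + 4 * r + 6 * s) * g τ₁ := by
    intro m z g G w hG hw h
    rw [hG, hG, hΔ, h4, h6] at h
    have hd := discriminant_ne_zero τ₁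
    have hl12 : l ^ 12 ≠ 0 := pow_ne_zero _ hl
    rw [mul_inv] at h
    have h1 : (g τ₂ + (-z : ℂ) * ((l ^ 4 * E₄ τ₁) ^ (r + 3 * m) * (l ^ 6 * E₆ τ₁) ^ s)) *
        (l ^ 12)⁻¹ = w * (g τ₁ + (-z : ℂ) * (E₄ τ₁ ^ (r + 3 * m) * E₆ τ₁ ^ s)) :=
      mul_right_cancel₀ (inv_ne_zero hd) (by linear_combination h)
    have h2 : (l ^ 4 * E₄ τ₁) ^ (r + 3 * m) * (l ^ 6 * E₆ τ₁) ^ s =
        l ^ (12 * m + 4 * r + 6 * s) * (E₄ τ₁ ^ (r + 3 * m) * E₆ τ₁ ^ s) := by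
      rw [mul_pow, mul_pow, ← pow_mul, ← pow_mul,
        show 12 * m + 4 * r + 6 * s = 4 * (r + 3 * m) + 6 * s by ring, pow_add]
      ring
    rw [h2, mul_inv_eq_iff_eq_mul₀ hl12] at h1
    linear_combination h1 + (g τ₁ + (-z : ℂ) * (E₄ τ₁ ^ (r + 3 * m) * E₆ τ₁ ^ s)) * hw
  intro m
  induction m with
  | zero =>
    intro g c hg hq
    obtain ⟨z, c', h2, h3⟩ := step 0 g c hg hq
    have hlow := low (by push_cast; omega) h2 h3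
    refine fin 0 z g _ (l ^ (12 * 0 + 4 * r + 6 * s) * (l ^ 12)⁻¹) (fun τ => rfl) ?_ ?_
    · rw [mul_assoc, inv_mul_cancel₀ (pow_ne_zero _ hl), mul_one]
    · have e1 := hlow τ₁
      have e2 := hlow τ₂
      rw [e1, e2, mul_zero]
  | succ m ih =>
    intro g c hg hq
    obtain ⟨z, c', h2, h3⟩ := step (m + 1) g c hg hq
    have h5 := ih _ c' (h2.cast (by push_cast; ring)) h3
    refine fin (m + 1) z g _ (l ^ (12 * m + 4 * r + 6 * s)) (fun τ => rfl) ?_ h5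
    rw [← pow_add]
    congr 1
    ring

lemma eis_scal (hl : l ≠ 0) (h4 : E₄ τ₂ = l ^ 4 * E₄ τ₁) (h6 : E₆ τ₂ = l ^ 6 * E₆ τ₁) {k : ℕ}
    (hk : 3 ≤ k) (hk2 : Even k) : E hk τ₂ = l ^ k * E hk τ₁ := by
  have key : ∃ m r s : ℕ, (4 * r + 6 * s < 12 ∨ 4 * r + 6 * s = 14) ∧ k = 12 * m + 4 * r + 6 * s := by
    obtain ⟨j, hj⟩ := hk2
    have h : k % 12 = 0 ∨ k % 12 = 2 ∨ k % 12 = 4 ∨ k % 12 = 6 ∨ k % 12 = 8 ∨ k % 12 = 10 := by omega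
    rcases h with h | h | h | h | h | h
    · exact ⟨k / 12, 0, 0, by omega, by omega⟩
    · exact ⟨k / 12 - 1, 2, 1, by omega, by omega⟩
    · exact ⟨k / 12, 1, 0, by omega, by omega⟩
    · exact ⟨k / 12, 0, 1, by omega, by omega⟩
    · exact ⟨k / 12, 2, 0, by omega, by omega⟩
    · exact ⟨k / 12, 1, 1, by omega, by omega⟩
  obtain ⟨m, r, s, hrs, hkk⟩ := key
  have h := scal hl h4 h6 r s hrs m (fun τ => E hk τ) _
    ((EISP.isWeak_form (E hk)).cast (by rw [hkk]; push_cast; ring)) (EISP.qexp_form (E hk))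
  rw [← hkk] at h
  exact h

lemma tsum_eq {k : ℕ} (hk : 3 ≤ k) (τ : ℍ) :
    ∑' v : ℤ × ℤ, ((v.1 : ℂ) * τ + v.2) ^ (-(k : ℤ)) = 2 * riemannZeta k * E hk τ := by
  have h1 := tsum_eisSummand_eq_riemannZeta_mul_eisensteinSeries hk τ
  rw [← (finTwoArrowEquiv ℤ).tsum_eq (fun v : ℤ × ℤ => ((v.1 : ℂ) * τ + v.2) ^ (-(k : ℤ)))]
  have h2 : ∀ v : Fin 2 → ℤ, ((((finTwoArrowEquiv ℤ) v).1 : ℂ) * τ + (((finTwoArrowEquiv ℤ) v).2 : ℂ)) ^
      (-(k : ℤ)) = eisSummand k v τ := by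
    intro v
    rfl
  rw [tsum_congr h2, h1]
  rw [show E hk τ = (1 / 2 : ℂ) • eisensteinSeriesSIF (N := 1) 0 k τ from rfl,
    eisensteinSeriesSIF_apply 0 k τ, smul_eq_mul]
  ring

end LU1

theorem t_LU1 : S_LU1 := by
  intro τ₁ τ₂ l hl h4 h6 k hk hk2
  rw [LU1.tsum_eq hk, LU1.tsum_eq hk, LU1.eis_scal hl h4 h6 hk hk2]
  ring

end

end Pool.Agent.HS37.CV
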