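import Pool.Agent.HS37.CV.Stm

/-!
# Project CV, piece LU2 (helper84): a lattice is determined by its sums of `ω^(-k)`, `k ≥ 4` even

By Mathlib's Weierstrass `℘` function: the Laurent expansions at `0` agree, so the functions agree (identity theorem),
so the poles agree.
-/

set_option autoImplicit false

open UpperHalfPlane Complex Filter Topology
open scoped PeriodPair

namespace Pool.Agent.HS37.CV

noncomputable section

namespace LU2

/-- `℘` without the principal part at `0` -/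
theorem near_zero (A B : PeriodPair) (h : ∀ n : ℕ, 3 ≤ n → A.G n = B.G n) :
    ∀ᶠ z in 𝓝 (0 : ℂ), A.weierstrassPExcept 0 z = B.weierstrassPExcept 0 z := by
  have hA := A.hasFPowerSeriesAt_weierstrassPExcept 0
  have hB := B.hasFPowerSeriesAt_weierstrassPExcept 0
  have e : (fun i : ℕ => if i = 0 then A.weierstrassPExcept 0 0 else ((i : ℂ) + 1) * A.sumInvPow 0 (i + 2)) =
      fun i : ℕ => if i = 0 then B.weierstrassPExcept 0 0 else ((i : ℂ) + 1) * B.sumInvPow 0 (i + 2) := by
    funext i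
    by_cases hi : i = 0
    · simp [hi]
    · simp only [if_neg hi, PeriodPair.sumInvPow_zero]
      rw [h (i + 2) (by omega)]
  rw [e] at hA
  filter_upwards [hA.eventually_hasSum_sub, hB.eventually_hasSum_sub] with z h1 h2
  exact h1.unique h2

theorem countable_lattice (A : PeriodPair) : (A.lattice : Set ℂ).Countable :=
  countable_of_Lindelof_of_discrete (X := A.lattice)

theorem lattice_le (A B : PeriodPair) (h : ∀ n : ℕ, 3 ≤ n → A.G n = B.G n) : A.lattice ≤ B.lattice := by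
  intro w hw
  by_contra hwB
  have hw0 : w ≠ 0 := by
    rintro rfl
    exact hwB (zero_mem _)
  let U : Set ℂ := ((A.lattice : Set ℂ) \ {0} ∪ ((B.lattice : Set ℂ) \ {0}))ᶜ
  have hU : U = ((A.lattice : Set ℂ) \ {0})ᶜ ∩ ((B.lattice : Set ℂ) \ {0})ᶜ := by
    simp only [U, Set.compl_union]
  have hUc : IsPreconnected U := by
    refine (Set.Countable.isConnected_compl_of_one_lt_rank (by simp) ?_).2
    exact ((countable_lattice A).mono Set.sdiff_subset).union ((countable_lattice B).mono Set.sdiff_subset)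
  have h0 : (0 : ℂ) ∈ U := by simp [U]
  have hA : AnalyticOnNhd ℂ (A.weierstrassPExcept 0) U :=
    (A.analyticOnNhd_weierstrassPExcept 0).mono (by rw [hU]; exact Set.inter_subset_left)
  have hB : AnalyticOnNhd ℂ (B.weierstrassPExcept 0) U :=
    (B.analyticOnNhd_weierstrassPExcept 0).mono (by rw [hU]; exact Set.inter_subset_right)
  have hE := hA.eqOn_of_preconnected_of_eventuallyEq hB hUc h0 (near_zero A B h)
  -- near `w`, but not at `w`, the function `℘` of `A` is analytic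
  have hB1 : AnalyticAt ℂ (B.weierstrassPExcept 0) w := B.analyticOnNhd_weierstrassPExcept 0 w (by
    simp only [Set.mem_compl_iff, Set.mem_sdiff, SetLike.mem_coe, not_and]
    intro h1
    exact absurd h1 hwB)
  have hev : A.weierstrassP =ᶠ[𝓝[≠] w] fun z => B.weierstrassPExcept 0 z + (1 / z ^ 2) := by
    have h1 : ∀ᶠ z in 𝓝[≠] w, z ∉ (A.lattice : Set ℂ) \ {w} :=
      mem_nhdsWithin_of_mem_nhds (A.compl_lattice_sdiff_singleton_mem_nhds w)
    have h2 : ∀ᶠ z in 𝓝[≠] w, z ∉ (B.lattice : Set ℂ) \ {w} :=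
      mem_nhdsWithin_of_mem_nhds (B.compl_lattice_sdiff_singleton_mem_nhds w)
    have h3 : ∀ᶠ z in 𝓝[≠] w, z ≠ w := self_mem_nhdsWithin
    filter_upwards [h1, h2, h3] with z h1 h2 h3
    have hzA : z ∉ A.lattice := fun h4 => h1 ⟨h4, h3⟩
    have hzB : z ∉ B.lattice := fun h4 => h2 ⟨h4, h3⟩
    have hzU : z ∈ U := by
      rw [hU]
      exact ⟨fun h4 => hzA h4.1, fun h4 => hzB h4.1⟩
    have h5 := A.weierstrassPExcept_add 0 z
    rw [ZeroMemClass.coe_zero, hE hzU] at h5
    rw [← h5]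
    simp
  have hord := A.order_weierstrassP w hw
  rw [meromorphicOrderAt_congr hev] at hord
  have han : AnalyticAt ℂ (fun z => B.weierstrassPExcept 0 z + (1 / z ^ 2)) w := by
    refine hB1.add ?_
    exact analyticAt_const.div (analyticAt_id.pow 2) (pow_ne_zero 2 hw0)
  have h6 := han.meromorphicOrderAt_nonneg
  rw [hord] at h6
  exact absurd h6 (by decide)

theorem lattice_eq (A B : PeriodPair) (h : ∀ n : ℕ, 3 ≤ n → A.G n = B.G n) : A.lattice = B.lattice :=
  le_antisymm (lattice_le A B h) (lattice_le B A fun n hn => (h n hn).symm)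

theorem G_eq (A : PeriodPair) (n : ℕ) :
    A.G n = ∑' v : ℤ × ℤ, ((v.1 : ℂ) * A.ω₁ + v.2 * A.ω₂) ^ (-(n : ℤ)) := by
  rw [PeriodPair.G, ← A.latticeEquivProd.symm.toEquiv.tsum_eq]
  refine tsum_congr fun v => ?_
  have h := A.latticeEquiv_symm_apply v
  rw [zpow_neg, zpow_natCast]
  congr 2

theorem indep (t : ℍ) (c : ℂ) (hc : c ≠ 0) : LinearIndependent ℝ ![c * (t : ℂ), c] := by
  rw [LinearIndependent.pair_iff]
  intro x y hxy
  have h1 : c * ((x : ℂ) * t + y) = 0 := by
    have h2 : (x : ℂ) * (c * t) + (y : ℂ) * c = 0 := by simpa using hxy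
    linear_combination h2
  have h3 := (mul_eq_zero.1 h1).resolve_left hc
  have h4 := congrArg Complex.im h3
  simp at h4
  have hx : x = 0 := by
    rcases h4 with h4 | h4
    · exact h4
    · exact absurd h4 t.im_ne_zero
  have h5 := congrArg Complex.re h3
  rw [hx] at h5
  simp at h5
  exact ⟨hx, h5⟩

end LU2

open LU2

theorem t_LU2 : S_LU2 := by
  intro τ₁ τ₂ l hl hs
  let A : PeriodPair := ⟨l⁻¹ * (τ₁ : ℂ), l⁻¹, indep τ₁ l⁻¹ (inv_ne_zero hl)⟩
  let B : PeriodPair := ⟨1 * (τ₂ : ℂ), 1, indep τ₂ 1 one_ne_zero⟩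
  have hG : ∀ n : ℕ, 3 ≤ n → A.G n = B.G n := by
    intro n hn
    rcases Nat.even_or_odd n with he | ho
    · rw [G_eq A n, G_eq B n]
      have h1 := hs n hn he
      have h2 : ∑' v : ℤ × ℤ, ((v.1 : ℂ) * B.ω₁ + v.2 * B.ω₂) ^ (-(n : ℤ)) =
          ∑' v : ℤ × ℤ, ((v.1 : ℂ) * τ₂ + v.2) ^ (-(n : ℤ)) := by
        refine tsum_congr fun v => ?_
        simp only [B, one_mul, mul_one]
      have h3 : ∑' v : ℤ × ℤ, ((v.1 : ℂ) * A.ω₁ + v.2 * A.ω₂) ^ (-(n : ℤ)) =
          l ^ n * ∑' v : ℤ × ℤ, ((v.1 : ℂ) * τ₁ + v.2) ^ (-(n : ℤ)) := by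
        rw [← tsum_mul_left]
        refine tsum_congr fun v => ?_
        have h4 : (v.1 : ℂ) * A.ω₁ + v.2 * A.ω₂ = l⁻¹ * ((v.1 : ℂ) * τ₁ + v.2) := by
          simp only [A]
          ring
        rw [h4, mul_zpow, inv_zpow, zpow_neg, inv_inv, zpow_natCast]
      rw [h2, h3, h1]
    · rw [A.G_eq_zero_of_odd n ho, B.G_eq_zero_of_odd n ho]
  have hL := lattice_eq A B hG
  have hB1 : B.ω₁ ∈ A.lattice := by rw [hL]; exact B.ω₁_mem_lattice
  have hB2 : B.ω₂ ∈ A.lattice := by rw [hL]; exact B.ω₂_mem_lattice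
  have hA1 : A.ω₁ ∈ B.lattice := by rw [← hL]; exact A.ω₁_mem_lattice
  have hA2 : A.ω₂ ∈ B.lattice := by rw [← hL]; exact A.ω₂_mem_lattice
  obtain ⟨a, b, hab⟩ := PeriodPair.mem_lattice.1 hB1
  obtain ⟨c, d, hcd⟩ := PeriodPair.mem_lattice.1 hB2
  obtain ⟨a', b', hab'⟩ := PeriodPair.mem_lattice.1 hA1
  obtain ⟨c', d', hcd'⟩ := PeriodPair.mem_lattice.1 hA2
  simp only [A, B] at hab hcd hab' hcd'
  have e1 : (a : ℂ) * τ₁ + b = l * τ₂ := by
    field_simp at hab
    linear_combination hab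
  have e2 : (c : ℂ) * τ₁ + d = l := by
    field_simp at hcd
    linear_combination hcd
  have e3 : (τ₁ : ℂ) = a' * (l * τ₂) + b' * l := by
    field_simp at hab'
    linear_combination -hab'
  have e4 : (1 : ℂ) = c' * (l * τ₂) + d' * l := by
    field_simp at hcd'
    linear_combination -hcd'
  have key : ∀ x y : ℤ, (x : ℂ) * τ₁ + y = 0 → x = 0 ∧ y = 0 := by
    intro x y hxy
    have h1 := congrArg Complex.im hxy
    simp at h1
    have hx : x = 0 := by
      rcases h1 with h1 | h1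
      · exact_mod_cast h1
      · exact absurd h1 τ₁.im_ne_zero
    refine ⟨hx, ?_⟩
    rw [hx] at hxy
    simpa using hxy
  have m1 := key (a' * a + b' * c - 1) (a' * b + b' * d) (by
    push_cast
    rw [← e1, ← e2] at e3
    linear_combination -e3)
  have m2 := key (c' * a + d' * c) (c' * b + d' * d - 1) (by
    push_cast
    rw [← e1, ← e2] at e4
    linear_combination -e4)
  have hdet : (a' * d' - b' * c') * (a * d - b * c) = 1 := by
    have h1 : a' * a + b' * c = 1 := by linarith [m1.1]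
    have h2 : c' * b + d' * d = 1 := by linarith [m2.2]
    linear_combination h1 * (c' * b + d' * d) - (c' * a + d' * c) * m1.2 + h2
  have hpos : 0 < a * d - b * c := by
    have h1 : (a : ℂ) * τ₁ + b = ((c : ℂ) * τ₁ + d) * τ₂ := by rw [e2, e1]
    have h2 : ((a : ℂ) * τ₁ + b) * (starRingEnd ℂ) ((c : ℂ) * τ₁ + d) =
        ((Complex.normSq ((c : ℂ) * τ₁ + d) : ℝ) : ℂ) * τ₂ := by
      rw [h1, Complex.normSq_eq_conj_mul_self]
      ring
    have h3 := congrArg Complex.im h2
    have h4 : (((a : ℂ) * τ₁ + b) * (starRingEnd ℂ) ((c : ℂ) * τ₁ + d)).im =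
        ((a : ℝ) * d - b * c) * (τ₁ : ℂ).im := by
      simp only [map_add, map_mul, Complex.mul_im, Complex.add_im, Complex.add_re, Complex.mul_re,
        Complex.intCast_re, Complex.intCast_im, Complex.conj_re, Complex.conj_im]
      ring
    rw [h4] at h3
    have h5 : 0 < Complex.normSq ((c : ℂ) * τ₁ + d) := by
      rw [Complex.normSq_pos, e2]
      exact hl
    have h7 : 0 < ((a : ℝ) * d - b * c) * (τ₁ : ℂ).im := by
      rw [h3, Complex.im_ofReal_mul]
      exact mul_pos h5 τ₂.im_pos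
    have h8 : (0 : ℝ) < (a : ℝ) * d - b * c := (pos_iff_pos_of_mul_pos h7).2 τ₁.im_pos
    exact_mod_cast h8
  have hone : a * d - b * c = 1 := by
    rcases Int.eq_one_or_neg_one_of_mul_eq_one' hdet with h | h
    · exact h.2
    · omega
  refine ⟨⟨!![a, b; c, d], ?_⟩, ?_, ?_⟩
  · rw [Matrix.det_fin_two_of, hone]
  · simpa using e2
  · simpa using e1

end

end Pool.Agent.HS37.CV
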