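import Pool.Agent.HS37.CV.Stm

/-!
Piece RATK of project CV (helper61).
-/

set_option autoImplicit false

open UpperHalfPlane ModularForm ModularFormClass MatrixGroups EisensteinSeries Complex
open Pool.Agent.HS37.SP Pool.Agent.HS37.CQ

namespace Pool.Agent.HS37.CV

noncomputable section

theorem ratk_tau_im : 0 < (((1 + Complex.I * ((Real.sqrt 37 : ℝ) : ℂ)) / 2 : ℂ)).im := by
  have h : (((1 + Complex.I * ((Real.sqrt 37 : ℝ) : ℂ)) / 2 : ℂ)).im = Real.sqrt 37 / 2 := by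
    rw [show ((1 + Complex.I * ((Real.sqrt 37 : ℝ) : ℂ)) / 2 : ℂ) =
      (1 + Complex.I * ((Real.sqrt 37 : ℝ) : ℂ)) / ((2 : ℝ) : ℂ) by norm_num,
      Complex.div_ofReal_im]
    simp
  rw [h]
  positivity

theorem ratk_tau_coe : (tauK : ℂ) = (1 + Complex.I * ((Real.sqrt 37 : ℝ) : ℂ)) / 2 := by
  rw [tauK, ofComplex_apply_of_im_pos ratk_tau_im]

/-- a complex number whose minimal polynomial has only one root is rational -/
theorem ratk_rat {Y : ℂ} (hY : IsIntegral ℚ Y)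
    (h : ∀ z : ℂ, Polynomial.aeval z (minpoly ℚ Y) = 0 → z = Y) : ∃ q : ℚ, Y = q := by
  classical
  have hirr := minpoly.irreducible hY
  have hsep : (minpoly ℚ Y).Separable := hirr.separable
  have hcard := Polynomial.card_rootSet_eq_natDegree (K := ℂ) hsep
    (IsAlgClosed.splits _)
  have hne : minpoly ℚ Y ≠ 0 := minpoly.ne_zero hY
  have hle : Fintype.card ((minpoly ℚ Y).rootSet ℂ) ≤ 1 := by
    rw [Fintype.card_le_one_iff]
    rintro ⟨a, ha⟩ ⟨b, hb⟩
    apply Subtype.ext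
    rw [Polynomial.mem_rootSet] at ha hb
    change a = b
    rw [h a ha.2, h b hb.2]
  have hpos := minpoly.natDegree_pos hY
  have hdeg : (minpoly ℚ Y).natDegree = 1 := by omega
  have hr := minpoly.natDegree_eq_one_iff.mp hdeg
  obtain ⟨q, hq⟩ := hr
  exact ⟨q, by rw [← hq]; rfl⟩

theorem t_RATK (hF : S_FN) (hY : S_YINT) (hS : S_SUR) (hSf : S_SELF) (hD : S_FDK) (hR : S_REL2N)
    (hA : S_ARIK) (hP : S_PRE) : S_RATK := by
  have hy := hP.2.2.2.2.1
  have hT : ∀ τ : ℍ, fy (ModularGroup.T • τ) = fy τ := by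
    intro τ
    have h1 : (2 : ℤ) ∣ ModularGroup.T 1 0 := by
      have : ModularGroup.T 1 0 = 0 := rfl
      rw [this]
      exact dvd_zero _
    have := hy.sl ModularGroup.T τ h1
    rw [mul_zero, zpow_zero, one_mul] at this
    exact this
  have hint : IsIntegral ℤ (fy tauK) :=
    hY 19 (by norm_num) (by norm_num) tauK (hSf 19 (Or.inl rfl))
  have hintQ : IsIntegral ℚ (fy tauK) := hint.tower_top
  have hroot : ∀ z : ℂ, Polynomial.aeval z (minpoly ℚ (fy tauK)) = 0 → z = fy tauK := by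
    intro z hz
    obtain ⟨τ, hτ⟩ := hS z
    obtain ⟨τ', h1, h2, h3⟩ := hD τ
    have hz' : z = fy τ' := by rw [h1, hτ]
    have key : ∀ N : ℕ, N = 19 ∨ N = 31 ∨ N = 41 → ∃ A : Matrix (Fin 2) (Fin 2) ℤ,
        (2 : ℤ) ∣ A 1 0 ∧
        (A.det = N ∨ (A.det = 2 * N ∧ (2 : ℤ) ∣ A 0 0 ∧ (2 : ℤ) ∣ A 1 1)) ∧
        (A 1 0 : ℂ) * (τ' : ℂ) ^ 2 + ((A 1 1 : ℂ) - A 0 0) * τ' - A 0 1 = 0 := by
      intro N hN
      have hNp : N.Prime := by rcases hN with h | h | h <;> subst h <;> norm_num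
      have hN2 : N ≠ 2 := by omega
      obtain ⟨F, -, -, hF3, -⟩ := hF N hNp hN2
      obtain ⟨t, ht, hte⟩ := hSf N hN
      have h4 : Polynomial.aeval (fy tauK) F = 0 := by
        rw [hF3]
        exact Finset.prod_eq_zero ht (by rw [hte, sub_self])
      have h5 : minpoly ℚ (fy tauK) ∣ F := minpoly.dvd ℚ _ h4
      have h6 : Polynomial.aeval z F = 0 := by
        obtain ⟨G, hG⟩ := h5
        rw [hG, map_mul, hz, zero_mul]
      rw [hz', hF3] at h6
      obtain ⟨t', ht', hte'⟩ := Finset.prod_eq_zero_iff.mp h6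
      exact hR N τ' hNp hN2 ⟨t', ht', (sub_eq_zero.mp hte').symm⟩
    rcases hA τ' h2 h3 key with h | h
    · have : τ' = tauK := by
        apply UpperHalfPlane.ext
        rw [h, ratk_tau_coe]
      rw [hz', this]
    · have : ModularGroup.T • τ' = tauK := by
        apply UpperHalfPlane.ext
        rw [modular_T_smul, coe_vadd, h, ratk_tau_coe]
        push_cast
        ring
      rw [hz', ← this, hT]
  obtain ⟨q, hq⟩ := ratk_rat hintQ hroot
  have h1 : IsIntegral ℤ q := by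
    have h2 : IsIntegral ℤ (algebraMap ℚ ℂ q) := by
      have : algebraMap ℚ ℂ q = fy tauK := by rw [hq]; rfl
      rw [this]
      exact hint
    exact (isIntegral_algebraMap_iff (algebraMap ℚ ℂ).injective).mp h2
  obtain ⟨z, hz⟩ := IsIntegrallyClosed.isIntegral_iff.mp h1
  refine ⟨z, ?_⟩
  rw [hq, ← hz]
  simp

end

end Pool.Agent.HS37.CV
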