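import Pool.Agent.HS37.CV.Stm

/-!
# Project CV, piece SUR: `y` is surjective
-/

set_option autoImplicit false

open UpperHalfPlane ModularForm ModularFormClass MatrixGroups EisensteinSeries Complex
open Pool.Agent.HS37.SP Pool.Agent.HS37.CQ
open scoped Manifold

namespace Pool.Agent.HS37.CV

noncomputable section

namespace SURP

theorem qParam_one (τ : ℂ) : Function.Periodic.qParam 1 τ = qq τ := by
  simp [Function.Periodic.qParam, qq]

theorem qpow (hQ : S_QMUL) {g : ℍ → ℂ} {c : PowerSeries ℂ} (h : QExp g 0 c) (n : ℕ) :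
    QExp (fun τ => g τ ^ (n + 1)) 0 (c ^ (n + 1)) := by
  induction n with
  | zero => simpa using h
  | succ n ih =>
    have h1 := hQ.1 _ _ 0 0 _ _ ih h
    simpa only [pow_succ, add_zero] using h1

/-- periodicity -/
theorem per {k : ℤ} {g g' : ℍ → ℂ} (hg : Pr k g g') : Function.Periodic (g ∘ ofComplex) 1 := by
  intro w
  simp only [Function.comp_apply]
  by_cases hw : 0 < w.im
  · have hw' : 0 < (w + 1).im := by simpa using hw
    have h1 := hg.sl ModularGroup.T (ofComplex w) (by simp [ModularGroup.T])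
    have h2 : ModularGroup.T • (ofComplex w) = ofComplex (w + 1) := by
      rw [modular_T_smul]
      apply UpperHalfPlane.ext
      rw [ofComplex_apply_of_im_pos hw, ofComplex_apply_of_im_pos hw']
      show ((1 : ℝ) : ℂ) + w = w + 1
      push_cast
      ring
    rw [h2] at h1
    rw [h1]
    simp [ModularGroup.T]
  · have hw' : (w + 1).im ≤ 0 := by simpa using hw
    rw [ofComplex_apply_of_im_nonpos hw', ofComplex_apply_of_im_nonpos (not_lt.mp hw)]

/-- the limit at `i ∞` of a function with an expansion -/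
theorem tends {k : ℤ} {G G' : ℍ → ℂ} {c : PowerSeries ℂ} (hG : Pr k G G') (h : QExp G 0 c) :
    Filter.Tendsto G atImInfty (nhds (PowerSeries.coeff 0 c)) := by
  have hf : ∀ τ : ℍ, HasSum (fun m ↦ PowerSeries.coeff m c • Function.Periodic.qParam 1 (τ : ℂ) ^ m)
      (G τ) := by
    intro τ
    have h1 := h τ
    rw [pow_zero, one_mul] at h1
    simpa only [smul_eq_mul, qParam_one] using h1
  have hh : (0 : ℝ) < 1 := one_pos
  have hper : Function.Periodic (G ∘ ofComplex) ((1 : ℝ) : ℂ) := by simpa using per hG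
  have hb : IsBoundedAtImInfty G := isBoundedAtImInfty_of_hasSum_qExpansion hh hf
  have hm : MDiff G := UpperHalfPlane.mdifferentiable_iff.mpr hG.holo
  have ha : AnalyticAt ℂ (cuspFunction 1 G) 0 := analyticAt_cuspFunction_zero hh hper hm hb
  have hp := hasFPowerSeriesOnBall_cuspFunction hh ha hf
  have h0 : cuspFunction 1 G 0 = PowerSeries.coeff 0 c := by
    have h3 := hp.hasFPowerSeriesAt.coeff_zero (fun _ => (0 : ℂ))
    rw [← h3]
    simp [FormalMultilinearSeries.ofScalars]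
  have hc : Filter.Tendsto (cuspFunction 1 G) (nhds 0) (nhds (PowerSeries.coeff 0 c)) := by
    rw [← h0]
    exact ha.continuousAt.tendsto
  have ht := hc.comp (qParam_tendsto_atImInfty hh)
  refine ht.congr fun τ => ?_
  exact eq_cuspFunction τ hh.ne' hper

/-- the inverse of a function with constant term `1` and without zeros has an expansion -/
theorem inv_exp {k l : ℤ} {G G' G₁ : ℍ → ℂ} {c : PowerSeries ℂ} (hG : Pr l G G₁) (h : QExp G 0 c)
    (h1 : PowerSeries.coeff 0 c = 1) (hi : Pr k (fun τ => (G τ)⁻¹) G') :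
    ∃ d : PowerSeries ℂ, QExp (fun τ => (G τ)⁻¹) 0 d := by
  have ht := (tends hG h).inv₀ (by rw [h1]; exact one_ne_zero)
  have hb : IsBoundedAtImInfty (fun τ => (G τ)⁻¹) := ht.isBigO_one ℝ
  have hm : MDiff (fun τ => (G τ)⁻¹) := UpperHalfPlane.mdifferentiable_iff.mpr hi.holo
  refine ⟨qExpansion 1 (fun τ => (G τ)⁻¹), fun τ => ?_⟩
  have h2 := UpperHalfPlane.hasSum_qExpansion (h := 1) one_pos (by simpa using per hi) hm hb τ
  simpa [qParam_one] using h2

end SURP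

open SURP in
/-- **SUR** -/
theorem t_SUR (hCON : S_CON) (hPRE : S_PRE) (hREL : S_REL) (hEXP : S_EXP) (hCLO : S_CLO)
    (hBAS : S_BAS) (hQ : S_QMUL) : S_SUR := by
  intro z
  by_contra hcon
  push Not at hcon
  have hfe := hREL.2.2.2.2.2.2.2.1
  have hfs := hREL.2.2.2.2.2.2.2.2
  have hD0 : ∀ τ, fD τ ≠ 0 := fun τ => mul_ne_zero (hfe τ) (hfs τ)
  have hG0 : ∀ τ, fP τ ^ 4 + (-z) * fD τ ≠ 0 := by
    intro τ h0
    apply hcon τ
    rw [fy, div_eq_iff (hD0 τ)]
    linear_combination h0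
  have h1 : Pr 4 (fun τ => fP τ ^ 4) (fun τ => fP τ ^ 4) := by
    have h := hCLO.2.2.2.2.1 1 fP _ 4 hBAS.2.1
    have e1 : (fun τ => (-fP τ) ^ 4) = (fun τ => fP τ ^ 4) := by
      funext τ
      ring
    rw [e1] at h
    simpa using h
  have h2 : Pr 4 fD fD := hPRE.2.2.1
  have h3 : Pr 4 (fun τ => (-z) * fD τ) (fun τ => (-z) * fD τ) := hCLO.2.2.1 4 fD fD (-z) h2
  have hG : Pr 4 (fun τ => fP τ ^ 4 + (-z) * fD τ) (fun τ => fP τ ^ 4 + (-z) * fD τ) :=
    hCLO.2.1 4 _ _ _ _ h1 h3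
  have hGi : Pr (-4) (fun τ => (fP τ ^ 4 + (-z) * fD τ)⁻¹) (fun τ => (fP τ ^ 4 + (-z) * fD τ)⁻¹) :=
    hCLO.2.2.2.2.2.1 4 _ _ hG hG0 hG0
  have hF : Pr 0 (fun τ => fD τ * (fP τ ^ 4 + (-z) * fD τ)⁻¹)
      (fun τ => fD τ * (fP τ ^ 4 + (-z) * fD τ)⁻¹) := by
    have h := hCLO.1 4 (-4) _ _ _ _ h2 hGi
    simpa using h
  -- expansions
  have qD : QExp fD 0 (ce * cs) := by
    have h := hQ.1 _ _ 0 0 _ _ hEXP.1 hEXP.2.1
    exact h
  have qP : QExp (fun τ => fP τ ^ 4) 0 (cP ^ 4) := qpow hQ hEXP.2.2.1 3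
  have qG : QExp (fun τ => fP τ ^ 4 + (-z) * fD τ) 0 (cP ^ 4 + PowerSeries.C (-z) * (ce * cs)) :=
    hQ.2.1 _ _ 0 _ _ qP (hQ.2.2.2.1 _ 0 _ (-z) qD)
  have c0 : PowerSeries.coeff 0 ce = 0 := hEXP.2.2.2.2.2.2.1
  have cP0 : PowerSeries.coeff 0 cP = 1 := hEXP.2.2.2.2.2.2.2.2.2
  rw [PowerSeries.coeff_zero_eq_constantCoeff_apply] at c0 cP0
  obtain ⟨d, hd⟩ := inv_exp hG qG (by
    rw [PowerSeries.coeff_zero_eq_constantCoeff_apply, map_add, map_mul, map_mul, map_pow, c0, cP0]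
    simp) hGi
  have qF : QExp (fun τ => fD τ * (fP τ ^ 4 + (-z) * fD τ)⁻¹) 0 (ce * cs * d) :=
    hQ.1 _ _ 0 0 _ _ qD hd
  have h4 := hCON _ _ _ _ hF qF qF UpperHalfPlane.I
  have h5 : PowerSeries.coeff 0 (ce * cs * d) = 0 := by
    rw [PowerSeries.coeff_zero_eq_constantCoeff_apply, map_mul, map_mul, c0]
    simp
  rw [h5] at h4
  exact mul_ne_zero (hD0 _) (inv_ne_zero (hG0 _)) h4

end

end Pool.Agent.HS37.CV
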