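import Pool.Agent.HS37.CV.Stm

/-!
# Project CV, pieces SELF and REL2N (helper63)
-/

set_option autoImplicit false

open UpperHalfPlane MatrixGroups Complex
open Pool.Agent.HS37.SP Pool.Agent.HS37.CQ

namespace Pool.Agent.HS37.CV

namespace SelfP

theorem coe_tauK : ((tauK : ℍ) : ℂ) = (1 + Complex.I * ((Real.sqrt 37 : ℝ) : ℂ)) / 2 := by
  rw [tauK, ofComplex_apply_of_im_pos (by simp)]

theorem sq_tauK : ((tauK : ℍ) : ℂ) ^ 2 = ((tauK : ℍ) : ℂ) - 19 / 2 := by
  have h : ((Real.sqrt 37 : ℝ) : ℂ) ^ 2 = 37 := by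
    rw [← Complex.ofReal_pow, Real.sq_sqrt (by norm_num)]
    norm_num
  have hI : Complex.I ^ 2 = -1 := Complex.I_sq
  rw [coe_tauK]
  linear_combination (1 / 4) * Complex.I ^ 2 * h + (37 / 4) * hI

theorem smul_mul (γ : SL(2, ℤ)) (z : ℍ) :
    ((γ • z : ℍ) : ℂ) * ((γ 1 0 : ℂ) * z + (γ 1 1 : ℂ)) = (γ 0 0 : ℂ) * z + (γ 0 1 : ℂ) := by
  have h : ((γ • z : ℍ) : ℂ) = ((γ 0 0 : ℂ) * z + (γ 0 1 : ℂ)) / ((γ 1 0 : ℂ) * z + (γ 1 1 : ℂ)) := by
    rw [UpperHalfPlane.specialLinearGroup_apply]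
    simp
  have hd : ((γ 1 0 : ℂ) * z + (γ 1 1 : ℂ)) ≠ 0 := by
    have := UpperHalfPlane.denom_ne_zero (γ : GL (Fin 2) ℝ) z
    simpa [UpperHalfPlane.denom] using this
  rw [h, div_mul_cancel₀ _ hd]

theorem det2 (γ : SL(2, ℤ)) : γ 0 0 * γ 1 1 - γ 0 1 * γ 1 0 = 1 := by
  have h := γ.det_coe
  rw [Matrix.det_fin_two] at h
  exact h

end SelfP

open SelfP in
theorem t_SELF (hV : S_VR2) (hP : S_PRE) : S_SELF := by
  obtain ⟨_, _, h3, h4⟩ := hV
  obtain ⟨_, _, _, _, hy, _⟩ := hP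
  have hs := sq_tauK
  intro N hN
  rcases hN with rfl | rfl | rfl
  · obtain ⟨t, ht, h⟩ := h4 19 (by norm_num) (by decide) !![-1, 0; 2, -19] tauK (tauK : ℂ)
      (by simp [Matrix.det_fin_two_of]) (by simp) (by simp)
      (by
        simp only [Matrix.of_apply, Matrix.cons_val_zero, Matrix.cons_val_one, Matrix.cons_val',
          Matrix.cons_val_fin_one]
        push_cast
        linear_combination (-2) * hs)
    refine ⟨t, ht, ?_⟩
    have h' := h 0 fy fy hy
    rw [mul_zero] at h'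
    rw [h']
    simp
  · obtain ⟨t, ht, h⟩ := h4 31 (by norm_num) (by decide) !![-1, -2; 6, -19] tauK ((tauK : ℂ) + 2)
      (by simp [Matrix.det_fin_two_of]) (by simp)
      (by
        simp only [Matrix.of_apply, Matrix.cons_val_zero, Matrix.cons_val_one, Matrix.cons_val',
          Matrix.cons_val_fin_one]
        push_cast
        ring)
      (by
        simp only [Matrix.of_apply, Matrix.cons_val_zero, Matrix.cons_val_one, Matrix.cons_val',
          Matrix.cons_val_fin_one]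
        push_cast
        linear_combination (-2) * hs)
    refine ⟨t, ht, ?_⟩
    have h' := h 0 fy fy hy
    rw [mul_zero] at h'
    rw [h']
    simp
  · obtain ⟨t, ht, h⟩ := h3 41 (by norm_num) (by decide) !![3, -19; 2, 1] tauK (2 * (tauK : ℂ) + 1)
      (by simp [Matrix.det_fin_two_of]) (by simp)
      (by
        simp only [Matrix.of_apply, Matrix.cons_val_zero, Matrix.cons_val_one, Matrix.cons_val',
          Matrix.cons_val_fin_one]
        push_cast
        linear_combination (-2) * hs)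
      (by
        simp only [Matrix.of_apply, Matrix.cons_val_zero, Matrix.cons_val_one, Matrix.cons_val',
          Matrix.cons_val_fin_one]
        push_cast
        ring)
    refine ⟨t, ht, ?_⟩
    have h' := h 0 fy fy hy
    rw [mul_zero] at h'
    rw [h']
    simp

open SelfP in
theorem t_REL2N (hI : S_INJ) : S_REL2N := by
  rintro N τ hN hN2 ⟨⟨a, b, d⟩, ht, hv⟩
  rw [reps, Finset.mem_filter] at ht
  obtain ⟨had, hbd⟩ := ht.2
  simp only at had hbd
  have hd0 : 0 < d := by omega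
  have ha0 : 0 < a := by
    rcases Nat.eq_zero_or_pos a with h | h
    · rw [h, zero_mul] at had
      exact absurd had.symm hN.ne_zero
    · exact h
  have hdR : (0 : ℝ) < d := by exact_mod_cast hd0
  have haR : (0 : ℝ) < a := by exact_mod_cast ha0
  have hdC : (d : ℂ) ≠ 0 := by exact_mod_cast hd0.ne'
  have him : 0 < (((a : ℂ) * τ + b) / d).im := by
    rw [Complex.div_natCast_im]
    have e : ((a : ℂ) * τ + b).im = a * τ.im := by simp
    rw [e]
    have := τ.im_pos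
    positivity
  set τ₁ : ℍ := ofComplex (((a : ℂ) * τ + b) / d) with hτ₁
  have hc : (τ₁ : ℂ) = ((a : ℂ) * τ + b) / d := by
    rw [hτ₁, ofComplex_apply_of_im_pos him]
  have hc' : (d : ℂ) * (τ₁ : ℂ) = (a : ℂ) * τ + b := by
    rw [hc]
    field_simp
  have hy : fy τ₁ = fy τ := by
    have e : val 0 fy (mat (a, b, d)) τ = fy τ₁ := by
      rw [hτ₁]
      simp [val, mat]
    rw [← e, hv]
  have hadC : (a : ℤ) * d = N := by exact_mod_cast had
  obtain ⟨γ, hγ, h | h⟩ := hI τ₁ τ hy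
  · have hm := smul_mul γ τ₁
    rw [← h] at hm
    refine ⟨!![γ 0 0 * a, γ 0 0 * b + γ 0 1 * d; γ 1 0 * a, γ 1 0 * b + γ 1 1 * d], ?_, Or.inl ?_, ?_⟩
    · simp only [Matrix.of_apply, Matrix.cons_val_zero, Matrix.cons_val_one, Matrix.cons_val',
        Matrix.cons_val_fin_one]
      exact hγ.mul_right _
    · rw [Matrix.det_fin_two_of]
      linear_combination (N : ℤ) * det2 γ + (γ 0 0 * γ 1 1 - γ 0 1 * γ 1 0) * hadC
    · simp only [Matrix.of_apply, Matrix.cons_val_zero, Matrix.cons_val_one, Matrix.cons_val',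
        Matrix.cons_val_fin_one]
      push_cast
      linear_combination (d : ℂ) * hm + (-(τ : ℂ) * (γ 1 0 : ℂ) + (γ 0 0 : ℂ)) * hc'
  · have hm := smul_mul γ (fri τ₁)
    rw [← h] at hm
    have hτ0 : (τ₁ : ℂ) ≠ 0 := UpperHalfPlane.ne_zero τ₁
    have hf : ((fri τ₁ : ℍ) : ℂ) * (2 * (τ₁ : ℂ)) = -1 := by
      have hi : 0 < (-1 / (2 * (τ₁ : ℂ))).im := by
        have e : -1 / (2 * (τ₁ : ℂ)) = -(2 * (τ₁ : ℂ))⁻¹ := by
          rw [neg_div, one_div]
        have e2 : (2 * (τ₁ : ℂ)).im = 2 * τ₁.im := by simp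
        have h2 : 0 < Complex.normSq (2 * (τ₁ : ℂ)) :=
          Complex.normSq_pos.2 (mul_ne_zero two_ne_zero hτ0)
        rw [e, Complex.neg_im, Complex.inv_im, e2, neg_div, neg_neg]
        have := τ₁.im_pos
        positivity
      rw [fri, ofComplex_apply_of_im_pos hi]
      field_simp
    refine ⟨!![2 * γ 0 1 * a, -γ 0 0 * d + 2 * γ 0 1 * b; 2 * γ 1 1 * a, -γ 1 0 * d + 2 * γ 1 1 * b],
      ?_, Or.inr ⟨?_, ?_, ?_⟩, ?_⟩
    · simp only [Matrix.of_apply, Matrix.cons_val_zero, Matrix.cons_val_one, Matrix.cons_val',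
        Matrix.cons_val_fin_one]
      exact ⟨γ 1 1 * a, by ring⟩
    · rw [Matrix.det_fin_two_of]
      linear_combination (2 * N : ℤ) * det2 γ + 2 * (γ 0 0 * γ 1 1 - γ 0 1 * γ 1 0) * hadC
    · simp only [Matrix.of_apply, Matrix.cons_val_zero, Matrix.cons_val_one, Matrix.cons_val',
        Matrix.cons_val_fin_one]
      exact ⟨γ 0 1 * a, by ring⟩
    · simp only [Matrix.of_apply, Matrix.cons_val_zero, Matrix.cons_val_one, Matrix.cons_val',
        Matrix.cons_val_fin_one]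
      obtain ⟨x, hx⟩ := hγ
      exact ⟨-x * d + γ 1 1 * b, by rw [hx]; ring⟩
    · simp only [Matrix.of_apply, Matrix.cons_val_zero, Matrix.cons_val_one, Matrix.cons_val',
        Matrix.cons_val_fin_one]
      push_cast
      -- `τ (γ10 f + γ11) = γ00 f + γ01`, `f * 2 τ₁ = -1`
      have h5 : (τ : ℂ) * (-(γ 1 0 : ℂ) + (γ 1 1 : ℂ) * (2 * (τ₁ : ℂ))) =
          -(γ 0 0 : ℂ) + (γ 0 1 : ℂ) * (2 * (τ₁ : ℂ)) := by
        linear_combination (2 * (τ₁ : ℂ)) * hm + (-(τ : ℂ) * (γ 1 0 : ℂ) + (γ 0 0 : ℂ)) * hf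
      linear_combination (d : ℂ) * h5 + (-2 * (τ : ℂ) * (γ 1 1 : ℂ) + 2 * (γ 0 1 : ℂ)) * hc'

end Pool.Agent.HS37.CV
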