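import Pool.Agent.HS37.CV.Stm
import Pool.Agent.HS37.CQ.Gex

/-!
# Project CV, piece SYM: self-partner functions with integral expansion
-/

set_option autoImplicit false

open UpperHalfPlane
open Pool.Agent.HS37.SP Pool.Agent.HS37.CQ

namespace Pool.Agent.HS37.CV

noncomputable section

namespace SYM

/-- the expansion of `y` -/
theorem fy_exp (hPRE : S_PRE) (hEXP : S_EXP) :
    ∃ c : PowerSeries ℂ, QExp fy 1 c ∧ IsInt c ∧ PowerSeries.coeff 0 c = 1 := by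
  obtain ⟨-, -, -, -, -, ⟨c, hc1, hc2, -, hc3⟩, ⟨d, hd1, hd2, -, hd3⟩, -, -⟩ := hPRE
  obtain ⟨-, -, hP, -, -, hPi, -, -, -, hP0⟩ := hEXP
  refine ⟨cP ^ 4 * (c * d), ?_, ?_, ?_⟩
  · have h1 := GEX.qexp_pow hP 4
    have h2 := t_QMUL.1 _ _ _ _ _ _ hc1 hd1
    have h3 := t_QMUL.1 _ _ _ _ _ _ h1 h2
    have h4 : (fun τ => fP τ ^ 4 * ((fe τ)⁻¹ * (fs τ)⁻¹)) = fy := by
      funext τ
      unfold fy fD
      rw [div_eq_mul_inv, mul_inv]
    rw [h4] at h3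
    simpa using h3
  · rw [isInt_iff] at *
    exact mul_mem (pow_mem hPi 4) (mul_mem hc2 hd2)
  · rw [PowerSeries.coeff_zero_eq_constantCoeff_apply] at *
    rw [map_mul, map_mul, map_pow, hP0, hc3, hd3]
    norm_num

end SYM

theorem t_SYM (hCON : S_CON) (hPRE : S_PRE) (hEXP : S_EXP) (hCLO : S_CLO) : S_SYM := by
  intro F m c hF hc hci
  obtain ⟨cy, h1, h2, h3⟩ := SYM.fy_exp hPRE hEXP
  choose z hz using hci
  obtain ⟨G, g, -, e2, -, e4⟩ := GEX.presc h1 h2 h3 m z (m + 1) le_rfl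
  have hy : Pr 0 fy fy := hPRE.2.2.2.2.1
  have hG := GEX.aeval_pr hCLO hy G
  have hD := hCLO.2.1 0 _ _ _ _ hF (hCLO.2.2.1 0 _ _ (-1) hG)
  have hq := t_QMUL.2.1 _ _ _ _ _ hc (t_QMUL.2.2.2.1 _ _ _ (-1) e2)
  obtain ⟨r, hr⟩ : PowerSeries.X ^ (m + 1) ∣ c + PowerSeries.C (-1 : ℂ) * g := by
    rw [PowerSeries.X_pow_dvd_iff]
    intro i hi
    rw [map_add, PowerSeries.coeff_C_mul, hz i, e4 i hi]
    ring
  rw [hr, pow_succ, mul_assoc] at hq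
  have hq0 := t_QMUL.2.2.2.2.2 _ 0 m (PowerSeries.X * r) (by rw [zero_add]; exact hq)
  have k1 := hCON _ _ _ _ hD hq0 hq0
  refine ⟨G, fun τ => ?_⟩
  have k2 := k1 τ
  rw [PowerSeries.coeff_zero_X_mul] at k2
  linear_combination k2

end

end Pool.Agent.HS37.CV
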