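import Pool.Agent.HS37.CV.Fin

/-!
# Project CV: the value `y((1 + √-37) / 2) = -2^10 · 21^4`
-/

set_option autoImplicit false

open UpperHalfPlane ModularForm ModularFormClass MatrixGroups EisensteinSeries Complex
open Pool.Agent.HS37.SP Pool.Agent.HS37.CQ

namespace Pool.Agent.HS37.CV

theorem value (hz : S_RATK) (hn : S_NUMK) (hR : S_REL) :
    fP tauK ^ 4 = (cK : ℂ) * (fe tauK * fs tauK) := by
  obtain ⟨z, hz⟩ := hz
  unfold S_NUMK at hn
  rw [hz] at hn
  have h1 : ‖((z + 199148544 : ℤ) : ℂ)‖ < 1 := by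
    push_cast
    exact hn
  rw [Complex.norm_intCast] at h1
  have h2 : |z + 199148544| < 1 := by exact_mod_cast h1
  have h3 : z = cK := by
    unfold cK
    rw [abs_lt] at h2
    omega
  obtain ⟨-, -, -, -, -, -, -, he, hs⟩ := hR
  have hD : fD tauK ≠ 0 := mul_ne_zero (he _) (hs _)
  have h4 : fP tauK ^ 4 / fD tauK = (cK : ℂ) := by
    rw [← h3]
    exact hz
  rw [div_eq_iff hD] at h4
  exact h4

end Pool.Agent.HS37.CV
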