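import Pool.Agent.HS37.CV.Stm

/-!
Piece YINT of project CV (helper45).
-/

set_option autoImplicit false

open UpperHalfPlane ModularForm ModularFormClass MatrixGroups EisensteinSeries Complex
open Pool.Agent.HS37.SP Pool.Agent.HS37.CQ

namespace Pool.Agent.HS37.CV

theorem t_YINT (hF : S_FN) (hI : S_INTP) (hS : S_SUR) (hM : S_PSM) : S_YINT := by
  intro N hN hN2 τ hτ
  obtain ⟨t, ht, hv⟩ := hτ
  obtain ⟨F, -, hlead, heval, hps⟩ := hF N hN hN2
  have h1 : ∀ α : ℂ, IsIntegral ℤ α → IsIntegral ℤ (Polynomial.aeval α F) := by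
    intro α hα
    obtain ⟨τ', hτ'⟩ := hS α
    have h2 := hM (reps N) (fun t => fy τ' - val 0 fy (mat t) τ') α α hα hα (fun M _ => by
      obtain ⟨Q, hQ⟩ := hps M
      refine ⟨Q, 0, ?_⟩
      rw [map_zero, add_zero, ← hτ']
      exact hQ τ')
    rw [← hτ', heval τ']
    exact IsIntegral.prod _ h2
  obtain ⟨G, hG⟩ := hI F h1
  have h3 : Polynomial.aeval (fy τ) F = 0 := by
    rw [heval τ]
    exact Finset.prod_eq_zero ht (by rw [hv, sub_self])
  have h4 : Polynomial.aeval (fy τ) G = 0 := by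
    rw [hG, ← algebraMap_int_eq, Polynomial.aeval_map_algebraMap] at h3
    exact h3
  have h5 : G.leadingCoeff = -1 := by
    rw [hG, Polynomial.leadingCoeff_map_of_injective (Int.cast_injective)] at hlead
    have h6 : ((G.leadingCoeff : ℤ) : ℚ) = ((-1 : ℤ) : ℚ) := by
      rw [Int.cast_neg, Int.cast_one]
      exact hlead
    exact_mod_cast h6
  refine ⟨-G, ?_, ?_⟩
  · rw [Polynomial.Monic, Polynomial.leadingCoeff_neg, h5, neg_neg]
  · rw [← Polynomial.aeval_def, map_neg, h4, neg_zero]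

end Pool.Agent.HS37.CV
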